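import Pool.Agent.W_MP_901ac1_lc.Defs

/-!
# The outcome problem
-/

set_option autoImplicit false

namespace Pool.Agent.W_MP_901ac1_lc

/-- The three outcomes under optimal play. -/
inductive Outcome
  | next
  | previous
  | draw

/-- The player not to move can force a win: he wins after every move. -/
def Inst.Loses (I : Inst) (p : Pos) : Prop := ∀ q, I.Move p q → I.Wins q

/-- The outcome of an instance: the player to move can force a win, or the other player can, or
neither can. -/
def Inst.HasOutcome (I : Inst) : Outcome → Prop
  | .next => I.Wins I.start
  | .previous => I.Loses I.start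
  | .draw => ¬ I.Wins I.start ∧ ¬ I.Loses I.start

theorem Inst.Wins.not_loses {I : Inst} {p : Pos} (h : I.Wins p) : ¬ I.Loses p := by
  induction h with
  | @intro p q h1 _ ih =>
    intro h
    have h2 := h q h1
    cases h2 with
    | intro h3 h4 => exact ih _ h3 h4

/-- A position is won by exactly the moves to lost positions. -/
theorem Inst.wins_iff {I : Inst} {p : Pos} : I.Wins p ↔ ∃ q, I.Move p q ∧ I.Loses q := by
  constructor
  · rintro ⟨h1, h2⟩
    exact ⟨_, h1, h2⟩
  · rintro ⟨q, h1, h2⟩
    exact ⟨h1, h2⟩

/-- Every instance has exactly one outcome. -/
theorem Inst.existsUnique_outcome (I : Inst) : ∃! o, I.HasOutcome o := by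
  by_cases h : I.Wins I.start
  · refine ⟨.next, h, fun o ho => ?_⟩
    cases o with
    | next => rfl
    | previous => exact absurd ho h.not_loses
    | draw => exact absurd h ho.1
  · by_cases h' : I.Loses I.start
    · refine ⟨.previous, h', fun o ho => ?_⟩
      cases o with
      | next => exact absurd ho h
      | previous => rfl
      | draw => exact absurd h' ho.2
    · refine ⟨.draw, ⟨h, h'⟩, fun o ho => ?_⟩
      cases o with
      | next => exact absurd ho h
      | previous => exact absurd ho h'
      | draw => rfl

end Pool.Agent.W_MP_901ac1_lc
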