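import Pool.Agent.W_MP_901ac1_lc.Defs

/-!
# The base game and the Hit instance constructed from it
-/

set_option autoImplicit false

namespace Pool.Agent.W_MP_901ac1_lc

/-! ### The base game (rewriting of assignments) -/

/-- A literal `(new, x, b)`: variable `x` of the new (old) assignment has value `b`. -/
abbrev Lit := Bool × ℕ × Bool

/-- A labelled clause. -/
abbrev LCl := ℕ × List Lit

/-- The literal is true. -/
def Lit.Holds (X Y : ℕ → Bool) (l : Lit) : Prop := (if l.1 then Y l.2.1 else X l.2.1) = l.2.2

/-- All clauses with label `u` are true for the old assignment `X` and the new assignment `Y`. -/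
def Sat (cl : List LCl) (u : ℕ) (X Y : ℕ → Bool) : Prop :=
  ∀ c, (u, c) ∈ cl → ∃ l ∈ c, Lit.Holds X Y l

/-- The base game: the first player wins with old assignment `X` and label `u` if he can find a new
assignment `Y` such that either all clauses with label `U` are true, or all clauses with label `u`
are true and he wins with old assignment `Y` and every label `u' < U`. -/
inductive RWin (cl : List LCl) (U : ℕ) : ℕ → (ℕ → Bool) → Prop
  | acc {u : ℕ} {X Y : ℕ → Bool} : Sat cl U X Y → RWin cl U u X
  | step {u : ℕ} {X Y : ℕ → Bool} : Sat cl u X Y → (∀ u' < U, RWin cl U u' Y) → RWin cl U u X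

/-! ### The game graph -/

/-- The private vertices of a token: a 4-cycle and a nim heap. -/
inductive Loc | c0 | c1 | c2 | c3 | h0 | h1 | h2 | h3 | h4
  deriving DecidableEq, Fintype

namespace Loc

/-- Numbering of the private vertices. -/
def off : Loc → ℕ
  | c0 => 0 | c1 => 1 | c2 => 2 | c3 => 3 | h0 => 4 | h1 => 5 | h2 => 6 | h3 => 7 | h4 => 8

/-- All private vertices. -/
def all : List Loc := [c0, c1, c2, c3, h0, h1, h2, h3, h4]

/-- The next vertex of the cycle. -/
def next : Loc → Option Loc
  | c0 => some c1 | c1 => some c2 | c2 => some c3 | c3 => some c0 | _ => none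

/-- The size of the heap at a vertex. -/
def heap : Loc → Option ℕ
  | h0 => some 0 | h1 => some 1 | h2 => some 2 | h3 => some 3 | h4 => some 4 | _ => none

/-- The Grundy value (a number below 8) of a token in group `g` at a private vertex. -/
def val (g : Bool) : Loc → Fin 8
  | c0 => 1 | c2 => 1 | c1 => if g then 5 else 3 | c3 => if g then 5 else 3
  | h0 => 0 | h1 => 1 | h2 => 2 | h3 => 3 | h4 => 4

/-- The moves of a token of group `g`. -/
def edge (g : Bool) (l l' : Loc) : Bool :=
  decide (l.next = some l') ||
    (match l'.heap with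
      | some w => decide (w < (l.val g : ℕ))
      | none => false)

/-- The vertex that says that a variable has value `b`. -/
def at' (b : Bool) : Loc := if b then c2 else c0

end Loc

/-- The forbidden exit value of group `g`. -/
def dl (g : Bool) : Fin 8 := if g then 4 else 2

/-- The vertices: the control heap `M`, private vertices `P g x l` of the token of variable `x` in
buffer `g`, and the control vertices `W` (write), `D` (decide), `K` (clause). -/
inductive Vx
  | M (v : Fin 8)
  | P (g : Bool) (x : ℕ) (l : Loc)
  | W (g : Bool) (u : ℕ)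
  | D (g : Bool) (u : ℕ)
  | K (g : Bool) (k : ℕ)
  deriving DecidableEq

/-- The data of a base game: number of variables, accepting label, labelled clauses. -/
structure Base where
  m : ℕ
  U : ℕ
  cl : List LCl

/-- All variables are `< m`. -/
def Base.WF (B : Base) : Prop := ∀ c ∈ B.cl, ∀ l ∈ c.2, l.2.1 < B.m

open Vx Loc in
/-- The edges of the control token. -/
inductive CEdge (B : Base) : Vx → Vx → Prop
  | MM {v w : Fin 8} : w < v → CEdge B (M v) (M w)
  | PM {g : Bool} {x : ℕ} {l : Loc} {w : Fin 8} : x < B.m → w < l.val g →
      CEdge B (P g x l) (M w)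
  | WM {g : Bool} {u : ℕ} {w : Fin 8} : u < B.U → w ≠ 0 → w ≠ dl g → CEdge B (W g u) (M w)
  | WP1 {g : Bool} {u x : ℕ} : u < B.U → x < B.m → CEdge B (W g u) (P g x c1)
  | WP3 {g : Bool} {u x : ℕ} : u < B.U → x < B.m → CEdge B (W g u) (P g x c3)
  | WD {g : Bool} {u : ℕ} : u < B.U → CEdge B (W g u) (D g u)
  | WU {g : Bool} {u : ℕ} : u < B.U → CEdge B (W g u) (D g B.U)
  | DM {g : Bool} {u : ℕ} {w : Fin 8} : u ≤ B.U → w ≠ 0 → CEdge B (D g u) (M w)
  | DK {g : Bool} {u k : ℕ} {c : List Lit} : u ≤ B.U → B.cl[k]? = some (u, c) →
      CEdge B (D g u) (K g k)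
  | DW {g : Bool} {u u' : ℕ} : u < B.U → u' < B.U → CEdge B (D g u) (W (!g) u')
  | KM {g : Bool} {k : ℕ} {w : Fin 8} : k < B.cl.length → w ≠ 0 → CEdge B (K g k) (M w)
  | KP {g : Bool} {k u : ℕ} {c : List Lit} {l : Lit} : B.cl[k]? = some (u, c) → l ∈ c →
      CEdge B (K g k) (P (if l.1 then g else !g) l.2.1 (at' l.2.2))
  | KH {g : Bool} {k u : ℕ} {c : List Lit} {l : Lit} : B.cl[k]? = some (u, c) → l ∈ c →
      CEdge B (K g k) (P (if l.1 then g else !g) l.2.1 h1)

/-! ### The structured game -/

/-- A state: the place of the control token and the places of the other tokens (`none`: deleted).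
The other tokens are `(g, x)` with `x < m`. -/
structure St where
  c : Option Vx
  τ : Bool × ℕ → Option Loc

/-- The effect on the tokens of a move of the control token to `b`. -/
def cap (b : Vx) (τ : Bool × ℕ → Option Loc) : Bool × ℕ → Option Loc :=
  match b with
  | .P g x l => if τ (g, x) = some l then Function.update τ (g, x) none else τ
  | _ => τ

/-- Moves of the structured game. -/
inductive Step (B : Base) : St → St → Prop
  | tok {s : St} {i : Bool × ℕ} {l l' : Loc} : i.2 < B.m → s.τ i = some l →
      l.edge i.1 l' = true →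
      Step B s ⟨if s.c = some (.P i.1 i.2 l') then none else s.c,
        Function.update s.τ i (some l')⟩
  | ctl {s : St} {a b : Vx} : s.c = some a → CEdge B a b → Step B s ⟨some b, cap b s.τ⟩

/-- The player to move wins the structured game. -/
inductive SWins (B : Base) : St → Prop
  | intro {s q : St} : Step B s q → (∀ r, Step B q r → SWins B r) → SWins B s

/-- The initial state: the control token at `W true u₀`, buffer `false` holds the initial
assignment, which is true exactly at the elements of `tr`. -/
def Base.start (B : Base) (u₀ : ℕ) (tr : List ℕ) : St where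
  c := some (.W true u₀)
  τ i := if i.2 < B.m then some (if i.1 = false ∧ i.2 ∈ tr then .c2 else .c0) else none

/-! ### The instance of Hit -/

section Generator

variable (m U : ℕ) (cl : List LCl)

/-- First code of the private vertices of a token. -/
def cP0 (g : Bool) (x : ℕ) : ℕ := 8 + 9 * ((if g then m else 0) + x)

/-- Codes of vertices. -/
def cP (g : Bool) (x : ℕ) (l : Loc) : ℕ := cP0 m g x + l.off
/-- Codes of vertices. -/
def cW (g : Bool) (u : ℕ) : ℕ := 8 + 18 * m + 6 * u + (if g then 1 else 0)
/-- Codes of vertices. -/
def cD (g : Bool) (u : ℕ) : ℕ := 8 + 18 * m + 6 * u + (if g then 3 else 2)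
/-- Codes of vertices. -/
def cK (g : Bool) (k : ℕ) : ℕ := 8 + 18 * m + 6 * k + (if g then 5 else 4)

/-- The code of a vertex. -/
def code : Vx → ℕ
  | .M v => v
  | .P g x l => cP m g x l
  | .W g u => cW m g u
  | .D g u => cD m g u
  | .K g k => cK m g k

/-- The moves of the tokens of group `g`, as a list of pairs of offsets. -/
def relEdges (g : Bool) : List (ℕ × ℕ) :=
  Loc.all.flatMap fun l => (Loc.all.filter fun l' => l.edge g l').map fun l' => (l.off, l'.off)

/-- The moves of the token `(g, x)`. -/
def tokEdges (g : Bool) (x : ℕ) : List (ℕ × ℕ) :=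
  (relEdges g).map fun e => (cP0 m g x + e.1, cP0 m g x + e.2)

/-- Edges from `a` to the control heap, for the heap sizes in the list. -/
def toM (a : ℕ) (l : List (Fin 8)) : List (ℕ × ℕ) := l.map fun w => (a, (w : ℕ))

/-- The edges of the control token. -/
def ctlEdges : List (ℕ × ℕ) :=
  ((List.finRange 8).flatMap fun v => toM (v : ℕ) ((List.finRange 8).filter fun w => w < v)) ++
  ([false, true].flatMap fun g =>
    ((List.range m).flatMap fun x => Loc.all.flatMap fun l =>
      toM (cP m g x l) ((List.finRange 8).filter fun w => w < l.val g)) ++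
    ((List.range U).flatMap fun u =>
      toM (cW m g u) ((List.finRange 8).filter fun w => w ≠ 0 ∧ w ≠ dl g) ++
      ((List.range m).flatMap fun x => [(cW m g u, cP m g x .c1), (cW m g u, cP m g x .c3)]) ++
      [(cW m g u, cD m g u), (cW m g u, cD m g U)] ++
      ((List.range U).map fun u' => (cD m g u, cW m (!g) u'))) ++
    ((List.range (U + 1)).flatMap fun u =>
      toM (cD m g u) ((List.finRange 8).filter fun w => w ≠ 0)) ++
    ((List.range cl.length).flatMap fun k =>
      toM (cK m g k) ((List.finRange 8).filter fun w => w ≠ 0) ++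
      ((cl[k]?).toList.flatMap fun c =>
        (if c.1 ≤ U then [(cD m g c.1, cK m g k)] else []) ++
        c.2.flatMap fun l =>
          [(cK m g k, cP m (if l.1 then g else !g) l.2.1 (Loc.at' l.2.2)),
            (cK m g k, cP m (if l.1 then g else !g) l.2.1 .h1)])))

/-- All types: tokens `(false, x)` have type `x`, tokens `(true, x)` have type `m + x`, and the
control token has type `2 * m`. -/
def types : List (List (ℕ × ℕ)) :=
  (List.range m).map (tokEdges m false) ++ (List.range m).map (tokEdges m true) ++
    [ctlEdges m U cl]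

/-- The instance of Hit for a base game. -/
def hit (u₀ : ℕ) (tr : List ℕ) : Inst where
  n := 8 + 18 * m + 6 * (U + 1 + cl.length)
  edges := (types m U cl).flatten
  types := types m U cl
  tokens := (List.range m).map (fun x => (cP m false x (Loc.at' (decide (x ∈ tr))), x)) ++
    (List.range m).map (fun x => (cP m true x .c0, m + x)) ++ [(cW m true u₀, 2 * m)]

end Generator

end Pool.Agent.W_MP_901ac1_lc
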