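import Pool.Agent.W_MP_901ac1_lc.Base

/-!
# The structured game realises the base game
-/

set_option autoImplicit false

namespace Pool.Agent.W_MP_901ac1_lc

open Loc

/-! ### Nim values -/

/-- Nim values below 8, as vectors over the field with two elements. -/
abbrev NV := ZMod 2 × ZMod 2 × ZMod 2

/-- The vector of a number. -/
def nv (v : Fin 8) : NV :=
  (if v < 4 then 0 else 1, if v = 0 ∨ v = 1 ∨ v = 4 ∨ v = 5 then 0 else 1,
    if v = 0 ∨ v = 2 ∨ v = 4 ∨ v = 6 then 0 else 1)

/-- The number of a vector. -/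
def vn (s : NV) : Fin 8 :=
  (if s.1 = 0 then 0 else 4) + (if s.2.1 = 0 then 0 else 2) + (if s.2.2 = 0 then 0 else 1)

theorem nv_vn : ∀ s : NV, nv (vn s) = s := by decide

theorem vn_nv : ∀ v : Fin 8, vn (nv v) = v := by decide

theorem nv_inj {v w : Fin 8} (h : nv v = nv w) : v = w := by
  rw [← vn_nv v, h, vn_nv]

theorem nv_ne_zero {v : Fin 8} (h : v ≠ 0) : nv v ≠ 0 := fun h' => h (nv_inj h')

theorem add_self_NV : ∀ s : NV, s + s = 0 := by decide

theorem red1 : ∀ a s : NV, s.1 ≠ 0 → a.1 ≠ 0 → vn (a + s) < vn a := by decide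
theorem red2 : ∀ a s : NV, s.1 = 0 → s.2.1 ≠ 0 → a.2.1 ≠ 0 → vn (a + s) < vn a := by decide
theorem red3 : ∀ a s : NV, s.1 = 0 → s.2.1 = 0 → s.2.2 ≠ 0 → a.2.2 ≠ 0 → vn (a + s) < vn a := by
  decide

theorem NV_ne_zero : ∀ s : NV, s ≠ 0 →
    s.1 ≠ 0 ∨ (s.1 = 0 ∧ s.2.1 ≠ 0) ∨ (s.1 = 0 ∧ s.2.1 = 0 ∧ s.2.2 ≠ 0) := by decide

/-- Some summand can be decreased so that the sum becomes zero. -/
theorem nim_red {ι : Type*} (I : Finset ι) (f : ι → NV) (a : NV) (h : a + ∑ i ∈ I, f i ≠ 0) :
    vn (a + (a + ∑ i ∈ I, f i)) < vn a ∨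
      ∃ i ∈ I, vn (f i + (a + ∑ i ∈ I, f i)) < vn (f i) := by
  have e1 : (a + ∑ i ∈ I, f i).1 = a.1 + ∑ i ∈ I, (f i).1 := by
    rw [Prod.fst_add, Prod.fst_sum]
  have e2 : (a + ∑ i ∈ I, f i).2.1 = a.2.1 + ∑ i ∈ I, (f i).2.1 := by
    rw [Prod.snd_add, Prod.fst_add, Prod.snd_sum, Prod.fst_sum]
  have e3 : (a + ∑ i ∈ I, f i).2.2 = a.2.2 + ∑ i ∈ I, (f i).2.2 := by
    rw [Prod.snd_add, Prod.snd_add, Prod.snd_sum, Prod.snd_sum]
  rcases NV_ne_zero _ h with h1 | ⟨h1, h2⟩ | ⟨h1, h2, h3⟩
  · by_cases ha : a.1 = 0
    · right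
      have : ∑ i ∈ I, (f i).1 ≠ 0 := by
        intro h0
        exact h1 (by rw [e1, ha, h0, add_zero])
      obtain ⟨i, hi, hfi⟩ := Finset.exists_ne_zero_of_sum_ne_zero this
      exact ⟨i, hi, red1 _ _ h1 hfi⟩
    · exact Or.inl (red1 _ _ h1 ha)
  · by_cases ha : a.2.1 = 0
    · right
      have : ∑ i ∈ I, (f i).2.1 ≠ 0 := by
        intro h0
        exact h2 (by rw [e2, ha, h0, add_zero])
      obtain ⟨i, hi, hfi⟩ := Finset.exists_ne_zero_of_sum_ne_zero this
      exact ⟨i, hi, red2 _ _ h1 h2 hfi⟩
    · exact Or.inl (red2 _ _ h1 h2 ha)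
  · by_cases ha : a.2.2 = 0
    · right
      have : ∑ i ∈ I, (f i).2.2 ≠ 0 := by
        intro h0
        exact h3 (by rw [e3, ha, h0, add_zero])
      obtain ⟨i, hi, hfi⟩ := Finset.exists_ne_zero_of_sum_ne_zero this
      exact ⟨i, hi, red3 _ _ h1 h2 h3 hfi⟩
    · exact Or.inl (red3 _ _ h1 h2 h3 ha)

/-! ### Values of states -/

/-- The value of a token. -/
def tv (i : Bool × ℕ) : Option Loc → NV
  | none => 0
  | some l => nv (l.val i.1)

/-- The tokens. -/
def idx (m : ℕ) : Finset (Bool × ℕ) := Finset.univ ×ˢ Finset.range m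

theorem mem_idx {m : ℕ} {i : Bool × ℕ} : i ∈ idx m ↔ i.2 < m := by
  simp [idx]

/-- The sum of the values of the tokens. -/
def tsum (m : ℕ) (τ : Bool × ℕ → Option Loc) : NV := ∑ i ∈ idx m, tv i (τ i)

/-- The value of the control token, if it is isolated. -/
def cv : Option Vx → NV
  | some (.M v) => nv v
  | some (.P g _ l) => nv (l.val g)
  | _ => 0

/-- The value of a state. -/
def tot (m : ℕ) (s : St) : NV := cv s.c + tsum m s.τ

/-- Size of a place. -/
def lm : Loc → ℕ
  | c0 => 10 | c1 => 10 | c2 => 10 | c3 => 10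
  | h0 => 0 | h1 => 1 | h2 => 2 | h3 => 3 | h4 => 4

/-- Size of a token. -/
def tm' : Option Loc → ℕ
  | none => 0
  | some l => lm l

/-- Size of the control token. -/
def cm : Option Vx → ℕ
  | some (.M v) => v
  | some (.P _ _ _) => 10
  | _ => 0

/-- The measure that decreases with every good reply. -/
def meas (m : ℕ) (s : St) : ℕ := cm s.c + ∑ i ∈ idx m, tm' (s.τ i)

/-- The control token does not interact with the other tokens any more. -/
def Iso (s : St) : Prop :=
  s.c = none ∨ (∃ v, s.c = some (.M v)) ∨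
    ∃ g x l, s.c = some (.P g x l) ∧ s.τ (g, x) = none

theorem tsum_update {m : ℕ} {τ : Bool × ℕ → Option Loc} {i : Bool × ℕ} (hi : i.2 < m)
    (o : Option Loc) : tsum m (Function.update τ i o) = tsum m τ + (tv i (τ i) + tv i o) := by
  classical
  unfold tsum
  have hi' := mem_idx.2 hi
  rw [← Finset.add_sum_erase _ _ hi', ← Finset.add_sum_erase _ (fun j => tv j (τ j)) hi']
  have : ∑ x ∈ (idx m).erase i, tv x (Function.update τ i o x) =
      ∑ x ∈ (idx m).erase i, tv x (τ x) := by
    refine Finset.sum_congr rfl fun j hj => ?_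
    rw [Function.update_of_ne (Finset.ne_of_mem_erase hj)]
  rw [this, Function.update_self]
  have h2 := add_self_NV (tv i (τ i))
  calc tv i o + ∑ x ∈ (idx m).erase i, tv x (τ x)
      = (tv i (τ i) + tv i (τ i)) + (tv i o + ∑ x ∈ (idx m).erase i, tv x (τ x)) := by
        rw [h2, zero_add]
    _ = _ := by abel

theorem meas_update {m : ℕ} {τ : Bool × ℕ → Option Loc} {i : Bool × ℕ} (hi : i.2 < m)
    (o : Option Loc) :
    (∑ j ∈ idx m, tm' (Function.update τ i o j)) + tm' (τ i) = (∑ j ∈ idx m, tm' (τ j)) + tm' o := by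
  classical
  have hi' := mem_idx.2 hi
  rw [← Finset.add_sum_erase _ _ hi', ← Finset.add_sum_erase _ (fun j => tm' (τ j)) hi']
  have : ∑ x ∈ (idx m).erase i, tm' (Function.update τ i o x) =
      ∑ x ∈ (idx m).erase i, tm' (τ x) := by
    refine Finset.sum_congr rfl fun j hj => ?_
    rw [Function.update_of_ne (Finset.ne_of_mem_erase hj)]
  rw [this, Function.update_self]
  omega

/-! ### Isolated states -/

theorem edge_val : ∀ (g : Bool) (l l' : Loc), l.edge g l' = true → nv (l.val g) ≠ nv (l'.val g) := by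
  decide

theorem edge_lm : ∀ (g : Bool) (l l' : Loc), l.edge g l' = true → lm l' ≤ lm l := by decide

theorem edge_heap : ∀ (g : Bool) (l : Loc) (w : Fin 8), w < l.val g →
    ∃ l', l.edge g l' = true ∧ l'.val g = w ∧ lm l' < lm l := by decide

theorem val_lt10 : ∀ (g : Bool) (l : Loc), ((l.val g : Fin 8) : ℕ) ≤ 5 := by decide

/-- Moves from isolated states. -/
theorem iso_step {B : Base} {s r : St} (h : Iso s) (hs : Step B s r) :
    Iso r ∧ meas B.m r ≤ meas B.m s ∧ tot B.m r ≠ tot B.m s := by
  cases hs with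
  | @tok i l l' hi hl he =>
    have hc : (if s.c = some (.P i.1 i.2 l') then none else s.c) = s.c := by
      rw [if_neg]
      intro h1
      rcases h with h | ⟨v, h⟩ | ⟨g, x, l0, h, h0⟩
      · rw [h] at h1; exact absurd h1 (by simp)
      · rw [h] at h1; exact absurd h1 (by simp)
      · rw [h] at h1
        simp only [Option.some.injEq, Vx.P.injEq] at h1
        obtain ⟨rfl, rfl, rfl⟩ := h1
        rw [h0] at hl
        exact absurd hl (by simp)
    rw [hc]
    refine ⟨?_, ?_, ?_⟩
    · rcases h with h | ⟨v, h⟩ | ⟨g, x, l0, h, h0⟩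
      · exact Or.inl h
      · exact Or.inr (Or.inl ⟨v, h⟩)
      · refine Or.inr (Or.inr ⟨g, x, l0, h, ?_⟩)
        simp only
        rw [Function.update_of_ne, h0]
        rintro rfl
        rw [h0] at hl
        exact absurd hl (by simp)
    · have h1 := meas_update (τ := s.τ) hi (some l')
      rw [hl] at h1
      have h2 := edge_lm _ _ _ he
      simp only [meas, tm'] at h1 ⊢
      omega
    · intro h1
      simp only [tot] at h1
      have h2 := add_left_cancel h1
      rw [tsum_update hi, hl] at h2
      have h3 : tv i (some l) + tv i (some l') = 0 := by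
        have := h2
        rwa [add_eq_left] at this
      have h4 := add_self_NV (tv i (some l'))
      have h5 : tv i (some l) = tv i (some l') := by
        rw [← h4] at h3
        exact add_right_cancel h3
      exact edge_val _ _ _ he h5
  | @ctl a b ha hb =>
    rcases h with h | ⟨v, h⟩ | ⟨g, x, l0, h, h0⟩
    · rw [h] at ha; exact absurd ha (by simp)
    · rw [h] at ha
      simp only [Option.some.injEq] at ha
      subst ha
      cases hb with
      | MM hw =>
        rename_i w
        refine ⟨Or.inr (Or.inl ⟨w, rfl⟩), ?_, ?_⟩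
        · simp only [meas, cap, h, cm]
          have : (w : ℕ) < v := hw
          omega
        · simp only [tot, cap, h, cv]
          intro h1
          have := nv_inj (add_right_cancel h1)
          exact absurd this (ne_of_lt hw)
    · rw [h] at ha
      simp only [Option.some.injEq] at ha
      subst ha
      cases hb with
      | PM hx hw =>
        rename_i w
        refine ⟨Or.inr (Or.inl ⟨w, rfl⟩), ?_, ?_⟩
        · simp only [meas, cap, h, cm]
          have h2 : (w : ℕ) < (l0.val g : Fin 8) := hw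
          have := val_lt10 g l0
          omega
        · simp only [tot, cap, h, cv]
          intro h1
          have := nv_inj (add_right_cancel h1)
          exact absurd this (ne_of_lt hw)

/-- From an isolated state of non-zero value there is a good move. -/
theorem iso_move {B : Base} {s : St} (h : Iso s) (hP : ∀ g x l, s.c = some (.P g x l) → x < B.m)
    (ht : tot B.m s ≠ 0) :
    ∃ r, Step B s r ∧ Iso r ∧ (∀ g x l, r.c = some (.P g x l) → x < B.m) ∧ tot B.m r = 0 ∧
      meas B.m r < meas B.m s := by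
  rcases nim_red (idx B.m) (fun i => tv i (s.τ i)) (cv s.c) ht with h1 | ⟨i, hi, h1⟩
  · -- move the control token
    change vn (cv s.c + tot B.m s) < vn (cv s.c) at h1
    set w := vn (cv s.c + tot B.m s) with hw
    have hnw : nv w = cv s.c + tot B.m s := by rw [hw, nv_vn]
    have htot : nv w + tsum B.m s.τ = 0 := by
      rw [hnw]
      have := add_self_NV (cv s.c + tsum B.m s.τ)
      unfold tot
      rw [← this]
      abel
    rcases h with h | ⟨v, h⟩ | ⟨g, x, l0, h, h0⟩
    · rw [h] at h1
      exact absurd h1 (by simp [cv, vn])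
    · rw [h] at h1
      simp only [cv, vn_nv] at h1
      refine ⟨⟨some (.M w), s.τ⟩, ?_, Or.inr (Or.inl ⟨w, rfl⟩), by simp, htot, ?_⟩
      · exact Step.ctl (b := .M w) h (CEdge.MM h1)
      · simp only [meas, h, cm]
        have : (w : ℕ) < v := h1
        omega
    · rw [h] at h1
      simp only [cv, vn_nv] at h1
      refine ⟨⟨some (.M w), s.τ⟩, ?_, Or.inr (Or.inl ⟨w, rfl⟩), by simp, htot, ?_⟩
      · exact Step.ctl (b := .M w) h (CEdge.PM (hP _ _ _ h) h1)
      · simp only [meas, h, cm]
        have h2 : (w : ℕ) < (l0.val g : Fin 8) := h1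
        have := val_lt10 g l0
        omega
  · -- move another token
    change vn (tv i (s.τ i) + tot B.m s) < vn (tv i (s.τ i)) at h1
    have hi' := mem_idx.1 hi
    cases hl : s.τ i with
    | none =>
      rw [hl] at h1
      exact absurd h1 (by simp [tv, vn])
    | some l =>
      rw [hl] at h1
      simp only [tv, vn_nv] at h1
      obtain ⟨l', he, hv, hm⟩ := edge_heap _ _ _ h1
      have hst := Step.tok (B := B) (s := s) hi' hl he
      have h2 := iso_step h hst
      refine ⟨_, hst, h2.1, ?_, ?_, ?_⟩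
      · intro g x l1 hh
        simp only at hh
        split_ifs at hh
        exact hP g x l1 hh
      · have hc : (if s.c = some (.P i.1 i.2 l') then none else s.c) = s.c := by
          rw [if_neg]
          intro h1
          rcases h with h | ⟨v, h⟩ | ⟨g, x, l0, h, h0⟩
          · rw [h] at h1; exact absurd h1 (by simp)
          · rw [h] at h1; exact absurd h1 (by simp)
          · rw [h] at h1
            simp only [Option.some.injEq, Vx.P.injEq] at h1
            obtain ⟨rfl, rfl, rfl⟩ := h1
            rw [h0] at hl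
            exact absurd hl (by simp)
        rw [hc]
        unfold tot
        simp only
        rw [tsum_update hi', hl]
        simp only [tv, hv, nv_vn]
        unfold tot
        have := add_self_NV (cv s.c + tsum B.m s.τ)
        have h3 := add_self_NV (nv (l.val i.1))
        calc _ = (cv s.c + tsum B.m s.τ + (cv s.c + tsum B.m s.τ)) +
            (nv (l.val i.1) + nv (l.val i.1)) := by abel
          _ = 0 := by rw [this, h3, add_zero]
      · have h3 := meas_update (τ := s.τ) hi' (some l')
        rw [hl] at h3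
        simp only [meas, tm'] at h3 ⊢
        have : cm (if s.c = some (.P i.1 i.2 l') then none else s.c) ≤ cm s.c := by
          split_ifs
          · simp [cm]
          · exact le_rfl
        omega

/-- The control token is at a legal vertex. -/
def PV (B : Base) (s : St) : Prop := ∀ g x l, s.c = some (.P g x l) → x < B.m

theorem pv_step {B : Base} {s r : St} (h : Iso s) (hP : PV B s) (hs : Step B s r) : PV B r := by
  intro g x l hr
  cases hs with
  | tok hi hl he =>
    simp only at hr
    split_ifs at hr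
    exact hP g x l hr
  | ctl ha hb =>
    simp only [Option.some.injEq] at hr
    subst hr
    rcases h with h | ⟨v, h⟩ | ⟨g, x, l0, h, h0⟩ <;> rw [h] at ha
    · exact absurd ha (by simp)
    · simp only [Option.some.injEq] at ha
      subst ha
      cases hb
    · simp only [Option.some.injEq] at ha
      subst ha
      cases hb

/-- The player to move wins an isolated state of non-zero value. -/
theorem iso_wins {B : Base} {s : St} (h : Iso s) (hP : PV B s) (ht : tot B.m s ≠ 0) :
    SWins B s := by
  induction hn : meas B.m s using Nat.strong_induction_on generalizing s with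
  | _ n ih =>
    obtain ⟨r, hr, hi, hP', h0, hm⟩ := iso_move h hP ht
    refine SWins.intro hr fun r' hr' => ?_
    obtain ⟨h1, h2, h3⟩ := iso_step hi hr'
    refine ih (meas B.m r') (by omega) h1 (pv_step hi hP' hr') ?_ rfl
    rwa [h0] at h3

/-- The player to move loses. -/
def Lost (B : Base) (s : St) : Prop := ∀ r, Step B s r → SWins B r

theorem iso_lost {B : Base} {s : St} (h : Iso s) (hP : PV B s) (ht : tot B.m s = 0) :
    Lost B s := by
  intro r hr
  obtain ⟨h1, h2, h3⟩ := iso_step h hr
  exact iso_wins h1 (pv_step h hP hr) (by rwa [ht] at h3)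

theorem Lost.not_wins {B : Base} {s : St} (h : Lost B s) : ¬ SWins B s := by
  intro h1
  induction h1 with
  | intro h2 h3 ih =>
    rename_i q
    have h4 := h q h2
    cases h4 with
    | intro h5 h6 => exact ih _ h5 h6

theorem iso_good {B : Base} {s : St} (h : Iso s) (hP : PV B s) (ht : tot B.m s ≠ 0) :
    ∃ r, Step B s r ∧ Lost B r := by
  obtain ⟨r, hr, hi, hP', h0, _⟩ := iso_move h hP ht
  exact ⟨r, hr, iso_lost hi hP' h0⟩

/-- Moving the control token to the heap so that the sum becomes zero. -/
theorem exit_good {B : Base} {s : St} {a : Vx} {w : Fin 8} (ha : s.c = some a)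
    (he : CEdge B a (.M w)) (hw : nv w = tsum B.m s.τ) : ∃ r, Step B s r ∧ Lost B r := by
  refine ⟨⟨some (.M w), s.τ⟩, Step.ctl (b := .M w) ha he, ?_⟩
  refine iso_lost (Or.inr (Or.inl ⟨w, rfl⟩)) ?_ ?_
  · intro g x l h
    simp at h
  · simp only [tot, cv, hw]
    exact add_self_NV _

theorem wins_of_good {B : Base} {s : St} (h : ∃ r, Step B s r ∧ Lost B r) : SWins B s := by
  obtain ⟨r, h1, h2⟩ := h
  exact SWins.intro h1 h2

theorem wins_of_exit {B : Base} {s : St} {a : Vx} {w : Fin 8} (ha : s.c = some a)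
    (he : CEdge B a (.M w)) (hw : nv w = tsum B.m s.τ) : SWins B s :=
  wins_of_good (exit_good ha he hw)

end Pool.Agent.W_MP_901ac1_lc
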