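import Mathlib

/-!
# Hit on directed graphs with cycles: definitions
-/

set_option autoImplicit false

open Turing Computability

namespace Pool.Agent.W_MP_901ac1_lc

/-! ### The game Hit -/

/-- An instance of Hit.  The vertices are `0, …, n - 1`, `edges` are the edges of the directed
graph, `types[t]` is the set of edges that tokens of type `t` may use, and `tokens` is the initial
placement: a list of pairs (vertex, type). -/
structure Inst where
  n : ℕ
  edges : List (ℕ × ℕ)
  types : List (List (ℕ × ℕ))
  tokens : List (ℕ × ℕ)

/-- The instance is well formed: edges join two different existing vertices, each type uses only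
edges of the graph, tokens are placed on existing vertices and have existing types, and there is at
most one token per vertex. -/
structure Inst.WF (I : Inst) : Prop where
  edges_lt : ∀ e ∈ I.edges, e.1 < I.n ∧ e.2 < I.n ∧ e.1 ≠ e.2
  types_sub : ∀ es ∈ I.types, ∀ e ∈ es, e ∈ I.edges
  tokens_lt : ∀ p ∈ I.tokens, p.1 < I.n ∧ p.2 < I.types.length
  tokens_nodup : (I.tokens.map Prod.fst).Nodup

/-- A position says which vertices carry a token, and of which type. -/
abbrev Pos := ℕ → Option ℕ

/-- The initial position. -/
def Inst.start (I : Inst) : Pos := fun v => I.tokens.lookup v

/-- A move: a token of type `t` at `u` slides along an edge `(u, v)` allowed for its type; if `v`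
carries a token, that token is deleted. -/
def Inst.Move (I : Inst) (p q : Pos) : Prop :=
  ∃ u v t es, p u = some t ∧ I.types[t]? = some es ∧ (u, v) ∈ es ∧
    q = Function.update (Function.update p u none) v (some t)

/-- The player to move can force a win (the player without a legal move loses, infinite play is a
draw). -/
inductive Inst.Wins (I : Inst) : Pos → Prop
  | intro {p q : Pos} : I.Move p q → (∀ r, I.Move q r → I.Wins r) → I.Wins p

/-- The code of a natural number (unary). -/
def codeNat : ℕ → List Bool
  | 0 => [false]
  | n + 1 => true :: false :: codeNat n

/-- The code of a pair. -/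
def codePair (e : ℕ × ℕ) : List Bool := true :: (codeNat e.1 ++ codeNat e.2)

/-- The code of a list. -/
def codeList {α : Type} (code : α → List Bool) : List α → List Bool
  | [] => [false]
  | a :: l => true :: (code a ++ codeList code l)

/-- The code of an instance as a bit string. -/
def Inst.code (I : Inst) : List Bool :=
  true :: (codeNat I.n ++ (true :: (codeList codePair I.edges ++
    (true :: (codeList (codeList codePair) I.types ++ codeList codePair I.tokens)))))

/-! ### Exponential time -/

/-- The class EXPTIME: languages decided by a (multi-stack) Turing machine in time `2 ^ p n` for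
some polynomial `p`. -/
def InEXP (L : Set (List Bool)) : Prop :=
  ∃ (p : Polynomial ℕ) (V : List Bool → Bool)
    (M : TM2ComputableInTime (fun x : List Bool => x) encodingBoolBool.encode V),
    (∀ n, M.time n ≤ 2 ^ p.eval n) ∧ ∀ x, x ∈ L ↔ V x = true

end Pool.Agent.W_MP_901ac1_lc
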