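import Pool.Agent.W_MP_901ac1_lc.Core

/-!
# The structured game realises the base game
-/

set_option autoImplicit false

namespace Pool.Agent.W_MP_901ac1_lc

open Loc

/-- All tokens are at rest. -/
def Rest (m : ℕ) (τ : Bool × ℕ → Option Loc) : Prop :=
  ∀ i : Bool × ℕ, i.2 < m → τ i = some c0 ∨ τ i = some c2 ∨ τ i = some h1

/-- Buffer `g` is compatible with `X`. -/
def Compat (m : ℕ) (τ : Bool × ℕ → Option Loc) (g : Bool) (X : ℕ → Bool) : Prop :=
  ∀ x < m, τ (g, x) = some h1 ∨ τ (g, x) = some (at' (X x))

/-- Buffer `g` contains `X`. -/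
def Exact (m : ℕ) (τ : Bool × ℕ → Option Loc) (g : Bool) (X : ℕ → Bool) : Prop :=
  ∀ x < m, τ (g, x) = some (at' (X x))

theorem tsum_rest {m : ℕ} {τ : Bool × ℕ → Option Loc} (h : Rest m τ) : tsum m τ = 0 := by
  have h1 : tsum m τ = ∑ _i ∈ idx m, nv 1 := by
    refine Finset.sum_congr rfl fun i hi => ?_
    rcases h i (mem_idx.1 hi) with h | h | h <;> rw [h] <;> rfl
  rw [h1, Finset.sum_const]
  have h2 : (idx m).card = 2 * m := by simp [idx]
  rw [h2, mul_nsmul', ]
  have : ∀ s : NV, 2 • s = 0 := by decide
  rw [this]

theorem tv_rest {m : ℕ} {τ : Bool × ℕ → Option Loc} (h : Rest m τ) {i : Bool × ℕ} (hi : i.2 < m) :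
    tv i (τ i) = nv 1 := by
  rcases h i hi with h | h | h <;> rw [h] <;> rfl

/-- Change of one token of a resting position. -/
theorem tsum_rest_update {m : ℕ} {τ : Bool × ℕ → Option Loc} (h : Rest m τ) {i : Bool × ℕ}
    (hi : i.2 < m) (l : Loc) :
    tsum m (Function.update τ i (some l)) = nv 1 + nv (l.val i.1) := by
  rw [tsum_update hi, tsum_rest h, tv_rest h hi, zero_add]
  rfl

theorem rest_update {m : ℕ} {τ : Bool × ℕ → Option Loc} (h : Rest m τ) {i : Bool × ℕ} {l : Loc}
    (hl : l = c0 ∨ l = c2 ∨ l = h1) : Rest m (Function.update τ i (some l)) := by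
  intro j hj
  by_cases hij : j = i
  · subst hij
    rw [Function.update_self]
    rcases hl with rfl | rfl | rfl <;> simp
  · rw [Function.update_of_ne hij]
    exact h j hj

/-- The transit vertex after a resting vertex. -/
def odd (b : Bool) : Loc := if b then c3 else c1

theorem edge_odd : ∀ g b : Bool, (at' b).edge g (odd b) = true := by decide

theorem at'_rest : ∀ b : Bool, at' b = c0 ∨ at' b = c2 ∨ at' b = h1 := by decide

theorem odd_cases (b : Bool) : odd b = c1 ∨ odd b = c3 := by
  cases b
  · exact Or.inl rfl
  · exact Or.inr rfl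

/-- Every move of a token in transit. -/
theorem odd_move : ∀ (g b : Bool) (l' : Loc), (odd b).edge g l' = true →
    l' = at' (!b) ∨ l' = h1 ∨ ∃ w : Fin 8, w ≠ 0 ∧ w ≠ dl g ∧ nv w = nv 1 + nv (l'.val g) := by
  decide

/-- Every move of a resting token. -/
theorem rest_move : ∀ (g : Bool) (l l' : Loc), (l = c0 ∨ l = c2 ∨ l = h1) → l.edge g l' = true →
    (∃ b, l = at' b ∧ l' = odd b) ∨ l' = h0 := by decide

theorem rest_sum : ∀ (g : Bool) (l' : Loc), ((∃ b, l' = odd b) ∨ l' = h0) →
    ∃ w : Fin 8, w ≠ 0 ∧ nv w = nv 1 + nv (l'.val g) := by decide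

theorem rest_sum' : ∀ (g g' : Bool) (l' : Loc), ((∃ b, l' = odd b) ∨ l' = h0) →
    (g' = g ∧ ∃ b, l' = odd b) ∨
    ∃ w : Fin 8, w ≠ 0 ∧ w ≠ dl g ∧ nv w = nv 1 + nv (l'.val g') := by decide

/-- Two displaced tokens. -/
theorem two_move : ∀ (g g' b : Bool) (l' : Loc), ((∃ b', l' = odd b') ∨ l' = h0) →
    (g' = g ∧ ∃ b', l' = odd b') ∨
    ∃ w : Fin 8, w ≠ 0 ∧ w ≠ dl g ∧ nv w = (nv 1 + nv ((odd b).val g)) + (nv 1 + nv (l'.val g')) := by
  decide

theorem odd_sum : ∀ g b : Bool, nv 1 + nv ((odd b).val g) = nv (dl g) := by decide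

theorem dl_ne : ∀ g : Bool, dl g ≠ 0 := by decide

theorem dl_lt : ∀ (g : Bool) (l : Loc), (l = c1 ∨ l = c3) → dl g < l.val g := by decide

theorem pos_val : ∀ (g : Bool) (l : Loc), (l = c0 ∨ l = c2 ∨ l = h1 ∨ l = c1 ∨ l = c3) →
    (0 : Fin 8) < l.val g := by decide

theorem nv_zero : nv 0 = 0 := by decide

theorem cancel_NV {a b : NV} (h : a + b = 0) : a = b := by
  have h1 := add_self_NV b
  rw [← h1] at h
  exact add_right_cancel h

theorem not_pv_W {B : Base} {g : Bool} {u : ℕ} {τ : Bool × ℕ → Option Loc} :
    PV B ⟨some (.W g u), τ⟩ := by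
  intro g x l h
  simp at h

/-! ### The winning direction -/

/-- Clause positions with a true literal are won. -/
theorem wins_K {B : Base} (hB : B.WF) {g : Bool} {k u : ℕ} {c : List Lit}
    {τ : Bool × ℕ → Option Loc} {X Y : ℕ → Bool} (hr : Rest B.m τ) (hX : Compat B.m τ (!g) X)
    (hY : Compat B.m τ g Y) (hk : B.cl[k]? = some (u, c)) (h : ∃ l ∈ c, Lit.Holds X Y l) :
    SWins B ⟨some (.K g k), τ⟩ := by
  obtain ⟨⟨n, x, b⟩, hl, hh⟩ := h
  have hx : x < B.m := hB _ (List.mem_of_getElem? hk) _ hl
  -- the place of the token
  have hτ : τ (if n then g else !g, x) = some h1 ∨ τ (if n then g else !g, x) = some (at' b) := by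
    cases n
    · simp only [Lit.Holds, Bool.false_eq_true, if_false] at hh ⊢
      rw [← hh]
      exact hX x hx
    · simp only [Lit.Holds, if_true] at hh ⊢
      rw [← hh]
      exact hY x hx
  have key : ∀ l : Loc, τ (if n then g else !g, x) = some l →
      CEdge B (.K g k) (.P (if n then g else !g) x l) → SWins B ⟨some (.K g k), τ⟩ := by
    intro l hl he
    refine wins_of_good ⟨_, Step.ctl rfl he, ?_⟩
    simp only [cap]
    rw [if_pos hl]
    refine iso_lost (Or.inr (Or.inr ⟨_, x, l, rfl, Function.update_self _ _ _⟩)) ?_ ?_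
    · intro g' x' l' h'
      simp only [Option.some.injEq, Vx.P.injEq] at h'
      obtain ⟨_, rfl, _⟩ := h'
      exact hx
    · simp only [tot, cv]
      rw [tsum_update hx, tsum_rest hr, hl, zero_add]
      simp only [tv, add_zero]
      exact add_self_NV _
  rcases hτ with h | h
  · exact key _ h (CEdge.KH (l := (n, x, b)) hk hl)
  · exact key _ h (CEdge.KP (l := (n, x, b)) hk hl)

/-- Decision positions: the player not to move wins them if all clauses with the label are true and
he wins all continuations. -/
theorem lost_D {B : Base} (hB : B.WF) {g : Bool} {u : ℕ} {τ : Bool × ℕ → Option Loc}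
    {X Y : ℕ → Bool} (hr : Rest B.m τ) (hX : Compat B.m τ (!g) X)
    (hY : Compat B.m τ g Y) (hu : u ≤ B.U) (hs : Sat B.cl u X Y)
    (hc : u < B.U → ∀ u' < B.U, SWins B ⟨some (.W (!g) u'), τ⟩) :
    Lost B ⟨some (.D g u), τ⟩ := by
  intro r hr'
  cases hr' with
  | @tok i l l' hi hl he =>
    simp only [Option.some.injEq, reduceCtorEq, if_false]
    simp only at hl
    have h1 : l = c0 ∨ l = c2 ∨ l = h1 := by
      have := hr i hi
      rw [hl] at this
      simpa using this
    have h2 := rest_move _ _ _ h1 he
    obtain ⟨w, hw, hw'⟩ := rest_sum i.1 l' (by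
      rcases h2 with ⟨b, _, h⟩ | h
      · exact Or.inl ⟨b, h⟩
      · exact Or.inr h)
    refine wins_of_exit (a := .D g u) (w := w) rfl (CEdge.DM hu hw) ?_
    rw [tsum_rest_update hr hi, hw']
  | @ctl a b ha hb =>
    simp only [Option.some.injEq] at ha
    subst ha
    cases hb with
    | DM hle hw =>
      rename_i w
      refine iso_wins (Or.inr (Or.inl ⟨w, rfl⟩)) ?_ ?_
      · intro g x l h
        simp at h
      · simp only [tot, cv, cap]
        rw [tsum_rest hr, add_zero]
        exact nv_ne_zero hw
    | DK _ hk =>
      simp only [cap]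
      exact wins_K hB hr hX hY hk (hs _ (List.mem_of_getElem? hk))
    | DW hu1 hu2 =>
      simp only [cap]
      exact hc hu1 _ hu2

open Classical in
/-- The tokens of buffer `g` that are not compatible with `Y`. -/
noncomputable def bad (m : ℕ) (τ : Bool × ℕ → Option Loc) (g : Bool) (Y : ℕ → Bool) : Finset ℕ :=
  (Finset.range m).filter fun x => ¬ (τ (g, x) = some h1 ∨ τ (g, x) = some (at' (Y x)))

theorem bad_update {m : ℕ} {τ : Bool × ℕ → Option Loc} {g : Bool} {Y : ℕ → Bool} {x : ℕ}
    (hx : x ∈ bad m τ g Y) {l : Loc} (hl : l = h1 ∨ l = at' (Y x)) :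
    (bad m (Function.update τ (g, x) (some l)) g Y).card < (bad m τ g Y).card := by
  classical
  apply Finset.card_lt_card
  rw [Finset.ssubset_iff_of_subset]
  · refine ⟨x, hx, ?_⟩
    unfold bad
    rw [Finset.mem_filter, not_and, not_not, Function.update_self]
    intro _
    rcases hl with rfl | rfl <;> simp
  · intro y hy
    unfold bad at hy ⊢
    rw [Finset.mem_filter] at hy ⊢
    refine ⟨hy.1, ?_⟩
    by_cases hyx : y = x
    · subst hyx
      exact absurd hy.2 (by
        rw [Function.update_self, not_not]
        rcases hl with rfl | rfl <;> simp)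
    · rw [Function.update_of_ne (by simp [hyx])] at hy
      exact hy.2

theorem compat_update {m : ℕ} {τ : Bool × ℕ → Option Loc} {g : Bool} {X : ℕ → Bool} {x : ℕ}
    (h : Compat m τ (!g) X) (o : Option Loc) : Compat m (Function.update τ (g, x) o) (!g) X := by
  intro y hy
  rw [Function.update_of_ne (by simp)]
  exact h y hy

/-- In a state with one token of the active buffer in transit, the player not to move wins, if he
wins after completion and after parking. -/
theorem lost_W {B : Base} {g b : Bool} {u x : ℕ} {τ : Bool × ℕ → Option Loc}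
    (hr : Rest B.m τ) (hu : u < B.U) (hx : x < B.m)
    (h1 : ∀ l, l = h1 ∨ l = at' (!b) →
      SWins B ⟨some (.W g u), Function.update τ (g, x) (some l)⟩) :
    Lost B ⟨some (.W g u), Function.update τ (g, x) (some (odd b))⟩ := by
  set τ1 := Function.update τ (g, x) (some (odd b)) with hτ1
  have hsum : tsum B.m τ1 = nv (dl g) := by
    rw [hτ1, tsum_rest_update hr hx, odd_sum]
  intro r hr'
  cases hr' with
  | @tok j l l' hj hl he =>
    simp only [Option.some.injEq, reduceCtorEq, if_false]
    simp only at hl
    by_cases hji : j = (g, x)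
    · subst hji
      rw [hτ1, Function.update_self, Option.some.injEq] at hl
      subst hl
      rw [hτ1, Function.update_idem]
      rcases odd_move _ _ _ he with h | h | ⟨w, hw0, hwd, hw⟩
      · exact h1 _ (Or.inr h)
      · exact h1 _ (Or.inl h)
      · refine wins_of_exit (a := .W g u) (w := w) rfl (CEdge.WM hu hw0 hwd) ?_
        simp only
        rw [tsum_rest_update hr hx, hw]
    · have hl' := hl
      rw [hτ1, Function.update_of_ne hji] at hl
      have h2 : l = c0 ∨ l = c2 ∨ l = Loc.h1 := by
        have := hr j hj
        rw [hl] at this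
        simpa using this
      have h3 := rest_move _ _ _ h2 he
      have h3' : (∃ b', l' = odd b') ∨ l' = h0 := by
        rcases h3 with ⟨b, _, h⟩ | h
        · exact Or.inl ⟨b, h⟩
        · exact Or.inr h
      have hval : nv (l.val j.1) = nv 1 := by
        rcases h2 with rfl | rfl | rfl <;> rfl
      have hs2 : tsum B.m (Function.update τ1 j (some l')) =
          (nv 1 + nv ((odd b).val g)) + (nv 1 + nv (l'.val j.1)) := by
        rw [tsum_update hj, hsum, odd_sum, hl']
        simp only [tv, hval]
      rcases two_move g j.1 b l' h3' with ⟨hg, b', hb'⟩ | ⟨w, hw0, hwd, hw⟩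
      · -- capture the second token
        obtain ⟨g', y⟩ := j
        simp only at hg hj
        subst hg
        have he2 : CEdge B (.W g' u) (.P g' y l') := by
          rcases odd_cases b' with h | h <;> rw [hb', h]
          · exact CEdge.WP1 hu hj
          · exact CEdge.WP3 hu hj
        refine wins_of_good ⟨_, Step.ctl rfl he2, ?_⟩
        simp only [cap, Function.update_self, if_true]
        refine iso_lost (Or.inr (Or.inr ⟨_, y, l', rfl, Function.update_self _ _ _⟩)) ?_ ?_
        · intro g2 x2 l2 h2
          simp only [Option.some.injEq, Vx.P.injEq] at h2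
          obtain ⟨_, rfl, _⟩ := h2
          exact hj
        · simp only [tot, cv]
          rw [tsum_update hj, hs2, Function.update_self]
          simp only [tv, add_zero]
          rw [hb']
          have e1 := odd_sum g' b
          have e2 := odd_sum g' b'
          rw [e1, e2, add_self_NV, zero_add]
          exact add_self_NV _
      · refine wins_of_exit (a := .W g u) (w := w) rfl (CEdge.WM hu hw0 hwd) ?_
        simp only
        rw [hs2, hw]
  | @ctl a b2 ha hb =>
    simp only [Option.some.injEq] at ha
    subst ha
    have hP : ∀ (y : ℕ) (lc : Loc), y < B.m → (lc = c1 ∨ lc = c3) →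
        SWins B ⟨some (.P g y lc), cap (.P g y lc) τ1⟩ := by
      intro y lc hy hlc
      simp only [cap]
      split_ifs with hcap
      · -- a capture: the token must be the displaced one
        have hyx : y = x := by
          by_contra hyx
          rw [hτ1, Function.update_of_ne (by simp [hyx])] at hcap
          have h4 := hr (g, y) hy
          rw [hcap] at h4
          rcases hlc with rfl | rfl <;> simp at h4
        subst hyx
        rw [hτ1, Function.update_self, Option.some.injEq] at hcap
        subst hcap
        refine iso_wins (Or.inr (Or.inr ⟨_, y, _, rfl, Function.update_self _ _ _⟩)) ?_ ?_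
        · intro g2 x2 l2 h2
          simp only [Option.some.injEq, Vx.P.injEq] at h2
          obtain ⟨_, rfl, _⟩ := h2
          exact hy
        · simp only [tot, cv]
          rw [tsum_update hy, hsum, hτ1, Function.update_self]
          simp only [tv, add_zero]
          intro h5
          have h6 : nv (dl g) = (nv ((odd b).val g) + nv ((odd b).val g)) + nv (dl g) := by
            rw [add_self_NV, zero_add]
          have h7 : nv (dl g) = 0 := by
            rw [h6, ← h5]
            abel
          exact nv_ne_zero (dl_ne g) h7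
      · -- no capture
        exact wins_of_exit (a := .P g y lc) (w := dl g) rfl (CEdge.PM hy (dl_lt g lc hlc))
          hsum.symm
    cases hb with
    | WM hlt hw0 hwd =>
      rename_i w
      refine iso_wins (Or.inr (Or.inl ⟨w, rfl⟩)) ?_ ?_
      · intro g x l h
        simp at h
      · simp only [tot, cv, cap]
        rw [hsum]
        intro h5
        exact hwd (nv_inj (cancel_NV h5))
    | WP1 _ hy => exact hP _ _ hy (Or.inl rfl)
    | WP3 _ hy => exact hP _ _ hy (Or.inr rfl)
    | WD _ =>
      refine wins_of_exit (a := .D g u) (w := dl g) rfl (CEdge.DM hu.le (dl_ne g)) hsum.symm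
    | WU _ =>
      refine wins_of_exit (a := .D g B.U) (w := dl g) rfl (CEdge.DM le_rfl (dl_ne g)) hsum.symm

/-- The first player wins if he wins the base game. -/
theorem swins_of_rwin {B : Base} (hB : B.WF) {u : ℕ} {X : ℕ → Bool} (h : RWin B.cl B.U u X) :
    ∀ (g : Bool) (τ : Bool × ℕ → Option Loc), u < B.U → Rest B.m τ → Compat B.m τ (!g) X →
      SWins B ⟨some (.W g u), τ⟩ := by
  -- the rewriting phase
  have phase : ∀ (Y X : ℕ → Bool) (g : Bool) (u : ℕ), u < B.U →
      (∀ τ, Rest B.m τ → Compat B.m τ (!g) X → Compat B.m τ g Y → SWins B ⟨some (.W g u), τ⟩) →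
      ∀ τ, Rest B.m τ → Compat B.m τ (!g) X → SWins B ⟨some (.W g u), τ⟩ := by
    intro Y X g u hu hfin τ hr hX
    induction hn : (bad B.m τ g Y).card using Nat.strong_induction_on generalizing τ with
    | _ n ih =>
      by_cases hb : bad B.m τ g Y = ∅
      · refine hfin τ hr hX fun x hx => ?_
        by_contra hc
        have : x ∈ bad B.m τ g Y := by
          classical
          unfold bad
          rw [Finset.mem_filter]
          exact ⟨Finset.mem_range.2 hx, hc⟩
        rw [hb] at this
        simp at this
      · obtain ⟨x, hxb⟩ := Finset.nonempty_iff_ne_empty.2 hb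
        have hx : x < B.m := by
          classical
          have := hxb
          unfold bad at this
          rw [Finset.mem_filter, Finset.mem_range] at this
          exact this.1
        have hloc : τ (g, x) = some (at' (!Y x)) := by
          classical
          have h1 := hxb
          unfold bad at h1
          rw [Finset.mem_filter, not_or] at h1
          have h2 := hr (g, x) hx
          obtain ⟨_, h3, h4⟩ := h1
          cases hY : Y x <;> rw [hY] at h4 <;> simp [at'] at h4 ⊢ <;> tauto
        have hst : Step B ⟨some (.W g u), τ⟩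
            ⟨some (.W g u), Function.update τ (g, x) (some (odd (!Y x)))⟩ := by
          have := Step.tok (B := B) (s := ⟨some (.W g u), τ⟩) (i := (g, x)) hx hloc
            (edge_odd g (!Y x))
          simpa using this
        refine SWins.intro hst ?_
        refine lost_W hr hu hx fun l hl => ?_
        rw [Bool.not_not] at hl
        refine ih _ ?_ _ (rest_update hr ?_) (compat_update hX _) rfl
        · rw [← hn]
          exact bad_update hxb hl
        · rcases hl with rfl | rfl
          · simp
          · exact at'_rest _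
  -- the main induction
  induction h with
  | @acc u X Y hs =>
    intro g τ hu hr hX
    refine phase Y X g u hu (fun τ hr hX hY => ?_) τ hr hX
    refine SWins.intro (Step.ctl rfl (CEdge.WU hu)) ?_
    simp only [cap]
    exact lost_D hB hr hX hY le_rfl hs fun h => absurd h (lt_irrefl _)
  | @step u X Y hs _ ih =>
    intro g τ hu hr hX
    refine phase Y X g u hu (fun τ hr hX hY => ?_) τ hr hX
    refine SWins.intro (Step.ctl rfl (CEdge.WD hu)) ?_
    simp only [cap]
    refine lost_D hB hr hX hY hu.le hs fun _ u' hu' => ?_
    exact ih u' hu' (!g) τ hu' hr (by rwa [Bool.not_not])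

/-! ### The other direction -/

/-- The invariant of the second player. -/
def Inv (B : Base) (s : St) : Prop :=
  (∃ g u τ X Y, s = ⟨some (.W g u), τ⟩ ∧ u < B.U ∧ Exact B.m τ (!g) X ∧ Exact B.m τ g Y ∧
    ¬ RWin B.cl B.U u X) ∨
  ∃ g k u c τ X Y, s = ⟨some (.K g k), τ⟩ ∧ B.cl[k]? = some (u, c) ∧ Exact B.m τ (!g) X ∧
    Exact B.m τ g Y ∧ ∀ l ∈ c, ¬ Lit.Holds X Y l

theorem exact_rest {m : ℕ} {τ : Bool × ℕ → Option Loc} {g : Bool} {X Y : ℕ → Bool}
    (hX : Exact m τ (!g) X) (hY : Exact m τ g Y) :
    ∀ i : Bool × ℕ, i.2 < m → ∃ b, τ i = some (at' b) := by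
  rintro ⟨g', x⟩ hx
  by_cases hg : g' = g
  · subst hg
    exact ⟨_, hY x hx⟩
  · have : g' = !g := by
      cases g <;> cases g' <;> simp_all
    subst this
    exact ⟨_, hX x hx⟩

theorem rest_of_exact {m : ℕ} {τ : Bool × ℕ → Option Loc} {g : Bool} {X Y : ℕ → Bool}
    (hX : Exact m τ (!g) X) (hY : Exact m τ g Y) : Rest m τ := by
  intro i hi
  obtain ⟨b, hb⟩ := exact_rest hX hY i hi
  rw [hb]
  simpa using at'_rest b

theorem at'_inj : ∀ b b' : Bool, at' b = at' b' → b = b' := by decide

/-- The second player has a good answer. -/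
theorem inv_answer {B : Base} (hB : B.WF) {s q : St} (h : Inv B s) (hq : Step B s q) :
    ∃ r, Step B q r ∧ (Inv B r ∨ ¬ SWins B r) := by
  have fin : (∃ r, Step B q r ∧ Lost B r) → ∃ r, Step B q r ∧ (Inv B r ∨ ¬ SWins B r) := by
    rintro ⟨r, h1, h2⟩
    exact ⟨r, h1, Or.inr h2.not_wins⟩
  rcases h with ⟨g, u, τ, X, Y, rfl, hu, hX, hY, hR⟩ | ⟨g, k, u, c, τ, X, Y, rfl, hk, hX, hY, hl⟩
  · have hr := rest_of_exact hX hY
    cases hq with
    | @tok i l l' hi hl he =>
      simp only [Option.some.injEq, reduceCtorEq, if_false] at fin ⊢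
      simp only at hl
      obtain ⟨b, hb⟩ := exact_rest hX hY i hi
      have h1 : l = at' b := by
        rw [hb, Option.some.injEq] at hl
        exact hl.symm
      subst h1
      have h2 := rest_move _ _ _ (at'_rest b) he
      have h2' : (∃ b', l' = odd b') ∨ l' = h0 := by
        rcases h2 with ⟨b, _, h⟩ | h
        · exact Or.inl ⟨b, h⟩
        · exact Or.inr h
      rcases rest_sum' g i.1 l' h2' with ⟨hg, b', hb'⟩ | ⟨w, hw0, hwd, hw⟩
      · -- complete the move
        obtain ⟨g', x⟩ := i
        simp only at hg hi
        subst hg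
        have hbb : b' = b := by
          rcases h2 with ⟨b2, h3, h4⟩ | h3
          · have e1 := at'_inj _ _ h3
            subst e1
            rw [hb'] at h4
            revert h4
            cases b <;> cases b' <;> decide
          · rw [hb'] at h3
            exact absurd h3 (by cases b' <;> decide)
        subst hbb
        subst hb'
        have he2 : (odd b').edge g' (at' (!b')) = true := by
          cases g' <;> cases b' <;> decide
        have hst := Step.tok (B := B) (s := ⟨some (.W g' u), Function.update τ (g', x) (some (odd b'))⟩)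
          (i := (g', x)) hi (by simp) he2
        simp only [Option.some.injEq, reduceCtorEq, if_false, Function.update_idem] at hst
        refine ⟨_, hst, Or.inl (Or.inl ⟨g', u, _, X, Function.update Y x (!b'), rfl, hu, ?_, ?_,
          hR⟩)⟩
        · intro y hy
          rw [Function.update_of_ne (by simp)]
          exact hX y hy
        · intro y hy
          by_cases hyx : y = x
          · subst hyx
            rw [Function.update_self, Function.update_self]
          · rw [Function.update_of_ne (by simp [hyx]), Function.update_of_ne hyx]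
            exact hY y hy
      · refine fin (exit_good (a := .W g u) (w := w) rfl (CEdge.WM hu hw0 hwd) ?_)
        simp only
        rw [tsum_rest_update hr hi, hw]
    | @ctl a b ha hb =>
      simp only [Option.some.injEq] at ha
      subst ha
      have hP : ∀ (y : ℕ) (lc : Loc), y < B.m → (lc = c1 ∨ lc = c3) →
          ∃ r, Step B ⟨some (.P g y lc), cap (.P g y lc) τ⟩ r ∧ Lost B r := by
        intro y lc hy hlc
        have hcap : cap (.P g y lc) τ = τ := by
          simp only [cap]
          rw [if_neg]
          intro h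
          have h4 := hr (g, y) hy
          rw [h] at h4
          rcases hlc with rfl | rfl <;> simp at h4
        rw [hcap]
        refine exit_good (a := .P g y lc) (w := 0) rfl (CEdge.PM hy (pos_val g lc (by tauto))) ?_
        simp only
        rw [tsum_rest hr, nv_zero]
      cases hb with
      | WM hlt hw0 hwd =>
        rename_i w
        refine fin (iso_good (Or.inr (Or.inl ⟨w, rfl⟩)) ?_ ?_)
        · intro g x l h
          simp at h
        · simp only [tot, cv, cap]
          rw [tsum_rest hr, add_zero]
          exact nv_ne_zero hw0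
      | WP1 _ hy => exact fin (hP _ _ hy (Or.inl rfl))
      | WP3 _ hy => exact fin (hP _ _ hy (Or.inr rfl))
      | WD _ =>
        simp only [cap]
        by_cases hs : Sat B.cl u X Y
        · -- some continuation is lost for the first player
          have : ∃ u' < B.U, ¬ RWin B.cl B.U u' Y := by
            by_contra hc
            push Not at hc
            exact hR (RWin.step hs hc)
          obtain ⟨u', hu', hR'⟩ := this
          refine ⟨_, Step.ctl rfl (CEdge.DW hu hu'), Or.inl (Or.inl
            ⟨!g, u', _, Y, X, rfl, hu', ?_, ?_, hR'⟩)⟩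
          · rw [Bool.not_not]
            exact hY
          · exact hX
        · unfold Sat at hs
          push Not at hs
          obtain ⟨c, hc, hcl⟩ := hs
          obtain ⟨k, hk⟩ := List.mem_iff_getElem?.1 hc
          exact ⟨_, Step.ctl rfl (CEdge.DK hu.le hk), Or.inl (Or.inr
            ⟨g, k, u, c, _, X, Y, rfl, hk, hX, hY, hcl⟩)⟩
      | WU _ =>
        simp only [cap]
        have hs : ¬ Sat B.cl B.U X Y := fun h => hR (RWin.acc h)
        unfold Sat at hs
        push Not at hs
        obtain ⟨c, hc, hcl⟩ := hs
        obtain ⟨k, hk⟩ := List.mem_iff_getElem?.1 hc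
        exact ⟨_, Step.ctl rfl (CEdge.DK le_rfl hk), Or.inl (Or.inr
          ⟨g, k, _, c, _, X, Y, rfl, hk, hX, hY, hcl⟩)⟩
  · have hr := rest_of_exact hX hY
    have hk' : k < B.cl.length := (List.getElem?_eq_some_iff.1 hk).1
    apply fin
    cases hq with
    | @tok i l l' hi hl' he =>
      simp only [Option.some.injEq, reduceCtorEq, if_false]
      simp only at hl'
      obtain ⟨b, hb⟩ := exact_rest hX hY i hi
      have h1 : l = at' b := by
        rw [hb, Option.some.injEq] at hl'
        exact hl'.symm
      subst h1
      have h2 := rest_move _ _ _ (at'_rest b) he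
      obtain ⟨w, hw, hw'⟩ := rest_sum i.1 l' (by
        rcases h2 with ⟨b, _, h⟩ | h
        · exact Or.inl ⟨b, h⟩
        · exact Or.inr h)
      refine exit_good (a := .K g k) (w := w) rfl (CEdge.KM hk' hw) ?_
      simp only
      rw [tsum_rest_update hr hi, hw']
    | @ctl a b ha hb =>
      simp only [Option.some.injEq] at ha
      subst ha
      have hP : ∀ (g' : Bool) (y : ℕ) (lc : Loc), y < B.m → (lc = c0 ∨ lc = c2 ∨ lc = h1) →
          τ (g', y) ≠ some lc →
          ∃ r, Step B ⟨some (.P g' y lc), cap (.P g' y lc) τ⟩ r ∧ Lost B r := by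
        intro g' y lc hy hlc hne
        have hcap : cap (.P g' y lc) τ = τ := by
          simp only [cap]
          rw [if_neg hne]
        rw [hcap]
        refine exit_good (a := .P g' y lc) (w := 0) rfl (CEdge.PM hy (pos_val g' lc (by tauto))) ?_
        simp only
        rw [tsum_rest hr, nv_zero]
      cases hb with
      | KM hlt hw =>
        rename_i w
        refine iso_good (Or.inr (Or.inl ⟨w, rfl⟩)) ?_ ?_
        · intro g x l h
          simp at h
        · simp only [tot, cv, cap]
          rw [tsum_rest hr, add_zero]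
          exact nv_ne_zero hw
      | KP hk2 hl2 =>
        rename_i l2
        rw [hk] at hk2
        simp only [Option.some.injEq, Prod.mk.injEq] at hk2
        obtain ⟨rfl, rfl⟩ := hk2
        have hx : l2.2.1 < B.m := hB _ (List.mem_of_getElem? hk) _ hl2
        refine hP _ _ _ hx (at'_rest _) fun h => hl l2 hl2 ?_
        obtain ⟨n, x, b⟩ := l2
        simp only at h hx
        cases n
        · simp only [Bool.false_eq_true, if_false] at h
          rw [hX x hx, Option.some.injEq] at h
          exact at'_inj _ _ h
        · simp only [if_true] at h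
          rw [hY x hx, Option.some.injEq] at h
          exact at'_inj _ _ h
      | KH hk2 hl2 =>
        rename_i l2
        rw [hk] at hk2
        simp only [Option.some.injEq, Prod.mk.injEq] at hk2
        obtain ⟨rfl, rfl⟩ := hk2
        have hx : l2.2.1 < B.m := hB _ (List.mem_of_getElem? hk) _ hl2
        refine hP _ _ _ hx (by simp) fun h => ?_
        obtain ⟨b, hb⟩ := exact_rest hX hY (if l2.1 then g else !g, l2.2.1) hx
        rw [hb] at h
        revert h
        cases b <;> decide

theorem not_swins {B : Base} (hB : B.WF) {s : St} (h : Inv B s) : ¬ SWins B s := by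
  intro hw
  induction hw with
  | intro h1 h2 ih =>
    obtain ⟨r, hr, h3 | h3⟩ := inv_answer hB h h1
    · exact ih r hr h3
    · exact h3 (h2 r hr)

/-- **The structured game realises the base game.** -/
theorem swins_iff {B : Base} (hB : B.WF) {u₀ : ℕ} (hu : u₀ < B.U) (tr : List ℕ) :
    SWins B (B.start u₀ tr) ↔ RWin B.cl B.U u₀ (fun x => decide (x ∈ tr)) := by
  have hX : Exact B.m (B.start u₀ tr).τ (!true) (fun x => decide (x ∈ tr)) := by
    intro x hx
    simp only [Base.start, hx, if_true, Bool.not_true, true_and, at', decide_eq_true_eq]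
  have hY : Exact B.m (B.start u₀ tr).τ true (fun _ => false) := by
    intro x hx
    simp [Base.start, hx, at']
  constructor
  · intro h
    by_contra hR
    exact not_swins hB (Or.inl ⟨true, u₀, _, _, _, rfl, hu, hX, hY, hR⟩) h
  · intro h
    exact swins_of_rwin hB h true _ hu (rest_of_exact hX hY) fun x hx => Or.inr (hX x hx)

end Pool.Agent.W_MP_901ac1_lc
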