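import Pool.Agent.W_MP_901ac1_lc.TMDefs

/-!
# The clauses are computable in polynomial time
-/

set_option autoImplicit false

open Turing Computability StateTransition

namespace Pool.Agent.W_MP_901ac1_lc

open Pool.Agent.PolyTime Pool.Agent.PolyTime.CL

variable (tm : FinTM2) {α : Type*} [TEnc α]

/-! ### Bits -/

/-- One step of the computation of the half and the parity of a number. -/
def halfStep (p : ℕ × Bool) : ℕ × Bool := bif p.2 then (p.1 + 1, false) else (p.1, true)

theorem halfStep_iter (n : ℕ) : halfStep^[n] (0, false) = (n / 2, decide (n % 2 = 1)) := by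
  induction n with
  | zero => rfl
  | succ n ih =>
    rw [Function.iterate_succ_apply', ih, halfStep]
    rcases Nat.mod_two_eq_zero_or_one n with h | h
    · have h1 : (n + 1) / 2 = n / 2 := by omega
      have h2 : (n + 1) % 2 = 1 := by omega
      simp [h, h1, h2]
    · have h1 : (n + 1) / 2 = n / 2 + 1 := by omega
      have h2 : (n + 1) % 2 = 0 := by omega
      simp [h, h1, h2]

theorem pf_halfStep {f : α → ℕ} (hf : PF f) :
    PF (fun a => (f a / 2, decide (f a % 2 = 1))) := by
  refine (PF.iterate (f := fun (_ : α) p => halfStep p) (n := f) (i := fun _ => (0, false)) ?_ hf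
    (PF.const _) (fun x => sz (f x) + 3 + 1) ((hf.size_le.add (PB.const 3)).add (PB.const 1))
      ?_).congr (fun x => halfStep_iter _)
  · unfold halfStep
    exact PF.cond PF.snd.snd' (PF.pair PF.snd.fst'.succ (PF.const false))
      (PF.pair PF.snd.fst' (PF.const true))
  · intro x j hj
    rw [halfStep_iter, sz_pair]
    have := sz_bool_le (decide (j % 2 = 1))
    simp only [sz_nat]
    omega

theorem pf_half {f : α → ℕ} (hf : PF f) : PF (fun a => f a / 2) := (pf_halfStep hf).fst'

theorem pf_odd {f : α → ℕ} (hf : PF f) : PF (fun a => decide (f a % 2 = 1)) :=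
  (pf_halfStep hf).snd'

theorem half_iter (n k : ℕ) : (fun m : ℕ => m / 2)^[k] n = n / 2 ^ k := by
  induction k with
  | zero => simp
  | succ k ih => rw [Function.iterate_succ_apply', ih, Nat.div_div_eq_div_mul, pow_succ]

theorem pf_testBit {f g : α → ℕ} (hf : PF f) (hg : PF g) : PF (fun a => (f a).testBit (g a)) := by
  have h : PF (fun a => (fun m : ℕ => m / 2)^[g a] (f a)) := by
    refine PF.iterate (f := fun (_ : α) m => m / 2) (n := g) (i := f) (pf_half PF.snd) hg hf
      (fun x => sz (f x)) hf.size_le ?_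
    intro x j hj
    rw [half_iter]
    have := Nat.div_le_self (f x) (2 ^ j)
    simp only [sz_nat]
    omega
  refine (pf_odd h).congr (fun x => ?_)
  rw [half_iter, Nat.testBit_eq_decide_div_mod_eq]

/-! ### Auxiliary clauses -/

theorem pf_vT {f : α → ℕ} (hf : PF f) : PF (fun a => vT (f a)) := (PF.const 5).mul hf

theorem pf_vI {f : α → ℕ} (hf : PF f) : PF (fun a => vI (f a)) := ((PF.const 5).mul hf).succ

theorem pf_vE {f : α → ℕ} (hf : PF f) : PF (fun a => vE (f a)) :=
  ((PF.const 5).mul hf).add (PF.const 4)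

theorem pf_lit (s : Bool) {f : α → ℕ} (hf : PF f) (b : Bool) :
    PF (fun a => ((s, f a, b) : Lit)) := (PF.const s).pair (hf.pair (PF.const b))

theorem pf_lit' (s : Bool) {f : α → ℕ} (hf : PF f) {b : α → Bool} (hb : PF b) :
    PF (fun a => ((s, f a, b a) : Lit)) := (PF.const s).pair (hf.pair hb)

theorem pf_one {β : Type*} [TEnc β] {f : α → β} (hf : PF f) : PF (fun a => [f a]) :=
  hf.cons (PF.const [])

theorem pf_two {β : Type*} [TEnc β] {f g : α → β} (hf : PF f) (hg : PF g) :
    PF (fun a => [f a, g a]) := hf.cons (pf_one hg)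

theorem pf_three {β : Type*} [TEnc β] {f g h : α → β} (hf : PF f) (hg : PF g) (hh : PF h) :
    PF (fun a => [f a, g a, h a]) := hf.cons (pf_two hg hh)

theorem pf_decCl {G : α → List Lit} (hG : PF G) (sa : Bool) {fa : ℕ → ℕ} (hfa : PF fa)
    (sb : Bool) {fb : ℕ → ℕ} (hfb : PF fb) {m : α → ℕ} (hm : PF m) :
    PF (fun a => decCl (G a) sa fa sb fb (m a)) := by
  unfold decCl
  have hl : PF (fun p : α × ℕ => (List.range p.2).map fun l => ((sa, fa l, true) : Lit)) :=
    PF.map (f := fun (_ : α × ℕ) (l : ℕ) => ((sa, fa l, true) : Lit))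
      (pf_lit sa (hfa.comp PF.snd) true) PF.snd.range
  have hG1 : PF (fun p : α × ℕ => G p.1) := hG.comp PF.fst
  have hG2 : PF (fun p : (α × ℕ) × ℕ => G p.1.1) := hG.comp PF.fst.fst'
  have ha1 : PF (fun p : α × ℕ => fa p.2) := hfa.comp PF.snd
  have hb1 : PF (fun p : α × ℕ => fb p.2) := hfb.comp PF.snd
  refine PF.flatMap (f := fun a j => ((List.range j).flatMap fun l =>
      [G a ++ [(sa, fa l, false), (sa, fa j, false), (sb, fb j, true)],
       G a ++ [(sa, fa l, false), (sa, fa j, true), (sb, fb j, false)]]) ++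
    [G a ++ ((List.range j).map fun l => (sa, fa l, true)) ++ [(sa, fa j, true), (sb, fb j, true)],
     G a ++ ((List.range j).map fun l => (sa, fa l, true)) ++
      [(sa, fa j, false), (sb, fb j, false)]]) ?_ hm.range
  refine PF.append ?_ ?_
  · refine PF.flatMap (f := fun (p : α × ℕ) l =>
      [G p.1 ++ [(sa, fa l, false), (sa, fa p.2, false), (sb, fb p.2, true)],
       G p.1 ++ [(sa, fa l, false), (sa, fa p.2, true), (sb, fb p.2, false)]]) ?_ PF.snd.range
    exact pf_two (hG2.append (pf_three (pf_lit _ (hfa.comp PF.snd) _)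
        (pf_lit _ (hfa.comp PF.fst.snd') _) (pf_lit _ (hfb.comp PF.fst.snd') _)))
      (hG2.append (pf_three (pf_lit _ (hfa.comp PF.snd) _)
        (pf_lit _ (hfa.comp PF.fst.snd') _) (pf_lit _ (hfb.comp PF.fst.snd') _)))
  · exact pf_two ((hG1.append hl).append (pf_two (pf_lit _ ha1 _) (pf_lit _ hb1 _)))
      ((hG1.append hl).append (pf_two (pf_lit _ ha1 _) (pf_lit _ hb1 _)))

theorem pf_eqCl {G : α → List Lit} (hG : PF G) (sa : Bool) {fa : ℕ → ℕ} (hfa : PF fa)
    (sb : Bool) {fb : ℕ → ℕ} (hfb : PF fb) {m : α → ℕ} (hm : PF m) :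
    PF (fun a => eqCl (G a) sa fa sb fb (m a)) := by
  unfold eqCl
  have hG1 : PF (fun p : α × ℕ => G p.1) := hG.comp PF.fst
  have ha1 : PF (fun p : α × ℕ => fa p.2) := hfa.comp PF.snd
  have hb1 : PF (fun p : α × ℕ => fb p.2) := hfb.comp PF.snd
  refine PF.flatMap (f := fun a j => [G a ++ [(sa, fa j, false), (sb, fb j, true)],
    G a ++ [(sa, fa j, true), (sb, fb j, false)]]) ?_ hm.range
  exact pf_two (hG1.append (pf_two (pf_lit _ ha1 _) (pf_lit _ hb1 _)))
    (hG1.append (pf_two (pf_lit _ ha1 _) (pf_lit _ hb1 _)))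

theorem pf_neCl {G : α → List Lit} (hG : PF G) (sa : Bool) {fa : ℕ → ℕ} (hfa : PF fa)
    {m : α → ℕ} (hm : PF m) : PF (fun a => neCl (G a) sa fa (m a)) := by
  unfold neCl
  refine pf_one (hG.append ?_)
  exact PF.map (f := fun (_ : α) (j : ℕ) => ((sa, fa j, true) : Lit))
    (pf_lit sa (hfa.comp PF.snd) true) hm.range

theorem pf_zeroCl (sa : Bool) {fa : ℕ → ℕ} (hfa : PF fa) {m : α → ℕ} (hm : PF m) :
    PF (fun a => zeroCl sa fa (m a)) := by
  unfold zeroCl
  exact PF.map (f := fun (_ : α) (j : ℕ) => [((sa, fa j, false) : Lit)])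
    (pf_one (pf_lit sa (hfa.comp PF.snd) false)) hm.range

theorem pf_comCl {m : α → ℕ} (hm : PF m) : PF (fun a => comCl tm (m a)) := by
  unfold comCl
  exact ((pf_neCl (PF.const []) false (pf_vT PF.id) hm).append
    (pf_decCl (PF.const []) false (pf_vT PF.id) true (pf_vT PF.id) hm)).append (PF.const _)

theorem pf_lab0 {m : α → ℕ} (hm : PF m) : PF (fun a => lab0 tm (m a)) := by
  unfold lab0
  exact ((pf_comCl tm hm).append (pf_zeroCl true (pf_vI PF.id) hm)).append (PF.const _)

theorem pf_cellCl {m : α → ℕ} (hm : PF m) (c' : Ctl tm) (p : Pr tm) :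
    PF (fun a => cellCl tm (m a) c' p) := by
  have hE : ∀ G : List Lit, PF (fun a => eqCl G false vI true vI (m a) ++
      [G ++ [(true, vP tm p, true)]]) := fun G =>
    (pf_eqCl (PF.const G) false (pf_vI PF.id) true (pf_vI PF.id) hm).append (PF.const _)
  unfold cellCl
  rcases c' with ⟨s, v⟩
  rcases s with _ | (⟨k0, g, q⟩ | ⟨k0, g, q⟩ | ⟨k0, g, q⟩ | ⟨g, q⟩ | ⟨p, q₁, q₂⟩ | l | _)
  · exact hE _
  · simp only
    split_ifs
    · refine PF.append (PF.const _) ?_
      refine PF.flatMap (f := fun a b =>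
          decCl ((false, vI b, false) :: [(true, vC tm (some (TM2.Stmt.push k0 g q), v), false),
            (false, vP tm p, false)]) false vI true vI (m a) ++
            [(false, vI b, false) :: ([(true, vC tm (some (TM2.Stmt.push k0 g q), v), false),
            (false, vP tm p, false)] ++ [(true, vP tm p, true)])]) ?_ hm.range
      refine PF.append ?_ ?_
      · exact pf_decCl ((pf_lit _ (pf_vI PF.snd) _).cons (PF.const _)) false (pf_vI PF.id) true
          (pf_vI PF.id) (hm.comp PF.fst)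
      · exact pf_one ((pf_lit _ (pf_vI PF.snd) _).cons (PF.const _))
    · refine PF.append ?_ ?_
      · exact pf_neCl (PF.const _) false (pf_vI PF.id) hm
      refine PF.flatMap (f := fun a b =>
          decCl ((false, vI b, false) :: [(true, vC tm (some (TM2.Stmt.push k0 g q), v), false),
            (false, vP tm p, false)]) false vI true vI (m a) ++
            [(false, vI b, false) :: ([(true, vC tm (some (TM2.Stmt.push k0 g q), v), false),
            (false, vP tm p, false)] ++ [(true, vP tm p, true)])]) ?_ hm.range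
      refine PF.append ?_ ?_
      · exact pf_decCl ((pf_lit _ (pf_vI PF.snd) _).cons (PF.const _)) false (pf_vI PF.id) true
          (pf_vI PF.id) (hm.comp PF.fst)
      · exact pf_one ((pf_lit _ (pf_vI PF.snd) _).cons (PF.const _))
    · exact hE _
  · exact hE _
  · simp only
    split_ifs
    · refine ((pf_neCl (PF.const _) true (pf_vI PF.id) hm).append
        (pf_decCl (PF.const _) true (pf_vI PF.id) false (pf_vI PF.id) hm)).append (PF.const _)
    · exact hE _
  · exact hE _
  · exact hE _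
  · exact hE _
  · exact hE _

theorem pf_lab1 {m : α → ℕ} (hm : PF m) : PF (fun a => lab1 tm (m a)) := by
  unfold lab1
  exact (pf_comCl tm hm).append (PF.constFlatMap _ fun c' => PF.constFlatMap _ fun p =>
    pf_cellCl tm hm c' p)

theorem pf_inCl (sym : Bool → tm.Γ tm.k₀) {m i : α → ℕ} (hm : PF m) (hi : PF i)
    (o : Option Bool) : PF (fun a => inCl tm sym (m a) (i a) o) := by
  classical
  unfold inCl
  refine PF.append (PF.constFlatMap _ fun g => ?_) ?_
  · by_cases hg : g = o.map sym
    · simp only [hg, if_true]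
      exact PF.const []
    · simp only [hg, if_false]
      refine pf_one (PF.cons (PF.const _) ?_)
      exact PF.map (f := fun (a : α) (j : ℕ) => ((false, vI j, !((i a).testBit j)) : Lit))
        (pf_lit' _ (pf_vI PF.snd) (pf_testBit (hi.comp PF.fst) PF.snd).not) hm.range
  · exact PF.map (f := fun (a : α) (j : ℕ) =>
      [((true, vE (i a), false) : Lit), (false, vI j, (i a).testBit j)])
      (pf_two (pf_lit _ (pf_vE (hi.comp PF.fst)) _)
        (pf_lit' _ (pf_vI PF.snd) (pf_testBit (hi.comp PF.fst) PF.snd))) hm.range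

theorem pf_lab2 (sym : Bool → tm.Γ tm.k₀) {m : α → ℕ} {x : α → List Bool} (hm : PF m)
    (hx : PF x) : PF (fun a => lab2 tm sym (m a) (x a)) := by
  classical
  unfold lab2
  refine PF.append (PF.append (PF.append (PF.append ?_ (PF.const _)) (PF.const _)) ?_) ?_
  · exact pf_zeroCl false (pf_vT PF.id) hm
  · refine PF.flatMap (f := fun a i => inCl tm sym (m a) i (x a)[i]?) ?_ hx.length.range
    refine PF.optionCases (o := fun p : α × ℕ => (x p.1)[p.2]?)
      (f := fun p : α × ℕ => inCl tm sym (m p.1) p.2 none)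
      (g := fun (p : α × ℕ) b => inCl tm sym (m p.1) p.2 (some b))
      ((hx.comp PF.fst).getElem? PF.snd) ?_ ?_ ?_ ?_
    · exact pf_inCl tm sym (hm.comp PF.fst) PF.snd none
    · exact PF.finite_cases (s := fun q : (α × ℕ) × Bool => q.2)
        (f := fun b q => inCl tm sym (m q.1.1) q.1.2 (some b)) PF.snd
        fun b => pf_inCl tm sym (hm.comp PF.fst.fst') PF.fst.snd' (some b)
    · intro p h
      rw [h]
    · intro p b h
      rw [h]
  · refine PF.constFlatMap _ fun g => ?_
    by_cases hg : g = none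
    · simp only [hg, if_true]
      exact PF.const []
    · simp only [hg, if_false]
      refine pf_one (PF.cons (PF.const _) ?_)
      exact PF.map (f := fun (_ : α) (i : ℕ) => ((true, vE i, true) : Lit))
        (pf_lit _ (pf_vE PF.snd) _) hx.length.range

theorem pf_tmClauses (sym : Bool → tm.Γ tm.k₀) {m : α → ℕ} {x : α → List Bool} (hm : PF m)
    (hx : PF x) : PF (fun a => tmClauses tm sym (m a) (x a)) := by
  unfold tmClauses
  have h : ∀ (u : ℕ) {f : α → List (List Lit)}, PF f →
      PF (fun a => (f a).map (fun c => ((u, c) : LCl))) := by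
    intro u f hf
    exact PF.map (f := fun (_ : α) (c : List Lit) => ((u, c) : LCl))
      ((PF.const u).pair PF.snd) hf
  exact ((h 0 (pf_lab0 tm hm)).append (h 1 (pf_lab1 tm hm))).append (h 2 (pf_lab2 tm sym hm hx))

theorem pf_tmTrue (g : tm.Γ tm.k₁) {m : α → ℕ} (hm : PF m) : PF (fun a => tmTrue tm g (m a)) := by
  unfold tmTrue
  refine PF.cons (PF.const _) ?_
  exact PF.map (f := fun (_ : α) (j : ℕ) => vT j) (pf_vT PF.snd) hm.range

theorem pf_nvars {m : α → ℕ} (hm : PF m) : PF (fun a => nvars tm (m a)) := by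
  unfold nvars
  exact (PF.const 5).mul ((hm.add (PF.const _)).add (PF.const _))

/-! ### The variables -/

/-- All variables of the clauses are bounded. -/
def Bd (N : ℕ) (L : List (List Lit)) : Prop := ∀ c ∈ L, ∀ l ∈ c, l.2.1 < N

theorem Bd.nil {N : ℕ} : Bd N [] := by
  intro c hc
  simp at hc

theorem Bd.append {N : ℕ} {L L' : List (List Lit)} (h : Bd N L) (h' : Bd N L') :
    Bd N (L ++ L') := by
  intro c hc
  rcases List.mem_append.1 hc with hc | hc
  · exact h c hc
  · exact h' c hc

theorem Bd.cons {N : ℕ} {c : List Lit} {L : List (List Lit)} (h : ∀ l ∈ c, l.2.1 < N)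
    (h' : Bd N L) : Bd N (c :: L) := by
  intro d hd
  rcases List.mem_cons.1 hd with rfl | hd
  · exact h
  · exact h' d hd

theorem Bd.flatMap {N : ℕ} {ι : Type*} {L : List ι} {F : ι → List (List Lit)}
    (h : ∀ i ∈ L, Bd N (F i)) : Bd N (L.flatMap F) := by
  intro c hc
  rw [List.mem_flatMap] at hc
  obtain ⟨i, hi, hc⟩ := hc
  exact h i hi c hc

theorem Bd.map {N : ℕ} {ι : Type*} {L : List ι} {F : ι → List Lit}
    (h : ∀ i ∈ L, ∀ l ∈ F i, l.2.1 < N) : Bd N (L.map F) := by
  intro c hc
  rw [List.mem_map] at hc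
  obtain ⟨i, hi, rfl⟩ := hc
  exact h i hi

theorem Bd.ite {N : ℕ} {p : Prop} {_ : Decidable p} {L L' : List (List Lit)} (h : Bd N L)
    (h' : Bd N L') : Bd N (if p then L else L') := by
  split_ifs
  · exact h
  · exact h'

theorem bd_decCl {N : ℕ} {G : List Lit} (hG : ∀ l ∈ G, l.2.1 < N) {sa sb : Bool} {fa fb : ℕ → ℕ}
    {m : ℕ} (hfa : ∀ j < m, fa j < N) (hfb : ∀ j < m, fb j < N) :
    Bd N (decCl G sa fa sb fb m) := by
  refine Bd.flatMap fun j hj => ?_
  rw [List.mem_range] at hj
  refine Bd.append (Bd.flatMap fun i hi => ?_) ?_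
  · rw [List.mem_range] at hi
    refine Bd.cons ?_ (Bd.cons ?_ Bd.nil)
    · intro l hl
      simp only [List.mem_append, List.mem_cons, List.not_mem_nil, or_false] at hl
      rcases hl with hl | rfl | rfl | rfl
      · exact hG l hl
      · exact hfa i (by omega)
      · exact hfa j hj
      · exact hfb j hj
    · intro l hl
      simp only [List.mem_append, List.mem_cons, List.not_mem_nil, or_false] at hl
      rcases hl with hl | rfl | rfl | rfl
      · exact hG l hl
      · exact hfa i (by omega)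
      · exact hfa j hj
      · exact hfb j hj
  · refine Bd.cons ?_ (Bd.cons ?_ Bd.nil)
    · intro l hl
      simp only [List.mem_append, List.mem_map, List.mem_range, List.mem_cons, List.not_mem_nil,
        or_false] at hl
      rcases hl with (hl | ⟨i, hi, rfl⟩) | rfl | rfl
      · exact hG l hl
      · exact hfa i (by omega)
      · exact hfa j hj
      · exact hfb j hj
    · intro l hl
      simp only [List.mem_append, List.mem_map, List.mem_range, List.mem_cons, List.not_mem_nil,
        or_false] at hl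
      rcases hl with (hl | ⟨i, hi, rfl⟩) | rfl | rfl
      · exact hG l hl
      · exact hfa i (by omega)
      · exact hfa j hj
      · exact hfb j hj

theorem bd_eqCl {N : ℕ} {G : List Lit} (hG : ∀ l ∈ G, l.2.1 < N) {sa sb : Bool} {fa fb : ℕ → ℕ}
    {m : ℕ} (hfa : ∀ j < m, fa j < N) (hfb : ∀ j < m, fb j < N) :
    Bd N (eqCl G sa fa sb fb m) := by
  refine Bd.flatMap fun j hj => ?_
  rw [List.mem_range] at hj
  refine Bd.cons ?_ (Bd.cons ?_ Bd.nil)
  · intro l hl
    simp only [List.mem_append, List.mem_cons, List.not_mem_nil, or_false] at hl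
    rcases hl with hl | rfl | rfl
    · exact hG l hl
    · exact hfa j hj
    · exact hfb j hj
  · intro l hl
    simp only [List.mem_append, List.mem_cons, List.not_mem_nil, or_false] at hl
    rcases hl with hl | rfl | rfl
    · exact hG l hl
    · exact hfa j hj
    · exact hfb j hj

theorem bd_neCl {N : ℕ} {G : List Lit} (hG : ∀ l ∈ G, l.2.1 < N) {sa : Bool} {fa : ℕ → ℕ}
    {m : ℕ} (hfa : ∀ j < m, fa j < N) : Bd N (neCl G sa fa m) := by
  refine Bd.cons ?_ Bd.nil
  intro l hl
  simp only [List.mem_append, List.mem_map, List.mem_range] at hl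
  rcases hl with hl | ⟨i, hi, rfl⟩
  · exact hG l hl
  · exact hfa i hi

theorem bd_zeroCl {N : ℕ} {sa : Bool} {fa : ℕ → ℕ}
    {m : ℕ} (hfa : ∀ j < m, fa j < N) : Bd N (zeroCl sa fa m) := by
  refine Bd.map fun i hi l hl => ?_
  rw [List.mem_range] at hi
  simp only [List.mem_cons, List.not_mem_nil, or_false] at hl
  rw [hl]
  exact hfa i hi

theorem vT_lt {m j : ℕ} (h : j < m) : vT j < nvars tm m := by
  unfold vT nvars
  omega

theorem vI_lt {m j : ℕ} (h : j < m) : vI j < nvars tm m := by
  unfold vI nvars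
  omega

theorem vE_lt {m j : ℕ} (h : j < m) : vE j < nvars tm m := by
  unfold vE nvars
  omega

theorem vC_lt {m : ℕ} {c : Ctl tm} (h : c ∈ ctls tm) : vC tm c < nvars tm m := by
  classical
  have := List.idxOf_lt_length_iff.2 h
  unfold vC nvars
  omega

theorem vP_lt {m : ℕ} {p : Pr tm} (h : p ∈ prs tm) : vP tm p < nvars tm m := by
  classical
  have := List.idxOf_lt_length_iff.2 h
  unfold vP nvars
  omega

theorem mem_prs {k : tm.K} {g : Option (tm.Γ k)} (h : g ∈ Gl tm k) :
    (⟨k, g⟩ : Pr tm) ∈ prs tm := by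
  unfold prs
  rw [List.mem_flatMap]
  exact ⟨k, mem_Kl tm k, List.mem_map.2 ⟨g, h, rfl⟩⟩

theorem bd_comCl (m : ℕ) : Bd (nvars tm m) (comCl tm m) := by
  unfold comCl
  refine Bd.append (Bd.append ?_ ?_) (Bd.cons ?_ Bd.nil)
  · exact bd_neCl (by simp) (fun j hj => vT_lt tm hj)
  · exact bd_decCl (by simp) (fun j hj => vT_lt tm hj) (fun j hj => vT_lt tm hj)
  · intro l hl
    rw [List.mem_map] at hl
    obtain ⟨c, hc, rfl⟩ := hl
    exact vC_lt tm hc

theorem bd_topCl (m : ℕ) {c' : Ctl tm} (hc' : c' ∈ ctls tm) :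
    Bd (nvars tm m) (topCl tm c') := by
  have h : ∀ k : tm.K, ∀ l ∈ ((true, vC tm c', false) ::
      (Gl tm k).map fun g => (true, vP tm ⟨k, g⟩, true) : List Lit), l.2.1 < nvars tm m := by
    intro k l hl
    rcases List.mem_cons.1 hl with rfl | hl
    · exact vC_lt tm hc'
    · rw [List.mem_map] at hl
      obtain ⟨g, hg, rfl⟩ := hl
      exact vP_lt tm (mem_prs tm hg)
  unfold topCl
  split
  · exact Bd.cons (h _) Bd.nil
  · exact Bd.cons (h _) Bd.nil
  · exact Bd.nil

theorem bd_ctlCl (m : ℕ) {c' c : Ctl tm} (hc' : c' ∈ ctls tm) (hc : c ∈ ctls tm) :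
    Bd (nvars tm m) (ctlCl tm c' c) := by
  have h1 : Bd (nvars tm m) [[(true, vC tm c', false), (false, vC tm c, false)]] := by
    refine Bd.cons ?_ Bd.nil
    intro l hl
    simp only [List.mem_cons, List.not_mem_nil, or_false] at hl
    rcases hl with rfl | rfl
    · exact vC_lt tm hc'
    · exact vC_lt tm hc
  have h2 : ∀ k : tm.K, ∀ g ∈ Gl tm k, Bd (nvars tm m)
      [[(true, vC tm c', false), (false, vC tm c, false), (true, vP tm ⟨k, g⟩, false)]] := by
    intro k g hg
    refine Bd.cons ?_ Bd.nil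
    intro l hl
    simp only [List.mem_cons, List.not_mem_nil, or_false] at hl
    rcases hl with rfl | rfl | rfl
    · exact vC_lt tm hc'
    · exact vC_lt tm hc
    · exact vP_lt tm (mem_prs tm hg)
  rcases c' with ⟨s, v⟩
  rcases s with _ | (⟨k0, g, q⟩ | ⟨k0, g, q⟩ | ⟨k0, g, q⟩ | ⟨g, q⟩ | ⟨p, q₁, q₂⟩ | l | _)
  · exact Bd.ite Bd.nil h1
  · exact Bd.ite Bd.nil h1
  · exact Bd.flatMap fun g hg => Bd.ite Bd.nil (h2 _ g hg)
  · exact Bd.flatMap fun g hg => Bd.ite Bd.nil (h2 _ g hg)
  · exact Bd.ite Bd.nil h1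
  · exact Bd.ite Bd.nil h1
  · exact Bd.ite Bd.nil h1
  · exact Bd.ite Bd.nil h1

theorem bd_lab0 (m : ℕ) : Bd (nvars tm m) (lab0 tm m) := by
  unfold lab0
  refine Bd.append (Bd.append (bd_comCl tm m) (bd_zeroCl fun j hj => vI_lt tm hj)) ?_
  exact Bd.flatMap fun c' hc' => Bd.append (bd_topCl tm m hc') (Bd.flatMap fun c hc =>
    bd_ctlCl tm m hc' hc)

theorem bd_cellCl (m : ℕ) {c' : Ctl tm} {p : Pr tm} (hc' : c' ∈ ctls tm) (hp : p ∈ prs tm) :
    Bd (nvars tm m) (cellCl tm m c' p) := by
  have hG : ∀ l ∈ ([(true, vC tm c', false), (false, vP tm p, false)] : List Lit),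
      l.2.1 < nvars tm m := by
    intro l hl
    simp only [List.mem_cons, List.not_mem_nil, or_false] at hl
    rcases hl with rfl | rfl
    · exact vC_lt tm hc'
    · exact vP_lt tm hp
  have hG' : ∀ l ∈ ([(true, vC tm c', false), (false, vP tm p, false)] ++
      [(true, vP tm p, true)] : List Lit), l.2.1 < nvars tm m := by
    intro l hl
    rcases List.mem_append.1 hl with hl | hl
    · exact hG l hl
    · simp only [List.mem_cons, List.not_mem_nil, or_false] at hl
      subst hl
      exact vP_lt tm hp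
  have hI : ∀ j < m, vI j < nvars tm m := fun j hj => vI_lt tm hj
  have hE := (bd_eqCl (sa := false) (sb := true) hG hI hI).append (Bd.cons hG' Bd.nil)
  unfold cellCl
  rcases c' with ⟨s, v⟩
  rcases s with _ | (⟨k0, g, q⟩ | ⟨k0, g, q⟩ | ⟨k0, g, q⟩ | ⟨g, q⟩ | ⟨p', q₁, q₂⟩ | l | _)
  · exact hE
  · simp only
    refine Bd.ite ?_ hE
    refine Bd.append (Bd.ite Bd.nil (bd_neCl hG hI)) (Bd.flatMap fun b hb => ?_)
    rw [List.mem_range] at hb
    refine Bd.append (bd_decCl ?_ hI hI) (Bd.cons ?_ Bd.nil)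
    · intro l hl
      rcases List.mem_cons.1 hl with rfl | hl
      · exact hI b hb
      · exact hG l hl
    · intro l hl
      rcases List.mem_cons.1 hl with rfl | hl
      · exact hI b hb
      · exact hG' l hl
  · exact hE
  · simp only
    refine Bd.ite ?_ hE
    exact ((bd_neCl hG hI).append (bd_decCl hG hI hI)).append (Bd.cons hG' Bd.nil)
  · exact hE
  · exact hE
  · exact hE
  · exact hE

theorem bd_lab1 (m : ℕ) : Bd (nvars tm m) (lab1 tm m) := by
  unfold lab1
  exact (bd_comCl tm m).append (Bd.flatMap fun c' hc' => Bd.flatMap fun p hp =>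
    bd_cellCl tm m hc' hp)

theorem bd_inCl (sym : Bool → tm.Γ tm.k₀) {m i : ℕ} (hi : i < m) (o : Option Bool) :
    Bd (nvars tm m) (inCl tm sym m i o) := by
  unfold inCl
  refine Bd.append (Bd.flatMap fun g hg => Bd.ite Bd.nil (Bd.cons ?_ Bd.nil)) (Bd.map ?_)
  · intro l hl
    rcases List.mem_cons.1 hl with rfl | hl
    · exact vP_lt tm (mem_prs tm hg)
    · rw [List.mem_map] at hl
      obtain ⟨j, hj, rfl⟩ := hl
      exact vI_lt tm (List.mem_range.1 hj)
  · intro j hj l hl
    simp only [List.mem_cons, List.not_mem_nil, or_false] at hl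
    rcases hl with rfl | rfl
    · exact vE_lt tm hi
    · exact vI_lt tm (List.mem_range.1 hj)

theorem bd_lab2 (sym : Bool → tm.Γ tm.k₀) {m : ℕ} {x : List Bool} (hm : x.length ≤ m) :
    Bd (nvars tm m) (lab2 tm sym m x) := by
  unfold lab2
  refine Bd.append (Bd.append (Bd.append (Bd.append ?_ ?_) ?_) ?_) ?_
  · exact bd_zeroCl fun j hj => vT_lt tm hj
  · refine Bd.flatMap fun c hc => Bd.ite Bd.nil (Bd.cons ?_ Bd.nil)
    intro l hl
    rw [List.mem_singleton] at hl
    subst hl
    exact vC_lt tm hc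
  · refine Bd.flatMap fun p hp => Bd.ite Bd.nil (Bd.cons ?_ Bd.nil)
    intro l hl
    rw [List.mem_singleton] at hl
    subst hl
    exact vP_lt tm hp
  · refine Bd.flatMap fun i hi => bd_inCl tm sym ?_ _
    rw [List.mem_range] at hi
    omega
  · refine Bd.flatMap fun g hg => Bd.ite Bd.nil (Bd.cons ?_ Bd.nil)
    intro l hl
    rcases List.mem_cons.1 hl with rfl | hl
    · exact vP_lt tm (mem_prs tm hg)
    · rw [List.mem_map] at hl
      obtain ⟨j, hj, rfl⟩ := hl
      rw [List.mem_range] at hj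
      exact vE_lt tm (by omega)

/-- All variables are bounded by `nvars`. -/
theorem tmBase_wf (sym : Bool → tm.Γ tm.k₀) (m : ℕ) (x : List Bool) (hm : x.length ≤ m) :
    (tmBase tm sym m x).WF := by
  intro c hc l hl
  simp only [tmBase, tmClauses, List.mem_append, List.mem_map] at hc
  rcases hc with (⟨c, hc, rfl⟩ | ⟨c, hc, rfl⟩) | ⟨c, hc, rfl⟩
  · exact bd_lab0 tm m c hc l hl
  · exact bd_lab1 tm m c hc l hl
  · exact bd_lab2 tm sym hm c hc l hl

end Pool.Agent.W_MP_901ac1_lc
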