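import Pool.Agent.W_MP_901ac1_lc.Base
import Pool.Agent.PolyTimeCL.CookLevin

/-!
# The instance of Hit is computable in polynomial time
-/

set_option autoImplicit false

open Turing Computability

namespace Pool.Agent.W_MP_901ac1_lc

open Pool.Agent.PolyTime

/-- The components of an instance. -/
def Inst.tup (I : Inst) : ℕ × List (ℕ × ℕ) × List (List (ℕ × ℕ)) × List (ℕ × ℕ) :=
  (I.n, I.edges, I.types, I.tokens)

theorem codeNat_eq (n : ℕ) : codeNat n = (TEnc.enc n).enc := by
  induction n with
  | zero => rfl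
  | succ n ih => rw [codeNat, ih]; rfl

theorem codePair_eq (e : ℕ × ℕ) : codePair e = (TEnc.enc e).enc := by
  unfold codePair
  rw [codeNat_eq, codeNat_eq]
  rfl

theorem codeList_eq {α : Type} [TEnc α] (code : α → List Bool) (h : ∀ a, code a = (TEnc.enc a).enc)
    (l : List α) : codeList code l = (TEnc.enc l).enc := by
  induction l with
  | nil => rfl
  | cons a l ih => rw [codeList, ih, h]; rfl

theorem code_eq (I : Inst) : I.code = bits I.tup := by
  have h1 := codeList_eq _ codePair_eq
  have h2 := codeList_eq _ h1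
  unfold Inst.code
  rw [h1, h2, h1, codeNat_eq]
  rfl

theorem code_injective : Function.Injective Inst.code := by
  intro I J h
  rw [code_eq, code_eq] at h
  have h1 := TEnc.inj (T.enc_injective h)
  cases I; cases J
  simp_all [Inst.tup]

section parts

variable {α : Type*} [TEnc α]

theorem pf_cP0 {m x : α → ℕ} {g : α → Bool} (hm : PF m) (hg : PF g) (hx : PF x) :
    PF (fun a => cP0 (m a) (g a) (x a)) := by
  unfold cP0
  have h : PF (fun a => if g a = true then m a else 0) :=
    PF.ite (p := fun a => g a = true) (PF.decide_bool hg) hm (PF.const 0)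
  exact (PF.const 8).add ((PF.const 9).mul (h.add hx))

theorem pf_cP {m x o : α → ℕ} {g : α → Bool} {l : α → Loc} (hm : PF m) (hg : PF g) (hx : PF x)
    (ho : PF o) (hl : ∀ a, (l a).off = o a) : PF (fun a => cP (m a) (g a) (x a) (l a)) := by
  refine ((pf_cP0 hm hg hx).add ho).congr (fun a => ?_)
  rw [cP, hl]

theorem pf_cPc {m x : α → ℕ} (g : Bool) (l : Loc) (hm : PF m) (hx : PF x) :
    PF (fun a => cP (m a) g (x a) l) :=
  pf_cP (l := fun _ => l) hm (PF.const g) hx (PF.const l.off) (fun _ => rfl)

theorem pf_cW {m u : α → ℕ} (g : Bool) (hm : PF m) (hu : PF u) :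
    PF (fun a => cW (m a) g (u a)) := by
  unfold cW
  exact (((PF.const 8).add ((PF.const 18).mul hm)).add ((PF.const 6).mul hu)).add (PF.const _)

theorem pf_cD {m u : α → ℕ} (g : Bool) (hm : PF m) (hu : PF u) :
    PF (fun a => cD (m a) g (u a)) := by
  unfold cD
  exact (((PF.const 8).add ((PF.const 18).mul hm)).add ((PF.const 6).mul hu)).add (PF.const _)

theorem pf_cK {m u : α → ℕ} (g : Bool) (hm : PF m) (hu : PF u) :
    PF (fun a => cK (m a) g (u a)) := by
  unfold cK
  exact (((PF.const 8).add ((PF.const 18).mul hm)).add ((PF.const 6).mul hu)).add (PF.const _)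

omit [TEnc α] in
theorem toM_eq (a : ℕ) (l : List (Fin 8)) : toM a l = l.map (fun w : Fin 8 => (a, (w : ℕ))) := by
  unfold toM
  simp only [bind_pure_comp, List.map_eq_map, List.map_map]
  rfl

theorem pf_toM {a : α → ℕ} (l : List (Fin 8)) (ha : PF a) : PF (fun x => toM (a x) l) := by
  refine (PF.constMap l (F := fun w x => (a x, (w : ℕ)))
    (fun w => ha.pair (PF.const _))).congr (fun x => ?_)
  rw [toM_eq]

theorem pf_one {β : Type*} [TEnc β] {f : α → β} (hf : PF f) : PF (fun x => [f x]) :=
  hf.cons (PF.const [])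

theorem pf_two {β : Type*} [TEnc β] {f g : α → β} (hf : PF f) (hg : PF g) :
    PF (fun x => [f x, g x]) := hf.cons (pf_one hg)

theorem pf_tokEdges {m x : α → ℕ} (g : Bool) (hm : PF m) (hx : PF x) :
    PF (fun a => tokEdges (m a) g (x a)) := by
  unfold tokEdges
  refine PF.constMap (relEdges g)
    (F := fun e a => (cP0 (m a) g (x a) + e.1, cP0 (m a) g (x a) + e.2)) (fun e => ?_)
  have h := pf_cP0 hm (PF.const g) hx
  exact (h.add (PF.const _)).pair (h.add (PF.const _))

theorem pf_toList {β : Type*} [TEnc β] {o : α → Option β} (ho : PF o) :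
    PF (fun x => (o x).toList) :=
  PF.optionCases (f := fun _ => []) (g := fun _ b => [b]) ho (PF.const []) (pf_one PF.snd)
    (fun a h => by rw [h]; rfl) (fun a b h => by rw [h]; rfl)

/-- Edges out of the control vertices of one clause. -/
theorem pf_clause {m U k : α → ℕ} {c : α → LCl} (g : Bool) (hm : PF m) (hU : PF U) (hk : PF k)
    (hc : PF c) :
    PF (fun a => (if (c a).1 ≤ U a then [(cD (m a) g (c a).1, cK (m a) g (k a))] else []) ++
        (c a).2.flatMap fun l =>
          [(cK (m a) g (k a), cP (m a) (if l.1 then g else !g) l.2.1 (Loc.at' l.2.2)),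
            (cK (m a) g (k a), cP (m a) (if l.1 then g else !g) l.2.1 .h1)]) := by
  refine PF.append ?_ ?_
  · exact PF.ite (p := fun a => (c a).1 ≤ U a) (PF.le hc.fst' hU)
      (pf_one ((pf_cD g hm hc.fst').pair (pf_cK g hm hk))) (PF.const [])
  · refine PF.flatMap (l := fun a => (c a).2) (f := fun a l =>
      [(cK (m a) g (k a), cP (m a) (if l.1 then g else !g) l.2.1 (Loc.at' l.2.2)),
            (cK (m a) g (k a), cP (m a) (if l.1 then g else !g) l.2.1 .h1)]) ?_ hc.snd'
    have hm' : PF (fun p : α × Lit => m p.1) := hm.comp PF.fst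
    have hk' : PF (fun p : α × Lit => k p.1) := hk.comp PF.fst
    have hg' : PF (fun p : α × Lit => if p.2.1 = true then g else !g) :=
      PF.ite (p := fun p : α × Lit => p.2.1 = true) (PF.decide_bool PF.snd.fst') (PF.const _)
        (PF.const _)
    have hx' : PF (fun p : α × Lit => p.2.2.1) := PF.snd.snd'.fst'
    have hb' : PF (fun p : α × Lit => p.2.2.2) := PF.snd.snd'.snd'
    have ho : PF (fun p : α × Lit => (Loc.at' p.2.2.2).off) :=
      (PF.of_finite (fun b : Bool => (Loc.at' b).off)).comp hb'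
    have hK := pf_cK g hm' hk'
    refine pf_two (hK.pair ?_) (hK.pair ?_)
    · exact pf_cP (l := fun p : α × Lit => Loc.at' p.2.2.2) hm' hg' hx' ho (fun _ => rfl)
    · exact pf_cP (l := fun _ : α × Lit => Loc.h1) hm' hg' hx' (PF.const 5) (fun _ => rfl)

theorem pf_group {m U : α → ℕ} {cl : α → List LCl} (g : Bool) (hm : PF m) (hU : PF U)
    (hcl : PF cl) :
    PF (fun a => ((List.range (m a)).flatMap fun x => Loc.all.flatMap fun l =>
      toM (cP (m a) g x l) ((List.finRange 8).filter fun w => w < l.val g)) ++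
    ((List.range (U a)).flatMap fun u =>
      toM (cW (m a) g u) ((List.finRange 8).filter fun w => w ≠ 0 ∧ w ≠ dl g) ++
      ((List.range (m a)).flatMap fun x => [(cW (m a) g u, cP (m a) g x .c1),
        (cW (m a) g u, cP (m a) g x .c3)]) ++
      [(cW (m a) g u, cD (m a) g u), (cW (m a) g u, cD (m a) g (U a))] ++
      ((List.range (U a)).map fun u' => (cD (m a) g u, cW (m a) (!g) u'))) ++
    ((List.range (U a + 1)).flatMap fun u =>
      toM (cD (m a) g u) ((List.finRange 8).filter fun w => w ≠ 0)) ++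
    ((List.range (cl a).length).flatMap fun k =>
      toM (cK (m a) g k) ((List.finRange 8).filter fun w => w ≠ 0) ++
      (((cl a)[k]?).toList.flatMap fun c =>
        (if c.1 ≤ U a then [(cD (m a) g c.1, cK (m a) g k)] else []) ++
        c.2.flatMap fun l =>
          [(cK (m a) g k, cP (m a) (if l.1 then g else !g) l.2.1 (Loc.at' l.2.2)),
            (cK (m a) g k, cP (m a) (if l.1 then g else !g) l.2.1 .h1)]))) := by
  refine PF.append (PF.append (PF.append ?_ ?_) ?_) ?_
  · refine PF.flatMap (l := fun a => List.range (m a)) (f := fun a x => Loc.all.flatMap fun l =>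
      toM (cP (m a) g x l) ((List.finRange 8).filter fun w => w < l.val g)) ?_ hm.range
    refine PF.constFlatMap Loc.all (F := fun l (p : α × ℕ) =>
      toM (cP (m p.1) g p.2 l) ((List.finRange 8).filter fun w => w < l.val g)) (fun l => ?_)
    exact pf_toM _ (pf_cPc g l (hm.comp PF.fst) PF.snd)
  · refine PF.flatMap (l := fun a => List.range (U a)) (f := fun a u =>
      toM (cW (m a) g u) ((List.finRange 8).filter fun w => w ≠ 0 ∧ w ≠ dl g) ++
      ((List.range (m a)).flatMap fun x => [(cW (m a) g u, cP (m a) g x .c1),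
        (cW (m a) g u, cP (m a) g x .c3)]) ++
      [(cW (m a) g u, cD (m a) g u), (cW (m a) g u, cD (m a) g (U a))] ++
      ((List.range (U a)).map fun u' => (cD (m a) g u, cW (m a) (!g) u'))) ?_ hU.range
    have hm' : PF (fun p : α × ℕ => m p.1) := hm.comp PF.fst
    have hU' : PF (fun p : α × ℕ => U p.1) := hU.comp PF.fst
    have hW := pf_cW g hm' PF.snd
    have hD := pf_cD g hm' PF.snd
    refine PF.append (PF.append (PF.append ?_ ?_) ?_) ?_
    · exact pf_toM _ hW
    · refine PF.flatMap (l := fun p : α × ℕ => List.range (m p.1)) (f := fun p x =>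
        [(cW (m p.1) g p.2, cP (m p.1) g x .c1), (cW (m p.1) g p.2, cP (m p.1) g x .c3)]) ?_
        hm'.range
      have hm'' : PF (fun q : (α × ℕ) × ℕ => m q.1.1) := hm'.comp PF.fst
      have hW' : PF (fun q : (α × ℕ) × ℕ => cW (m q.1.1) g q.1.2) := hW.comp PF.fst
      exact pf_two (hW'.pair (pf_cPc g _ hm'' PF.snd)) (hW'.pair (pf_cPc g _ hm'' PF.snd))
    · exact pf_two (hW.pair hD) (hW.pair (pf_cD g hm' hU'))
    · refine PF.map (l := fun p : α × ℕ => List.range (U p.1)) (f := fun p u' =>
        (cD (m p.1) g p.2, cW (m p.1) (!g) u')) ?_ hU'.range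
      exact PF.pair (hD.comp PF.fst) (pf_cW (!g) (hm'.comp PF.fst) PF.snd)
  · refine PF.flatMap (l := fun a => List.range (U a + 1)) (f := fun a u =>
      toM (cD (m a) g u) ((List.finRange 8).filter fun w => w ≠ 0)) ?_ hU.succ.range
    exact pf_toM _ (pf_cD g (hm.comp PF.fst) PF.snd)
  · refine PF.flatMap (l := fun a => List.range (cl a).length) (f := fun a k =>
      toM (cK (m a) g k) ((List.finRange 8).filter fun w => w ≠ 0) ++
      (((cl a)[k]?).toList.flatMap fun c =>
        (if c.1 ≤ U a then [(cD (m a) g c.1, cK (m a) g k)] else []) ++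
        c.2.flatMap fun l =>
          [(cK (m a) g k, cP (m a) (if l.1 then g else !g) l.2.1 (Loc.at' l.2.2)),
            (cK (m a) g k, cP (m a) (if l.1 then g else !g) l.2.1 .h1)])) ?_ hcl.length.range
    have hm' : PF (fun p : α × ℕ => m p.1) := hm.comp PF.fst
    have hU' : PF (fun p : α × ℕ => U p.1) := hU.comp PF.fst
    refine PF.append (pf_toM _ (pf_cK g hm' PF.snd)) ?_
    refine PF.flatMap (l := fun p : α × ℕ => ((cl p.1)[p.2]?).toList) (f := fun p c =>
        (if c.1 ≤ U p.1 then [(cD (m p.1) g c.1, cK (m p.1) g p.2)] else []) ++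
        c.2.flatMap fun l =>
          [(cK (m p.1) g p.2, cP (m p.1) (if l.1 then g else !g) l.2.1 (Loc.at' l.2.2)),
            (cK (m p.1) g p.2, cP (m p.1) (if l.1 then g else !g) l.2.1 .h1)]) ?_ ?_
    · exact pf_clause g (hm'.comp PF.fst) (hU'.comp PF.fst) (PF.fst.snd') PF.snd
    · exact pf_toList (PF.getElem? (hcl.comp PF.fst) PF.snd)

theorem pf_ctlEdges {m U : α → ℕ} {cl : α → List LCl} (hm : PF m) (hU : PF U) (hcl : PF cl) :
    PF (fun a => ctlEdges (m a) (U a) (cl a)) := by
  unfold ctlEdges
  refine PF.append (PF.const _) ?_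
  exact PF.constFlatMap [false, true] (fun g => pf_group g hm hU hcl)

theorem pf_types {m U : α → ℕ} {cl : α → List LCl} (hm : PF m) (hU : PF U) (hcl : PF cl) :
    PF (fun a => types (m a) (U a) (cl a)) := by
  unfold types
  refine PF.append (PF.append ?_ ?_) (pf_one (pf_ctlEdges hm hU hcl))
  · exact PF.map (f := fun a x => tokEdges (m a) false x)
      (pf_tokEdges false (hm.comp PF.fst) PF.snd) hm.range
  · exact PF.map (f := fun a x => tokEdges (m a) true x)
      (pf_tokEdges true (hm.comp PF.fst) PF.snd) hm.range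

end parts

theorem pf_hit {α : Type*} [TEnc α] {m U u₀ : α → ℕ} {cl : α → List LCl} {tr : α → List ℕ}
    (hm : PF m) (hU : PF U) (hu : PF u₀) (hcl : PF cl) (htr : PF tr) :
    PF (fun a => (hit (m a) (U a) (cl a) (u₀ a) (tr a)).tup) := by
  unfold hit Inst.tup
  have ht := pf_types hm hU hcl
  refine PF.pair ?_ (PF.pair ht.flatten (PF.pair ht ?_))
  · exact ((PF.const 8).add ((PF.const 18).mul hm)).add
      ((PF.const 6).mul (hU.succ.add hcl.length))
  · refine PF.append (PF.append ?_ ?_) ?_
    · refine PF.map (l := fun a => List.range (m a))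
        (f := fun a x => (cP (m a) false x (Loc.at' (decide (x ∈ tr a))), x)) ?_ hm.range
      have h1 : PF (fun p : α × ℕ => decide (p.2 ∈ tr p.1)) := PF.mem PF.snd (htr.comp PF.fst)
      have h2 : PF (fun p : α × ℕ => (Loc.at' (decide (p.2 ∈ tr p.1))).off) :=
        (PF.of_finite (fun b : Bool => (Loc.at' b).off)).comp h1
      exact PF.pair (pf_cP (l := fun p : α × ℕ => Loc.at' (decide (p.2 ∈ tr p.1)))
        (hm.comp PF.fst) (PF.const false) PF.snd h2 (fun _ => rfl)) PF.snd
    · refine PF.map (l := fun a => List.range (m a))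
        (f := fun a x => (cP (m a) true x .c0, m a + x)) ?_ hm.range
      exact PF.pair (pf_cPc true _ (hm.comp PF.fst) PF.snd) ((hm.comp PF.fst).add PF.snd)
    · exact pf_one ((pf_cW true hm hu).pair ((PF.const 2).mul hm))

/-- A polynomial-time computable map to instances. -/
theorem toTM2_inst {f : List Bool → Inst} (hf : PF (fun x => (f x).tup)) :
    Nonempty (TM2ComputableInPolyTime (fun x : List Bool => x) Inst.code f) := by
  obtain ⟨h⟩ := PF.toTM2_raw hf
  exact ⟨⟨h.toTM2ComputableAux, h.time, fun x => by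
      rw [code_eq]
      exact h.outputsFun x⟩⟩

end Pool.Agent.W_MP_901ac1_lc
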