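import Pool.Agent.W_MP_901ac1_lc.TMBits

/-!
# Correctness of the base game of a computation
-/

set_option autoImplicit false

open Turing Computability StateTransition

namespace Pool.Agent.W_MP_901ac1_lc

open Pool.Agent.PolyTime Pool.Agent.PolyTime.CL

variable (tm : FinTM2)

/-- The micro-configuration after `t` steps on input `x`. -/
def cfg (sym : Bool → tm.Γ tm.k₀) (x : List Bool) (t : ℕ) : MC tm :=
  MC.next^[t] (MC.of (initList tm (x.map sym)))

/-- The control claims of `X` are true. -/
def Good0 (sym : Bool → tm.Γ tm.k₀) (x : List Bool) (m : ℕ) (X : ℕ → Bool) : Prop :=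
  ∀ c ∈ ctls tm, X (vC tm c) = true → c = ctl (cfg tm sym x (num m vT X))

/-- The cell claims of `X` are true. -/
def Good1 (sym : Bool → tm.Γ tm.k₀) (x : List Bool) (m : ℕ) (X : ℕ → Bool) : Prop :=
  ∀ p ∈ prs tm, X (vP tm p) = true → ((cfg tm sym x (num m vT X)).S p.1)[num m vI X]? = p.2

variable {tm}

/-! ### Clauses -/

private theorem any_nil {X Y : ℕ → Bool} : AnyHolds [] X Y ↔ False := by simp [AnyHolds]

private theorem any_cons {l : Lit} {G : List Lit} {X Y : ℕ → Bool} :
    AnyHolds (l :: G) X Y ↔ Lit.Holds X Y l ∨ AnyHolds G X Y := by simp [AnyHolds]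

private theorem any_append {G H : List Lit} {X Y : ℕ → Bool} :
    AnyHolds (G ++ H) X Y ↔ AnyHolds G X Y ∨ AnyHolds H X Y := by
  simp only [AnyHolds, List.mem_append]
  constructor
  · rintro ⟨l, h | h, h'⟩
    · exact Or.inl ⟨l, h, h'⟩
    · exact Or.inr ⟨l, h, h'⟩
  · rintro (⟨l, h, h'⟩ | ⟨l, h, h'⟩)
    · exact ⟨l, Or.inl h, h'⟩
    · exact ⟨l, Or.inr h, h'⟩

private theorem any_map {ι : Type*} {L : List ι} {f : ι → Lit} {X Y : ℕ → Bool} :
    AnyHolds (L.map f) X Y ↔ ∃ i ∈ L, Lit.Holds X Y (f i) := by
  simp [AnyHolds]

private theorem holds_false {X Y : ℕ → Bool} {v : ℕ} {b : Bool} :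
    Lit.Holds X Y (false, v, b) ↔ X v = b := by simp [Lit.Holds]

private theorem holds_true {X Y : ℕ → Bool} {v : ℕ} {b : Bool} :
    Lit.Holds X Y (true, v, b) ↔ Y v = b := by simp [Lit.Holds]

private theorem all_single {c : List Lit} {X Y : ℕ → Bool} :
    AllSat [c] X Y ↔ AnyHolds c X Y := by simp [AllSat, AnyHolds]

private theorem all_map {ι : Type*} {L : List ι} {f : ι → List Lit} {X Y : ℕ → Bool} :
    AllSat (L.map f) X Y ↔ ∀ i ∈ L, AnyHolds (f i) X Y := by
  simp [AllSat, AnyHolds]

private theorem all_dec {G : List Lit} {sa : Bool} {fa : ℕ → ℕ} {sb : Bool} {fb : ℕ → ℕ} {m : ℕ}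
    {X Y : ℕ → Bool} (h : AnyHolds G X Y) : AllSat (decCl G sa fa sb fb m) X Y := by
  unfold decCl
  rw [allSat_flatMap]
  intro j _
  rw [allSat_append, allSat_flatMap, allSat_cons, all_single]
  refine ⟨fun l _ => ?_, ?_, ?_⟩
  · rw [allSat_cons, all_single, any_append, any_append]
    exact ⟨Or.inl h, Or.inl h⟩
  · rw [any_append, any_append]
    exact Or.inl (Or.inl h)
  · rw [any_append, any_append]
    exact Or.inl (Or.inl h)

private theorem side_false (X Y : ℕ → Bool) : side X Y false = X := rfl
private theorem side_true (X Y : ℕ → Bool) : side X Y true = Y := rfl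

section

variable {sym : Bool → tm.Γ tm.k₀} {m : ℕ} {x : List Bool} {X Y : ℕ → Bool}

private theorem sat0 : Sat (tmClauses tm sym m x) 0 X Y ↔ AllSat (lab0 tm m) X Y := by
  constructor
  · intro h c hc
    exact h c (by simp [tmClauses, hc])
  · intro h c hc
    simp only [tmClauses, List.mem_append, List.mem_map, Prod.mk.injEq] at hc
    rcases hc with (⟨d, hd, -, rfl⟩ | ⟨d, hd, h0, rfl⟩) | ⟨d, hd, h0, rfl⟩
    · exact h d hd
    · exact absurd h0 (by norm_num)
    · exact absurd h0 (by norm_num)

private theorem sat1 : Sat (tmClauses tm sym m x) 1 X Y ↔ AllSat (lab1 tm m) X Y := by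
  constructor
  · intro h c hc
    exact h c (by simp [tmClauses, hc])
  · intro h c hc
    simp only [tmClauses, List.mem_append, List.mem_map, Prod.mk.injEq] at hc
    rcases hc with (⟨d, hd, h0, rfl⟩ | ⟨d, hd, h0, rfl⟩) | ⟨d, hd, h0, rfl⟩
    · exact absurd h0 (by norm_num)
    · exact h d hd
    · exact absurd h0 (by norm_num)

private theorem sat2 : Sat (tmClauses tm sym m x) 2 X Y ↔ AllSat (lab2 tm sym m x) X Y := by
  constructor
  · intro h c hc
    exact h c (by simp [tmClauses, hc])
  · intro h c hc
    simp only [tmClauses, List.mem_append, List.mem_map, Prod.mk.injEq] at hc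
    rcases hc with (⟨d, hd, h0, rfl⟩ | ⟨d, hd, h0, rfl⟩) | ⟨d, hd, h0, rfl⟩
    · exact absurd h0 (by norm_num)
    · exact absurd h0 (by norm_num)
    · exact h d hd

end

/-! ### The computation -/

section

variable (sym : Bool → tm.Γ tm.k₀) (x : List Bool)

private theorem cfg_succ (t : ℕ) : cfg tm sym x (t + 1) = (cfg tm sym x t).next := by
  unfold cfg
  rw [Function.iterate_succ_apply']

private theorem cfg_ctl (t : ℕ) : ctl (cfg tm sym x t) ∈ ctls tm := by
  induction t with
  | zero => exact init_mem tm _
  | succ t ih => rw [cfg_succ]; exact next_mem tm ih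

private theorem cfg_sym (t : ℕ) : SymOK (cfg tm sym x t) := by
  induction t with
  | zero => exact init_symOK tm _
  | succ t ih => rw [cfg_succ]; exact next_symOK tm (cfg_ctl sym x t) ih

end

private theorem mem_prs {p : Pr tm} : p ∈ prs tm ↔ p.2 ∈ Gl tm p.1 := by
  unfold prs
  simp only [List.mem_flatMap, List.mem_map]
  constructor
  · rintro ⟨k, _, g, hg, rfl⟩
    exact hg
  · intro h
    exact ⟨p.1, mem_Kl tm p.1, p.2, h, rfl⟩

/-! ### The control clauses -/

private theorem ctlCl_mem {c' c : Ctl tm} {cl : List Lit} (h : cl ∈ ctlCl tm c' c) :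
    (true, vC tm c', false) ∈ cl ∧ (false, vC tm c, false) ∈ cl := by
  classical
  rcases c' with ⟨s, v⟩
  rcases s with _ | (⟨k, f, q⟩ | ⟨k, f, q⟩ | ⟨k, f, q⟩ | ⟨f, q⟩ | ⟨p, q₁, q₂⟩ | l | _)
  · simp only [ctlCl] at h
    split_ifs at h with h1
    · simp at h
    · rw [List.mem_singleton] at h; subst h; simp
  · simp only [ctlCl] at h
    split_ifs at h with h1
    · simp at h
    · rw [List.mem_singleton] at h; subst h; simp
  · simp only [ctlCl, List.mem_flatMap] at h
    obtain ⟨g, hg, h⟩ := h
    split_ifs at h with h1
    · simp at h
    · rw [List.mem_singleton] at h; subst h; simp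
  · simp only [ctlCl, List.mem_flatMap] at h
    obtain ⟨g, hg, h⟩ := h
    split_ifs at h with h1
    · simp at h
    · rw [List.mem_singleton] at h; subst h; simp
  · simp only [ctlCl] at h
    split_ifs at h with h1
    · simp at h
    · rw [List.mem_singleton] at h; subst h; simp
  · simp only [ctlCl] at h
    split_ifs at h with h1
    · simp at h
    · rw [List.mem_singleton] at h; subst h; simp
  · simp only [ctlCl] at h
    split_ifs at h with h1
    · simp at h
    · rw [List.mem_singleton] at h; subst h; simp
  · simp only [ctlCl] at h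
    split_ifs at h with h1
    · simp at h
    · rw [List.mem_singleton] at h; subst h; simp

private theorem ctlCl_sound {M : MC tm} {c : Ctl tm} {X Y : ℕ → Bool}
    (hsat : AllSat (ctlCl tm (ctl M) c) X Y) (htop : AllSat (topCl tm (ctl M)) X Y)
    (hY : Y (vC tm (ctl M)) = true) (hX : X (vC tm c) = true)
    (hcell : ∀ k, ∀ g ∈ Gl tm k, Y (vP tm ⟨k, g⟩) = true → (M.S k)[0]? = g) :
    c = ctl M.next := by
  classical
  have two : ¬ AnyHolds [(true, vC tm (ctl M), false), (false, vC tm c, false)] X Y := by
    simp only [any_cons, any_nil, holds_true, holds_false, hY, hX]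
    simp
  rcases M with ⟨s, v, S⟩
  rcases s with _ | (⟨k, f, q⟩ | ⟨k, f, q⟩ | ⟨k, f, q⟩ | ⟨f, q⟩ | ⟨p, q₁, q₂⟩ | l | _)
  · simp only [ctlCl, ctl] at hsat
    split_ifs at hsat with h1
    · exact h1.symm
    · exact absurd (all_single.1 hsat) two
  · simp only [ctlCl, ctl] at hsat
    split_ifs at hsat with h1
    · exact h1.symm
    · exact absurd (all_single.1 hsat) two
  · simp only [ctlCl, ctl, allSat_flatMap] at hsat
    simp only [topCl, ctl, all_single, any_cons, any_map, holds_true] at htop
    rcases htop with h | ⟨g, hg, h⟩
    · simp only [ctl] at hY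
      rw [hY] at h; exact absurd h (by simp)
    · have h2 := hcell k g hg h
      have h3 := hsat g hg
      split_ifs at h3 with h1
      · rw [← h1]
        simp only [MC.next, ctl, List.head?_eq_getElem?]
        rw [show S k = (⟨some (.peek k f q), v, S⟩ : MC tm).S k from rfl, h2]
      · rw [all_single, any_cons, any_cons, any_cons, any_nil, holds_true, holds_false,
          holds_true, h] at h3
        simp only [ctl] at hY
        rw [hY, hX] at h3
        simp at h3
  · simp only [ctlCl, ctl, allSat_flatMap] at hsat
    simp only [topCl, ctl, all_single, any_cons, any_map, holds_true] at htop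
    rcases htop with h | ⟨g, hg, h⟩
    · simp only [ctl] at hY
      rw [hY] at h; exact absurd h (by simp)
    · have h2 := hcell k g hg h
      have h3 := hsat g hg
      split_ifs at h3 with h1
      · rw [← h1]
        simp only [MC.next, ctl, List.head?_eq_getElem?]
        rw [show S k = (⟨some (.pop k f q), v, S⟩ : MC tm).S k from rfl, h2]
      · rw [all_single, any_cons, any_cons, any_cons, any_nil, holds_true, holds_false,
          holds_true, h] at h3
        simp only [ctl] at hY
        rw [hY, hX] at h3
        simp at h3
  · simp only [ctlCl, ctl] at hsat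
    split_ifs at hsat with h1
    · exact h1.symm
    · exact absurd (all_single.1 hsat) two
  · simp only [ctlCl, ctl] at hsat
    split_ifs at hsat with h1
    · exact h1.symm
    · exact absurd (all_single.1 hsat) two
  · simp only [ctlCl, ctl] at hsat
    split_ifs at hsat with h1
    · exact h1.symm
    · exact absurd (all_single.1 hsat) two
  · simp only [ctlCl, ctl] at hsat
    split_ifs at hsat with h1
    · exact h1.symm
    · exact absurd (all_single.1 hsat) two

private theorem ctlCl_complete {M : MC tm} {c' c : Ctl tm} {X Y : ℕ → Bool}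
    (hY : Y (vC tm c') = true → c' = ctl M) (hX : X (vC tm c) = true → c = ctl M.next)
    (hcell : ∀ k, ∀ g ∈ Gl tm k, Y (vP tm ⟨k, g⟩) = true → (M.S k)[0]? = g) :
    AllSat (ctlCl tm c' c) X Y := by
  classical
  by_cases h1 : Y (vC tm c') = true
  swap
  · intro cl hcl
    refine ⟨_, (ctlCl_mem hcl).1, ?_⟩
    rw [holds_true]
    simpa using h1
  by_cases h2 : X (vC tm c) = true
  swap
  · intro cl hcl
    refine ⟨_, (ctlCl_mem hcl).2, ?_⟩
    rw [holds_false]
    simpa using h2
  have e1 := hY h1
  have e2 := hX h2
  subst e1
  rcases M with ⟨s, v, S⟩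
  rcases s with _ | (⟨k, f, q⟩ | ⟨k, f, q⟩ | ⟨k, f, q⟩ | ⟨f, q⟩ | ⟨p, q₁, q₂⟩ | l | _)
  · simp only [ctlCl, ctl]
    split_ifs with h3
    · exact allSat_nil
    · exact absurd e2.symm h3
  · simp only [ctlCl, ctl]
    split_ifs with h3
    · exact allSat_nil
    · exact absurd e2.symm h3
  · simp only [ctlCl, ctl, allSat_flatMap]
    intro g hg
    split_ifs with h3
    · exact allSat_nil
    · rw [all_single, any_cons, any_cons, any_cons, holds_true, holds_false, holds_true]
      right; right; left
      by_contra h4
      have h5 := hcell k g hg (by simpa using h4)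
      apply h3
      rw [e2]
      simp only [MC.next, ctl, List.head?_eq_getElem?]
      rw [show (S k)[0]? = g from h5]
  · simp only [ctlCl, ctl, allSat_flatMap]
    intro g hg
    split_ifs with h3
    · exact allSat_nil
    · rw [all_single, any_cons, any_cons, any_cons, holds_true, holds_false, holds_true]
      right; right; left
      by_contra h4
      have h5 := hcell k g hg (by simpa using h4)
      apply h3
      rw [e2]
      simp only [MC.next, ctl, List.head?_eq_getElem?]
      rw [show (S k)[0]? = g from h5]
  · simp only [ctlCl, ctl]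
    split_ifs with h3
    · exact allSat_nil
    · exact absurd e2.symm h3
  · simp only [ctlCl, ctl]
    split_ifs with h3
    · exact allSat_nil
    · exact absurd e2.symm h3
  · simp only [ctlCl, ctl]
    split_ifs with h3
    · exact allSat_nil
    · exact absurd e2.symm h3
  · simp only [ctlCl, ctl]
    split_ifs with h3
    · exact allSat_nil
    · exact absurd e2.symm h3

/-- The stack whose top is inspected. -/
private def look (s : Option (TM2.Stmt tm.Γ tm.Λ tm.σ)) : Option tm.K :=
  match s with
  | some (.peek k _ _) => some k
  | some (.pop k _ _) => some k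
  | _ => none

private theorem topCl_complete {M : MC tm} {c' : Ctl tm} {X Y : ℕ → Bool}
    (hY : Y (vC tm c') = true → c' = ctl M)
    (hcell : ∀ k, look M.s = some k → ∃ g ∈ Gl tm k, Y (vP tm ⟨k, g⟩) = true) :
    AllSat (topCl tm c') X Y := by
  classical
  by_cases h1 : Y (vC tm c') = true
  · have e1 := hY h1
    subst e1
    rcases M with ⟨s, v, S⟩
    rcases s with _ | (⟨k, f, q⟩ | ⟨k, f, q⟩ | ⟨k, f, q⟩ | ⟨f, q⟩ | ⟨p, q₁, q₂⟩ | l | _)
    · exact allSat_nil
    · exact allSat_nil
    · obtain ⟨g, hg, h⟩ := hcell k rfl
      simp only [topCl, ctl, all_single, any_cons, any_map, holds_true]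
      exact Or.inr ⟨g, hg, h⟩
    · obtain ⟨g, hg, h⟩ := hcell k rfl
      simp only [topCl, ctl, all_single, any_cons, any_map, holds_true]
      exact Or.inr ⟨g, hg, h⟩
    · exact allSat_nil
    · exact allSat_nil
    · exact allSat_nil
    · exact allSat_nil
  · have h2 : Y (vC tm c') = false := by simpa using h1
    rcases c' with ⟨s, v⟩
    rcases s with _ | (⟨k, f, q⟩ | ⟨k, f, q⟩ | ⟨k, f, q⟩ | ⟨f, q⟩ | ⟨p, q₁, q₂⟩ | l | _)
    · exact allSat_nil
    · exact allSat_nil
    · simp only [topCl, all_single, any_cons, any_map, holds_true]
      exact Or.inl h2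
    · simp only [topCl, all_single, any_cons, any_map, holds_true]
      exact Or.inl h2
    · exact allSat_nil
    · exact allSat_nil
    · exact allSat_nil
    · exact allSat_nil

/-! ### The cell clauses -/

private theorem cellCl_sound {M : MC tm} {p : Pr tm} {X Y : ℕ → Bool} {m : ℕ}
    (h : AllSat (cellCl tm m (ctl M) p) X Y) (hY : Y (vC tm (ctl M)) = true)
    (hX : X (vP tm p) = true)
    (hp : Y (vP tm p) = true → (M.S p.1)[num m vI Y]? = p.2) :
    (M.next.S p.1)[num m vI X]? = p.2 := by
  classical
  have hG : ¬ AnyHolds [(true, vC tm (ctl M), false), (false, vP tm p, false)] X Y := by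
    simp only [any_cons, any_nil, holds_true, holds_false, hY, hX]
    simp
  -- the generic case
  have gen : AllSat (eqCl [(true, vC tm (ctl M), false), (false, vP tm p, false)] false vI true vI m
      ++ [[(true, vC tm (ctl M), false), (false, vP tm p, false)] ++ [(true, vP tm p, true)]]) X Y →
      (M.S p.1)[num m vI X]? = p.2 := by
    intro h
    rw [allSat_append, allSat_eqCl, all_single, any_append, any_cons (G := []), any_nil,
      holds_true] at h
    obtain ⟨h1, h2⟩ := h
    have h1' := h1.resolve_left hG
    have h2' := h2.resolve_left hG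
    simp only [or_false] at h2'
    rw [side_false, side_true] at h1'
    rw [h1']
    exact hp h2'
  rcases M with ⟨s, v, S⟩
  rcases s with _ | (⟨k, f, q⟩ | ⟨k, f, q⟩ | ⟨k, f, q⟩ | ⟨f, q⟩ | ⟨pp, q₁, q₂⟩ | l | _)
  · exact gen h
  · -- push
    change AllSat (cellCl tm m (some (.push k f q), v) p) X Y at h
    change ¬ AnyHolds [(true, vC tm (some (.push k f q), v), false), (false, vP tm p, false)] X Y
      at hG
    simp only [cellCl] at h
    by_cases hk : k = p.1
    · rw [if_pos hk] at h
      rcases p with ⟨k', g⟩
      simp only at hk
      subst hk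
      simp only [MC.next, Function.update_self]
      rw [allSat_append, allSat_flatMap] at h
      obtain ⟨h1, h2⟩ := h
      by_cases hI : num m vI X = 0
      · split_ifs at h1 with h3
        · rw [hI]
          simp only [List.getElem?_cons_zero]
          have := Sigma.mk.inj_iff.1 h3
          exact eq_of_heq this.2
        · rw [allSat_neCl] at h1
          rcases h1 with h1 | h1
          · exact absurd h1 hG
          · exact absurd hI h1
      · have hb : ∃ b < m, X (vI b) = true := by
          by_contra hcon
          push Not at hcon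
          apply hI
          rw [num_eq_iff (Nat.two_pow_pos m)]
          intro j hj
          simpa using hcon j hj
        obtain ⟨b, hb, hXb⟩ := hb
        have h3 := h2 b (List.mem_range.2 hb)
        rw [allSat_append, all_single] at h3
        obtain ⟨h4, h5⟩ := h3
        have hG' : ¬ AnyHolds ((false, vI b, false) ::
            [(true, vC tm (some (.push k f q), v), false), (false, vP tm ⟨k, g⟩, false)]) X Y := by
          rw [any_cons, holds_false, hXb]
          simpa using hG
        have h6 := allSat_decCl_sound h4 hG' hI
        rw [side_false, side_true] at h6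
        rw [any_cons, any_append, any_cons (G := []), any_nil, holds_false, holds_true, hXb] at h5
        have h7 : Y (vP tm ⟨k, g⟩) = true := by
          rcases h5 with h5 | h5 | h5 | h5
          · exact absurd h5 (by simp)
          · exact absurd h5 hG
          · exact h5
          · exact h5.elim
        have h8 := hp h7
        rw [← h6, List.getElem?_cons_succ]
        exact h8
    · rw [if_neg hk] at h
      simp only [MC.next]
      rw [Function.update_of_ne (Ne.symm hk)]
      exact gen h
  · exact gen h
  · -- pop
    change AllSat (cellCl tm m (some (.pop k f q), v) p) X Y at h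
    change ¬ AnyHolds [(true, vC tm (some (.pop k f q), v), false), (false, vP tm p, false)] X Y
      at hG
    simp only [cellCl] at h
    by_cases hk : k = p.1
    · rw [if_pos hk] at h
      rcases p with ⟨k', g⟩
      simp only at hk
      subst hk
      simp only [MC.next, Function.update_self]
      rw [allSat_append, allSat_append, allSat_neCl, all_single, any_append,
        any_cons (G := []), any_nil, holds_true] at h
      obtain ⟨⟨h1, h2⟩, h3⟩ := h
      have h1' := h1.resolve_left hG
      have h3' := h3.resolve_left hG
      simp only [or_false] at h3'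
      have h4 := allSat_decCl_sound h2 hG h1'
      rw [side_false, side_true] at h4
      rw [List.getElem?_tail, h4]
      exact hp h3'
    · rw [if_neg hk] at h
      simp only [MC.next]
      rw [Function.update_of_ne (Ne.symm hk)]
      exact gen h
  · exact gen h
  · exact gen h
  · exact gen h
  · exact gen h

private theorem cellCl_any {c' : Ctl tm} {p : Pr tm} {X Y : ℕ → Bool} {m : ℕ}
    (hG : AnyHolds [(true, vC tm c', false), (false, vP tm p, false)] X Y) :
    AllSat (cellCl tm m c' p) X Y := by
  classical
  have gen : AllSat (eqCl [(true, vC tm c', false), (false, vP tm p, false)] false vI true vI m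
      ++ [[(true, vC tm c', false), (false, vP tm p, false)] ++ [(true, vP tm p, true)]]) X Y := by
    rw [allSat_append, allSat_eqCl, all_single, any_append]
    exact ⟨Or.inl hG, Or.inl hG⟩
  rcases c' with ⟨s, v⟩
  rcases s with _ | (⟨k, f, q⟩ | ⟨k, f, q⟩ | ⟨k, f, q⟩ | ⟨f, q⟩ | ⟨pp, q₁, q₂⟩ | l | _)
  · exact gen
  · simp only [cellCl]
    by_cases hk : k = p.1
    · rw [if_pos hk, allSat_append, allSat_flatMap]
      refine ⟨?_, ?_⟩
      · split_ifs
        · exact allSat_nil
        · rw [allSat_neCl]; exact Or.inl hG
      · intro b _
        rw [allSat_append, all_single, any_cons, any_append]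
        exact ⟨all_dec (any_cons.2 (Or.inr hG)), Or.inr (Or.inl hG)⟩
    · rw [if_neg hk]
      exact gen
  · exact gen
  · simp only [cellCl]
    by_cases hk : k = p.1
    · rw [if_pos hk, allSat_append, allSat_append, allSat_neCl, all_single, any_append]
      exact ⟨⟨Or.inl hG, all_dec hG⟩, Or.inl hG⟩
    · rw [if_neg hk]
      exact gen
  · exact gen
  · exact gen
  · exact gen
  · exact gen

private theorem cellCl_complete {M : MC tm} {c' : Ctl tm} {p : Pr tm} {X Y : ℕ → Bool} {m : ℕ}
    (hY : Y (vC tm c') = true → c' = ctl M)
    (hX : X (vP tm p) = true →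
      (∃ i, num m vI X = dst tm M.s p.1 i ∧ num m vI Y = src tm M.s p.1 i ∧
        Y (vP tm p) = true) ∨
      (∃ f q, M.s = some (.push p.1 f q) ∧ num m vI X = 0 ∧ p.2 = some (f M.v))) :
    AllSat (cellCl tm m c' p) X Y := by
  classical
  by_cases hG : AnyHolds [(true, vC tm c', false), (false, vP tm p, false)] X Y
  · exact cellCl_any hG
  have h1 : Y (vC tm c') = true := by
    by_contra h
    apply hG
    rw [any_cons, holds_true]
    exact Or.inl (by simpa using h)
  have h2 : X (vP tm p) = true := by
    by_contra h
    apply hG
    rw [any_cons, any_cons, holds_false]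
    exact Or.inr (Or.inl (by simpa using h))
  have e1 := hY h1
  subst e1
  have gen : num m vI X = num m vI Y → Y (vP tm p) = true →
      AllSat (eqCl [(true, vC tm (ctl M), false), (false, vP tm p, false)] false vI true vI m
      ++ [[(true, vC tm (ctl M), false), (false, vP tm p, false)] ++ [(true, vP tm p, true)]])
      X Y := by
    intro g1 g2
    rw [allSat_append, allSat_eqCl, all_single, any_append, any_cons (G := []), holds_true]
    exact ⟨Or.inr g1, Or.inr (Or.inl g2)⟩
  rcases M with ⟨s, v, S⟩
  rcases s with _ | (⟨k, f, q⟩ | ⟨k, f, q⟩ | ⟨k, f, q⟩ | ⟨f, q⟩ | ⟨pp, q₁, q₂⟩ | l | _)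
  · rcases hX h2 with ⟨i, h3, h4, h5⟩ | ⟨f, q, h3, -⟩
    · exact gen (h3.trans h4.symm) h5
    · simp at h3
  · -- push
    change AllSat (cellCl tm m (some (.push k f q), v) p) X Y
    simp only [cellCl]
    by_cases hk : k = p.1
    · rw [if_pos hk]
      rcases p with ⟨k', g⟩
      simp only at hk
      subst hk
      rw [allSat_append, allSat_flatMap]
      rcases hX h2 with ⟨i, h3, h4, h5⟩ | ⟨f', q', h3, h4, h5⟩
      · simp only [dst, src, if_true] at h3 h4
        constructor
        · split_ifs
          · exact allSat_nil
          · rw [allSat_neCl, side_false, h3]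
            exact Or.inr (by omega)
        · intro b _
          rw [allSat_append, all_single, any_cons, any_append, any_cons (G := []), holds_true]
          refine ⟨allSat_decCl_complete _ ?_, Or.inr (Or.inr (Or.inl h5))⟩
          rw [side_false, side_true, h3, h4]
      · simp only [Option.some.injEq, TM2.Stmt.push.injEq, heq_eq_eq, true_and] at h3
        obtain ⟨rfl, rfl⟩ := h3
        simp only at h5
        subst h5
        rw [if_pos rfl]
        refine ⟨allSat_nil, fun b hb => ?_⟩
        have hXb : X (vI b) = false := by
          have := (num_eq_iff (Nat.two_pow_pos m)).1 h4 b (List.mem_range.1 hb)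
          simpa using this
        rw [allSat_append, all_single, any_cons, holds_false]
        exact ⟨all_dec (any_cons.2 (Or.inl (holds_false.2 hXb))), Or.inl hXb⟩
    · rw [if_neg hk]
      rcases hX h2 with ⟨i, h3, h4, h5⟩ | ⟨f', q', h3, h4, h5⟩
      · simp only [dst, src, if_neg hk] at h3 h4
        exact gen (h3.trans h4.symm) h5
      · simp only [Option.some.injEq, TM2.Stmt.push.injEq] at h3
        exact absurd h3.1 hk
  · rcases hX h2 with ⟨i, h3, h4, h5⟩ | ⟨f, q, h3, -⟩
    · exact gen (h3.trans h4.symm) h5
    · simp at h3
  · -- pop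
    change AllSat (cellCl tm m (some (.pop k f q), v) p) X Y
    simp only [cellCl]
    by_cases hk : k = p.1
    · rw [if_pos hk]
      rcases p with ⟨k', g⟩
      simp only at hk
      subst hk
      rcases hX h2 with ⟨i, h3, h4, h5⟩ | ⟨f', q', h3, -⟩
      · simp only [dst, src, if_true] at h3 h4
        rw [allSat_append, allSat_append, allSat_neCl, all_single, any_append,
          any_cons (G := []), holds_true, side_true, h4]
        refine ⟨⟨Or.inr (by omega), allSat_decCl_complete _ ?_⟩, Or.inr (Or.inl h5)⟩
        rw [side_false, side_true, h3, h4]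
      · simp at h3
    · rw [if_neg hk]
      rcases hX h2 with ⟨i, h3, h4, h5⟩ | ⟨f', q', h3, -⟩
      · simp only [dst, src, if_neg hk] at h3 h4
        exact gen (h3.trans h4.symm) h5
      · simp at h3
  · rcases hX h2 with ⟨i, h3, h4, h5⟩ | ⟨f, q, h3, -⟩
    · exact gen (h3.trans h4.symm) h5
    · simp at h3
  · rcases hX h2 with ⟨i, h3, h4, h5⟩ | ⟨f, q, h3, -⟩
    · exact gen (h3.trans h4.symm) h5
    · simp at h3
  · rcases hX h2 with ⟨i, h3, h4, h5⟩ | ⟨f, q, h3, -⟩
    · exact gen (h3.trans h4.symm) h5
    · simp at h3
  · rcases hX h2 with ⟨i, h3, h4, h5⟩ | ⟨f, q, h3, -⟩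
    · exact gen (h3.trans h4.symm) h5
    · simp at h3

theorem tm_sound {sym : Bool → tm.Γ tm.k₀} {x : List Bool} {m : ℕ} (hm : x.length ≤ m) {u : ℕ}
    {X : ℕ → Bool} (h : RWin (tmClauses tm sym m x) 2 u X) :
    (u = 0 → Good0 tm sym x m X) ∧ (u = 1 → Good1 tm sym x m X) := by
  classical
  induction h with
  | @acc u X Y hs =>
    rw [sat2] at hs
    unfold lab2 at hs
    rw [allSat_append, allSat_append, allSat_append, allSat_append, allSat_zeroCl,
      allSat_flatMap, allSat_flatMap, allSat_flatMap, allSat_flatMap, side_false] at hs
    obtain ⟨⟨⟨⟨hT, hc⟩, hp⟩, hin⟩, hout⟩ := hs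
    constructor
    · intro _ c hcm hX
      rw [hT]
      have h1 := hc c hcm
      split_ifs at h1 with h2
      · rw [h2]; rfl
      · rw [all_single, any_cons, any_nil, holds_false, hX] at h1
        simp at h1
    · intro _ p hpm hX
      rw [hT]
      change ((MC.of (initList tm (x.map sym))).S p.1)[num m vI X]? = p.2
      by_cases hk : p.1 = tm.k₀
      · rcases p with ⟨k, g⟩
        simp only at hk
        subst hk
        rw [init_S0]
        by_cases hI : num m vI X < x.length
        · have h1 := hin (num m vI X) (List.mem_range.2 hI)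
          unfold inCl at h1
          rw [allSat_append, allSat_flatMap] at h1
          have h2 := h1.1 g (mem_prs.1 hpm)
          split_ifs at h2 with h3
          · simp only
            rw [h3, List.getElem?_map]
          · exfalso
            rw [all_single, any_cons, any_map, holds_false, hX] at h2
            rcases h2 with h2 | ⟨j, hj, h2⟩
            · exact absurd h2 (by simp)
            · rw [holds_false] at h2
              have h4 := (num_eq_iff (num_lt m vI X)).1 rfl j (List.mem_range.1 hj)
              rw [h4] at h2
              simp at h2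
        · have hnone : (x.map sym)[num m vI X]? = none := by
            rw [List.getElem?_eq_none_iff, List.length_map]
            omega
          simp only
          rw [hnone]
          by_contra hg
          have h1 := hout g (mem_prs.1 hpm)
          rw [if_neg (Ne.symm hg), all_single, any_cons, any_map, holds_false, hX] at h1
          rcases h1 with h1 | ⟨i, hi, h1⟩
          · exact absurd h1 (by simp)
          · rw [holds_true] at h1
            apply hI
            have h2 := hin i hi
            unfold inCl at h2
            rw [allSat_append, all_map] at h2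
            have h3 : num m vI X = i := by
              have hi' := List.mem_range.1 hi
              have : i < 2 ^ m := lt_of_lt_of_le hi' (hm.trans (Nat.lt_two_pow_self).le)
              rw [num_eq_iff this]
              intro j hj
              have h4 := h2.2 j (List.mem_range.2 hj)
              rw [any_cons, any_cons, any_nil, holds_true, holds_false, h1] at h4
              simpa using h4
            rw [h3]
            exact List.mem_range.1 hi
      · rw [init_S tm _ hk]
        have h1 := hp p hpm
        split_ifs at h1 with h2
        · rcases h2 with h2 | h2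
          · exact absurd h2 hk
          · rw [h2]; rfl
        · rw [all_single, any_cons, any_nil, holds_false, hX] at h1
          simp at h1
  | @step u X Y hs _ ih =>
    have g0 : Good0 tm sym x m Y := (ih 0 (by norm_num)).1 rfl
    have g1 : Good1 tm sym x m Y := (ih 1 (by norm_num)).2 rfl
    -- common clauses
    have com : AllSat (comCl tm m) X Y → num m vT Y + 1 = num m vT X ∧
        Y (vC tm (ctl (cfg tm sym x (num m vT Y)))) = true := by
      intro h
      unfold comCl at h
      rw [allSat_append, allSat_append, allSat_neCl, all_single, any_map] at h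
      obtain ⟨⟨h1, h2⟩, c, hc, h3⟩ := h
      have h1' := h1.resolve_left (by rw [any_nil]; simp)
      have h4 := allSat_decCl_sound h2 (by rw [any_nil]; simp) h1'
      rw [side_false, side_true] at h4
      rw [holds_true] at h3
      refine ⟨h4, ?_⟩
      have := g0 c hc h3
      rwa [← this]
    constructor
    · rintro rfl
      rw [sat0] at hs
      unfold lab0 at hs
      rw [allSat_append, allSat_append, allSat_zeroCl, allSat_flatMap, side_true] at hs
      obtain ⟨⟨hcom, hI⟩, hcl⟩ := hs
      obtain ⟨hT, hY⟩ := com hcom
      intro c hcm hX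
      rw [← hT, cfg_succ]
      have h1 := hcl _ (cfg_ctl sym x (num m vT Y))
      rw [allSat_append, allSat_flatMap] at h1
      refine ctlCl_sound (h1.2 c hcm) h1.1 hY hX ?_
      intro k g hg hYp
      have := g1 ⟨k, g⟩ (mem_prs.2 hg) hYp
      rwa [hI] at this
    · rintro rfl
      rw [sat1] at hs
      unfold lab1 at hs
      rw [allSat_append, allSat_flatMap] at hs
      obtain ⟨hcom, hcl⟩ := hs
      obtain ⟨hT, hY⟩ := com hcom
      intro p hpm hX
      rw [← hT, cfg_succ]
      have h1 := hcl _ (cfg_ctl sym x (num m vT Y))
      rw [allSat_flatMap] at h1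
      exact cellCl_sound (h1 p hpm) hY hX (fun h => g1 p hpm h)

/-! ### Assignments -/

open Classical in
/-- The assignment with given time, index, control claim and cell claim. -/
private noncomputable def mkA (T I : ℕ) (c : Ctl tm) (P : Option (Pr tm)) : ℕ → Bool := fun v =>
  if v % 5 = 0 then T.testBit (v / 5)
  else if v % 5 = 1 then I.testBit (v / 5)
  else if v % 5 = 2 then decide (v = vC tm c)
  else if v % 5 = 3 then decide (∃ p, P = some p ∧ v = vP tm p)
  else false

private theorem mkA_T {T I : ℕ} {c : Ctl tm} {P : Option (Pr tm)} {m : ℕ} (h : T < 2 ^ m) :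
    num m vT (mkA T I c P) = T := by
  rw [num_eq_iff h]
  intro j _
  unfold mkA vT
  rw [if_pos (by omega)]
  congr 1
  omega

private theorem mkA_I {T I : ℕ} {c : Ctl tm} {P : Option (Pr tm)} {m : ℕ} (h : I < 2 ^ m) :
    num m vI (mkA T I c P) = I := by
  rw [num_eq_iff h]
  intro j _
  unfold mkA vI
  rw [if_neg (by omega), if_pos (by omega)]
  congr 1
  omega

private theorem mkA_C {T I : ℕ} {c : Ctl tm} {P : Option (Pr tm)} {c' : Ctl tm}
    (hc : c ∈ ctls tm) : mkA T I c P (vC tm c') = true ↔ c' = c := by
  classical
  unfold mkA
  have h2 : vC tm c' % 5 = 2 := by unfold vC; omega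
  rw [if_neg (by omega), if_neg (by omega), if_pos h2, decide_eq_true_iff]
  constructor
  · intro h
    unfold vC at h
    have h' : (ctls tm).idxOf c = (ctls tm).idxOf c' := by omega
    exact ((List.idxOf_inj hc).1 h').symm
  · rintro rfl; rfl

private theorem vP_inj {p p' : Pr tm} (hp : p ∈ prs tm) (h : vP tm p = vP tm p') : p = p' := by
  classical
  unfold vP at h
  have h' : (prs tm).idxOf p = (prs tm).idxOf p' := by omega
  exact (List.idxOf_inj hp).1 h'

private theorem mkA_P {T I : ℕ} {c : Ctl tm} {P : Option (Pr tm)} {p : Pr tm}
    (hp : p ∈ prs tm) : mkA T I c P (vP tm p) = true ↔ P = some p := by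
  classical
  unfold mkA
  have h2 : vP tm p % 5 = 3 := by unfold vP; omega
  rw [if_neg (by omega), if_neg (by omega), if_neg (by omega), if_pos h2, decide_eq_true_iff]
  constructor
  · rintro ⟨p', h, h'⟩
    rw [vP_inj hp h']; exact h
  · intro h
    exact ⟨p, h, rfl⟩

private theorem mkA_good0 {sym : Bool → tm.Γ tm.k₀} {x : List Bool} {m T I : ℕ}
    {P : Option (Pr tm)} (h : T < 2 ^ m) :
    Good0 tm sym x m (mkA T I (ctl (cfg tm sym x T)) P) := by
  intro c _ hX
  rw [mkA_T h]
  exact (mkA_C (cfg_ctl sym x T)).1 hX

private theorem mkA_good1 {sym : Bool → tm.Γ tm.k₀} {x : List Bool} {m T I : ℕ}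
    {c : Ctl tm} {P : Option (Pr tm)} (h : T < 2 ^ m) (hI : I < 2 ^ m)
    (hP : ∀ p, P = some p → ((cfg tm sym x T).S p.1)[I]? = p.2) :
    Good1 tm sym x m (mkA T I c P) := by
  intro p hp hX
  rw [mkA_T h, mkA_I hI]
  exact hP p ((mkA_P hp).1 hX)

private theorem mkA_one {T I : ℕ} {c : Ctl tm} {P : Option (Pr tm)} :
    ∀ p ∈ prs tm, ∀ p' ∈ prs tm, mkA (tm := tm) T I c P (vP tm p) = true →
      mkA T I c P (vP tm p') = true → p = p' := by
  intro p hp p' hp' h h'
  have h1 := (mkA_P hp).1 h
  have h2 := (mkA_P hp').1 h'
  rw [h1] at h2
  exact Option.some_injective _ h2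

theorem tm_complete {sym : Bool → tm.Γ tm.k₀} {x : List Bool} {m : ℕ} (hm : x.length ≤ m) {u : ℕ}
    (hu : u < 2) {X : ℕ → Bool} (h0 : Good0 tm sym x m X) (h1 : Good1 tm sym x m X)
    (hp : ∀ p ∈ prs tm, ∀ p' ∈ prs tm, X (vP tm p) = true → X (vP tm p') = true → p = p')
    (hb : num m vT X + num m vI X < 2 ^ m) : RWin (tmClauses tm sym m x) 2 u X := by
  classical
  induction hT : num m vT X generalizing X u with
  | zero =>
    refine RWin.acc (Y := fun v => decide (v = vE (num m vI X))) ?_
    rw [sat2]
    unfold lab2
    rw [allSat_append, allSat_append, allSat_append, allSat_append, allSat_zeroCl,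
      allSat_flatMap, allSat_flatMap, allSat_flatMap, allSat_flatMap, side_false]
    refine ⟨⟨⟨⟨hT, ?_⟩, ?_⟩, ?_⟩, ?_⟩
    · intro c hc
      split_ifs with h2
      · exact allSat_nil
      · rw [all_single, any_cons, holds_false]
        left
        by_contra h3
        apply h2
        have := h0 c hc (by simpa using h3)
        rw [hT] at this
        exact this
    · intro p hpm
      split_ifs with h2
      · exact allSat_nil
      · rw [all_single, any_cons, holds_false]
        left
        by_contra h3
        apply h2
        right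
        have := h1 p hpm (by simpa using h3)
        rw [hT] at this
        change ((MC.of (initList tm (x.map sym))).S p.1)[num m vI X]? = p.2 at this
        rw [init_S tm _ (fun h => h2 (Or.inl h))] at this
        rw [← this]
        simp
    · intro i hi
      have hi' := List.mem_range.1 hi
      have hi2 : i < 2 ^ m := lt_of_lt_of_le hi' (hm.trans (Nat.lt_two_pow_self).le)
      unfold inCl
      rw [allSat_append, allSat_flatMap, all_map]
      constructor
      · intro g hg
        split_ifs with h2
        · exact allSat_nil
        · rw [all_single, any_cons, any_map, holds_false]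
          by_cases h3 : X (vP tm ⟨tm.k₀, g⟩) = true
          · right
            have h4 := h1 ⟨tm.k₀, g⟩ (mem_prs.2 hg) h3
            rw [hT] at h4
            change ((MC.of (initList tm (x.map sym))).S tm.k₀)[num m vI X]? = g at h4
            rw [init_S0, List.getElem?_map] at h4
            have h5 : num m vI X ≠ i := by
              intro h5
              rw [h5] at h4
              exact h2 h4.symm
            by_contra hcon
            push Not at hcon
            apply h5
            rw [num_eq_iff hi2]
            intro j hj
            have := hcon j (List.mem_range.2 hj)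
            rw [holds_false] at this
            simpa using this
          · left; simpa using h3
      · intro j hj
        rw [any_cons, any_cons, holds_true, holds_false]
        by_cases h2 : i = num m vI X
        · right; left
          have := (num_eq_iff hi2).1 h2.symm j (List.mem_range.1 hj)
          exact this
        · left
          rw [decide_eq_false_iff_not]
          intro h3
          apply h2
          unfold vE at h3
          omega
    · intro g hg
      split_ifs with h2
      · exact allSat_nil
      · rw [all_single, any_cons, any_map, holds_false]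
        by_cases h3 : X (vP tm ⟨tm.k₀, g⟩) = true
        · right
          have h4 := h1 ⟨tm.k₀, g⟩ (mem_prs.2 hg) h3
          rw [hT] at h4
          change ((MC.of (initList tm (x.map sym))).S tm.k₀)[num m vI X]? = g at h4
          rw [init_S0] at h4
          refine ⟨num m vI X, List.mem_range.2 ?_, ?_⟩
          · by_contra h5
            apply h2
            rw [← h4, List.getElem?_eq_none_iff, List.length_map]
            omega
          · rw [holds_true]
            simp
        · left; simpa using h3
  | succ T ih =>
    have hT2 : T < 2 ^ m := by omega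
    -- common clauses
    have com : ∀ (I : ℕ) (P : Option (Pr tm)),
        AllSat (comCl tm m) X (mkA T I (ctl (cfg tm sym x T)) P) := by
      intro I P
      unfold comCl
      rw [allSat_append, allSat_append, allSat_neCl, all_single, any_map, side_false, hT]
      refine ⟨⟨Or.inr (by omega), allSat_decCl_complete _ ?_⟩, ?_⟩
      · rw [side_false, side_true, mkA_T hT2, hT]
      · refine ⟨ctl (cfg tm sym x T), cfg_ctl sym x T, ?_⟩
        rw [holds_true, mkA_C (cfg_ctl sym x T)]
    -- reduction to the choice of an assignment
    have red : ∀ (I : ℕ) (P : Option (Pr tm)), T + I < 2 ^ m →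
        (∀ p, P = some p → ((cfg tm sym x T).S p.1)[I]? = p.2) →
        Sat (tmClauses tm sym m x) u X (mkA T I (ctl (cfg tm sym x T)) P) →
        RWin (tmClauses tm sym m x) 2 u X := by
      intro I P hI hP hs
      refine RWin.step hs fun u' hu' => ?_
      refine ih hu' (mkA_good0 hT2) (mkA_good1 hT2 (by omega) hP) mkA_one ?_
        (mkA_T hT2)
      rw [mkA_T hT2, mkA_I (by omega)]
      exact hI
    rcases (by omega : u = 0 ∨ u = 1) with rfl | rfl
    · -- label 0
      have key : ∀ P : Option (Pr tm),
          (∀ p, P = some p → ((cfg tm sym x T).S p.1)[0]? = p.2) →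
          (∀ k, look (cfg tm sym x T).s = some k → ∃ g ∈ Gl tm k, P = some ⟨k, g⟩) →
          RWin (tmClauses tm sym m x) 2 0 X := by
        intro P hP hL
        refine red 0 P (by omega) hP ?_
        rw [sat0]
        unfold lab0
        rw [allSat_append, allSat_append, allSat_zeroCl, allSat_flatMap, side_true,
          mkA_I (Nat.two_pow_pos m)]
        refine ⟨⟨com 0 P, rfl⟩, ?_⟩
        intro c' hc'
        rw [allSat_append, allSat_flatMap]
        refine ⟨topCl_complete (M := cfg tm sym x T) (fun h => (mkA_C (cfg_ctl sym x T)).1 h) ?_,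
          fun c hc => ?_⟩
        · intro k hk
          obtain ⟨g, hg, h⟩ := hL k hk
          exact ⟨g, hg, (mkA_P (mem_prs.2 hg)).2 h⟩
        · refine ctlCl_complete (M := cfg tm sym x T) (fun h => (mkA_C (cfg_ctl sym x T)).1 h)
            (fun h => ?_) ?_
          · have := h0 c hc h
            rw [hT, cfg_succ] at this
            exact this
          · intro k g hg h
            exact hP ⟨k, g⟩ ((mkA_P (mem_prs.2 hg)).1 h)
      cases hl : look (cfg tm sym x T).s with
      | none => exact key none (by simp) (by rw [hl]; simp)
      | some k =>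
        refine key (some ⟨k, ((cfg tm sym x T).S k)[0]?⟩) ?_ ?_
        · intro p hp'
          rw [← Option.some_injective _ hp']
        · intro k' hk'
          rw [hl] at hk'
          have := Option.some_injective _ hk'
          subst this
          exact ⟨_, mem_Gl tm (cfg_sym sym x T) k 0, rfl⟩
    · -- label 1
      have key : ∀ (I : ℕ) (P : Option (Pr tm)), T + I < 2 ^ m →
          (∀ p, P = some p → ((cfg tm sym x T).S p.1)[I]? = p.2) →
          (∀ p ∈ prs tm, X (vP tm p) = true →
            (∃ i, num m vI X = dst tm (cfg tm sym x T).s p.1 i ∧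
              I = src tm (cfg tm sym x T).s p.1 i ∧ P = some p) ∨
            (∃ f q, (cfg tm sym x T).s = some (.push p.1 f q) ∧ num m vI X = 0 ∧
              p.2 = some (f (cfg tm sym x T).v))) →
          RWin (tmClauses tm sym m x) 2 1 X := by
        intro I P hI hP hX
        refine red I P hI hP ?_
        rw [sat1]
        unfold lab1
        rw [allSat_append, allSat_flatMap]
        refine ⟨com I P, ?_⟩
        intro c' hc'
        rw [allSat_flatMap]
        intro p hpm
        refine cellCl_complete (M := cfg tm sym x T) (fun h => (mkA_C (cfg_ctl sym x T)).1 h) ?_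
        intro h
        rw [mkA_I (by omega)]
        rcases hX p hpm h with ⟨i, h3, h4, h5⟩ | h3
        · exact Or.inl ⟨i, h3, h4, (mkA_P hpm).2 h5⟩
        · exact Or.inr h3
      by_cases hex : ∃ p ∈ prs tm, X (vP tm p) = true
      · obtain ⟨p, hpm, hX⟩ := hex
        have huniq : ∀ p' ∈ prs tm, X (vP tm p') = true → p' = p :=
          fun p' hp' h => hp p' hp' p hpm h hX
        have hg := h1 p hpm hX
        rw [hT, cfg_succ] at hg
        by_cases hpush : ∃ f q, (cfg tm sym x T).s = some (.push p.1 f q)
        · obtain ⟨f, q, hs⟩ := hpush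
          by_cases hI : num m vI X = 0
          · refine key 0 none (by omega) (by simp) ?_
            intro p' hp' hX'
            have := huniq p' hp' hX'
            subst this
            right
            refine ⟨f, q, hs, hI, ?_⟩
            rw [hI] at hg
            rw [← hg]
            unfold MC.next
            rw [hs]
            simp
          · obtain ⟨i, hi⟩ := Nat.exists_eq_succ_of_ne_zero hI
            have hd : dst tm (cfg tm sym x T).s p.1 i = i + 1 := by
              rw [hs]; simp [dst]
            have hsr : src tm (cfg tm sym x T).s p.1 i = i := by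
              rw [hs]; simp [src]
            refine key i (some p) (by omega) ?_ ?_
            · intro p' hp'
              have := Option.some_injective _ hp'
              subst this
              have hn := next_cell tm (cfg tm sym x T) p.1 i
              rw [hd, hsr] at hn
              rw [← hn, ← hg, hi]
            · intro p' hp' hX'
              have := huniq p' hp' hX'
              subst this
              exact Or.inl ⟨i, by rw [hd, hi], hsr.symm, rfl⟩
        · have hd : dst tm (cfg tm sym x T).s p.1 (num m vI X) = num m vI X := by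
            generalize (cfg tm sym x T).s = s at hpush
            rcases s with _ | (⟨k, f, q⟩ | ⟨k, f, q⟩ | ⟨k, f, q⟩ | ⟨f, q⟩ | ⟨pp, q₁, q₂⟩ | l | _) <;>
              try rfl
            simp only [dst]
            by_cases hk : k = p.1
            · exfalso
              subst hk
              exact hpush ⟨f, q, rfl⟩
            · rw [if_neg hk]
          have hsr : src tm (cfg tm sym x T).s p.1 (num m vI X) ≤ num m vI X + 1 := by
            generalize (cfg tm sym x T).s = s
            rcases s with _ | (⟨k, f, q⟩ | ⟨k, f, q⟩ | ⟨k, f, q⟩ | ⟨f, q⟩ | ⟨pp, q₁, q₂⟩ | l | _) <;>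
              simp only [src] <;> try omega
            split_ifs <;> omega
          refine key (src tm (cfg tm sym x T).s p.1 (num m vI X)) (some p) (by omega) ?_ ?_
          · intro p' hp'
            have := Option.some_injective _ hp'
            subst this
            have hn := next_cell tm (cfg tm sym x T) p.1 (num m vI X)
            rw [hd] at hn
            rw [← hn, ← hg]
          · intro p' hp' hX'
            have := huniq p' hp' hX'
            subst this
            exact Or.inl ⟨num m vI X, hd.symm, rfl, rfl⟩
      · refine key 0 none (by omega) (by simp) ?_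
        intro p hpm hX
        exact absurd ⟨p, hpm, hX⟩ hex

/-- The base game describes the computation. -/
theorem tm_correct {sym : Bool → tm.Γ tm.k₀} {x : List Bool} {m : ℕ} (hm : x.length ≤ m)
    {g : tm.Γ tm.k₁} (hg : (⟨tm.k₁, some g⟩ : Pr tm) ∈ prs tm) :
    RWin (tmClauses tm sym m x) 2 1 (fun v => decide (v ∈ tmTrue tm g m)) ↔
      ((cfg tm sym x (2 ^ m - 1)).S tm.k₁)[0]? = some g := by
  classical
  set X : ℕ → Bool := fun v => decide (v ∈ tmTrue tm g m) with hX
  have hT : num m vT X = 2 ^ m - 1 := by
    rw [num_eq_iff (by have := Nat.two_pow_pos m; omega)]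
    intro j hj
    rw [Nat.testBit_two_pow_sub_one, hX]
    simp only [hj, decide_true, decide_eq_true_eq]
    unfold tmTrue
    exact List.mem_cons_of_mem _ (List.mem_map.2 ⟨j, List.mem_range.2 hj, rfl⟩)
  have hI : num m vI X = 0 := by
    rw [num_eq_iff (Nat.two_pow_pos m)]
    intro j hj
    rw [hX]
    simp only [Nat.zero_testBit, decide_eq_false_iff_not]
    unfold tmTrue
    rw [List.mem_cons, List.mem_map]
    rintro (h | ⟨i, _, h⟩)
    · unfold vI vP at h; omega
    · unfold vI vT at h; omega
  have hC : ∀ c, X (vC tm c) = false := by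
    intro c
    rw [hX]
    simp only [decide_eq_false_iff_not]
    unfold tmTrue
    rw [List.mem_cons, List.mem_map]
    rintro (h | ⟨i, _, h⟩)
    · unfold vC vP at h; omega
    · unfold vC vT at h; omega
  have hP : ∀ p, X (vP tm p) = true ↔ p = ⟨tm.k₁, some g⟩ := by
    intro p
    rw [hX]
    simp only [decide_eq_true_eq]
    unfold tmTrue
    rw [List.mem_cons, List.mem_map]
    constructor
    · rintro (h | ⟨i, _, h⟩)
      · exact (vP_inj hg h.symm).symm
      · exfalso
        unfold vP vT at h; omega
    · rintro rfl
      exact Or.inl rfl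
  constructor
  · intro h
    have h1 := (tm_sound hm h).2 rfl _ hg ((hP _).2 rfl)
    rw [hT, hI] at h1
    exact h1
  · intro h
    refine tm_complete hm (by norm_num) ?_ ?_ ?_ ?_
    · intro c _ hc
      rw [hC] at hc
      exact absurd hc (by simp)
    · intro p _ hp
      have := (hP p).1 hp
      subst this
      rw [hT, hI]
      exact h
    · intro p _ p' _ h1 h2
      rw [(hP p).1 h1, (hP p').1 h2]
    · rw [hT, hI]
      have := Nat.two_pow_pos m
      omega

end Pool.Agent.W_MP_901ac1_lc
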