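import Pool.Agent.W_MP_901ac1_lc.Base

/-!
# The structured game is the game on the numerical instance
-/

set_option autoImplicit false

namespace Pool.Agent.W_MP_901ac1_lc

/-! ### Private vertices -/

lemma Loc.off_lt (l : Loc) : l.off < 9 := by cases l <;> decide

lemma Loc.off_inj {l l' : Loc} (h : l.off = l'.off) : l = l' := by
  cases l <;> cases l' <;> simp_all [Loc.off]

lemma Loc.mem_all (l : Loc) : l ∈ Loc.all := by cases l <;> decide

lemma Loc.edge_irrefl (g : Bool) (l : Loc) : l.edge g l = false := by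
  cases g <;> cases l <;> decide

/-! ### Valid vertices and their codes -/

/-- The vertices that occur. -/
def Valid (B : Base) : Vx → Prop
  | .M _ => True
  | .P _ x _ => x < B.m
  | .W _ u => u < B.U
  | .D _ u => u ≤ B.U
  | .K _ k => k < B.cl.length

lemma code_lt {B : Base} {v : Vx} (h : Valid B v) :
    code B.m v < 8 + 18 * B.m + 6 * (B.U + 1 + B.cl.length) := by
  cases v with
  | M v => have := v.2; simp only [code]; omega
  | P g x l =>
    have := l.off_lt
    simp only [Valid] at h
    simp only [code, cP, cP0]; split_ifs <;> omega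
  | W g u => simp only [Valid] at h; simp only [code, cW]; split_ifs <;> omega
  | D g u => simp only [Valid] at h; simp only [code, cD]; split_ifs <;> omega
  | K g u => simp only [Valid] at h; simp only [code, cK]; split_ifs <;> omega

lemma cP_lt {m : ℕ} {g : Bool} {x : ℕ} {l : Loc} (h : x < m) :
    8 ≤ cP m g x l ∧ cP m g x l < 8 + 18 * m := by
  have := l.off_lt
  simp only [cP, cP0]
  split_ifs <;> omega

lemma cP_inj {m : ℕ} {g g' : Bool} {x x' : ℕ} {l l' : Loc} (h : x < m) (h' : x' < m)
    (e : cP m g x l = cP m g' x' l') : g = g' ∧ x = x' ∧ l = l' := by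
  have := l.off_lt
  have := l'.off_lt
  simp only [cP, cP0] at e
  cases g <;> cases g' <;> simp only [if_true, Bool.false_eq_true, if_false] at e
  · exact ⟨rfl, by omega, Loc.off_inj (by omega)⟩
  · omega
  · omega
  · exact ⟨rfl, by omega, Loc.off_inj (by omega)⟩

lemma code_inj {B : Base} {v w : Vx} (hv : Valid B v) (hw : Valid B w)
    (e : code B.m v = code B.m w) : v = w := by
  cases v with
  | M v =>
    have h1 := v.2
    cases w with
    | M w => simp only [code] at e; rw [Fin.ext e]
    | P g x l => have := cP_lt (g := g) (l := l) hw; simp only [code] at e; omega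
    | W g u => simp only [code, cW] at e; split_ifs at e <;> omega
    | D g u => simp only [code, cD] at e; split_ifs at e <;> omega
    | K g u => simp only [code, cK] at e; split_ifs at e <;> omega
  | P g x l =>
    have h1 := cP_lt (g := g) (l := l) hv
    cases w with
    | M w => have := w.2; simp only [code] at e; omega
    | P g' x' l' =>
      simp only [code] at e
      obtain ⟨rfl, rfl, rfl⟩ := cP_inj hv hw e
      rfl
    | W g u => simp only [code, cW] at e; split_ifs at e <;> omega
    | D g u => simp only [code, cD] at e; split_ifs at e <;> omega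
    | K g u => simp only [code, cK] at e; split_ifs at e <;> omega
  | W g u =>
    cases w with
    | M w => have := w.2; simp only [code, cW] at e; split_ifs at e <;> omega
    | P g' x l =>
      have := cP_lt (g := g') (l := l) hw
      simp only [code, cW] at e; split_ifs at e <;> omega
    | W g' u' =>
      simp only [code, cW] at e
      cases g <;> cases g' <;> simp only [if_true, Bool.false_eq_true, if_false] at e <;>
        first | omega | (obtain rfl : u = u' := by omega
                         rfl)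
    | D g' u' => simp only [code, cW, cD] at e; split_ifs at e <;> omega
    | K g' u' => simp only [code, cW, cK] at e; split_ifs at e <;> omega
  | D g u =>
    cases w with
    | M w => have := w.2; simp only [code, cD] at e; split_ifs at e <;> omega
    | P g' x l =>
      have := cP_lt (g := g') (l := l) hw
      simp only [code, cD] at e; split_ifs at e <;> omega
    | W g' u' => simp only [code, cW, cD] at e; split_ifs at e <;> omega
    | D g' u' =>
      simp only [code, cD] at e
      cases g <;> cases g' <;> simp only [if_true, Bool.false_eq_true, if_false] at e <;>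
        first | omega | (obtain rfl : u = u' := by omega
                         rfl)
    | K g' u' => simp only [code, cD, cK] at e; split_ifs at e <;> omega
  | K g u =>
    cases w with
    | M w => have := w.2; simp only [code, cK] at e; split_ifs at e <;> omega
    | P g' x l =>
      have := cP_lt (g := g') (l := l) hw
      simp only [code, cK] at e; split_ifs at e <;> omega
    | W g' u' => simp only [code, cW, cK] at e; split_ifs at e <;> omega
    | D g' u' => simp only [code, cK, cD] at e; split_ifs at e <;> omega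
    | K g' u' =>
      simp only [code, cK] at e
      cases g <;> cases g' <;> simp only [if_true, Bool.false_eq_true, if_false] at e <;>
        first | omega | (obtain rfl : u = u' := by omega
                         rfl)

/-! ### Edges -/

lemma mem_tokEdges {m : ℕ} {g : Bool} {x : ℕ} {e : ℕ × ℕ} :
    e ∈ tokEdges m g x ↔
      ∃ l l' : Loc, l.edge g l' = true ∧ e = (cP m g x l, cP m g x l') := by
  simp only [tokEdges, relEdges, List.mem_map, List.mem_flatMap, List.mem_filter]
  constructor
  · rintro ⟨_, ⟨l, _, l', ⟨_, h⟩, rfl⟩, rfl⟩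
    exact ⟨l, l', h, rfl⟩
  · rintro ⟨l, l', h, rfl⟩
    exact ⟨_, ⟨l, l.mem_all, l', ⟨l'.mem_all, h⟩, rfl⟩, rfl⟩

lemma mem_toM {a : ℕ} {l : List (Fin 8)} {e : ℕ × ℕ} :
    e ∈ toM a l ↔ ∃ w ∈ l, e = (a, (w : ℕ)) := by
  simp only [toM, List.mem_map, List.pure_def, List.bind_eq_flatMap, List.mem_flatMap,
    List.mem_cons, List.not_mem_nil, or_false]
  constructor
  · rintro ⟨_, ⟨w, hw, rfl⟩, rfl⟩
    exact ⟨w, hw, rfl⟩
  · rintro ⟨w, hw, rfl⟩
    exact ⟨_, ⟨w, hw, rfl⟩, rfl⟩

lemma mem_ctlEdges {B : Base} {e : ℕ × ℕ} :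
    e ∈ ctlEdges B.m B.U B.cl ↔ ∃ u v, CEdge B u v ∧ e = (code B.m u, code B.m v) := by
  constructor
  · intro h
    simp only [ctlEdges, List.mem_append, List.mem_flatMap, mem_toM, List.mem_filter,
      List.mem_finRange, true_and, List.mem_cons, List.not_mem_nil, or_false,
      List.mem_range, List.mem_map, decide_eq_true_eq, Option.mem_toList, List.pure_def,
      List.bind_eq_flatMap] at h
    rcases h with ⟨_, ⟨v, rfl⟩, w, hw, rfl⟩ | ⟨g, _, h⟩
    · exact ⟨.M v, .M w, .MM hw, rfl⟩
    · rcases h with ((h | h) | h) | h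
      · obtain ⟨x, hx, l, -, w, hw, rfl⟩ := h
        exact ⟨.P g x l, .M w, .PM hx hw, rfl⟩
      · obtain ⟨u, hu, h⟩ := h
        rcases h with ((h | h) | h) | h
        · obtain ⟨w, hw, rfl⟩ := h
          exact ⟨.W g u, .M w, .WM hu hw.1 hw.2, rfl⟩
        · obtain ⟨x, hx, rfl | rfl⟩ := h
          · exact ⟨.W g u, .P g x .c1, .WP1 hu hx, rfl⟩
          · exact ⟨.W g u, .P g x .c3, .WP3 hu hx, rfl⟩
        · rcases h with rfl | rfl
          · exact ⟨.W g u, .D g u, .WD hu, rfl⟩
          · exact ⟨.W g u, .D g B.U, .WU hu, rfl⟩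
        · obtain ⟨u', hu', rfl⟩ := h
          exact ⟨.D g u, .W (!g) u', .DW hu hu', rfl⟩
      · obtain ⟨u, hu, w, hw, rfl⟩ := h
        exact ⟨.D g u, .M w, .DM (by omega) hw, rfl⟩
      · obtain ⟨k, hk, h⟩ := h
        rcases h with h | h
        · obtain ⟨w, hw, rfl⟩ := h
          exact ⟨.K g k, .M w, .KM hk hw, rfl⟩
        · obtain ⟨⟨u, c⟩, hc, h⟩ := h
          rcases h with h | h
          · split_ifs at h with hu
            · simp only [List.mem_cons, List.not_mem_nil, or_false] at h
              exact ⟨.D g u, .K g k, .DK hu hc, h⟩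
            · simp at h
          · obtain ⟨l, hl, rfl | rfl⟩ := h
            · exact ⟨.K g k, _, .KP hc hl, rfl⟩
            · exact ⟨.K g k, _, .KH hc hl, rfl⟩
  · rintro ⟨u, v, h, rfl⟩
    have hg : ∀ g : Bool, g = false ∨ g = true := by intro g; cases g <;> simp
    simp only [ctlEdges, List.mem_append, List.mem_flatMap, mem_toM, List.mem_filter,
      List.mem_finRange, true_and, List.mem_cons, List.not_mem_nil, or_false,
      List.mem_range, List.mem_map, decide_eq_true_eq, Option.mem_toList, List.pure_def,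
      List.bind_eq_flatMap]
    cases h with
    | @MM v w h => exact Or.inl ⟨_, ⟨v, rfl⟩, w, h, rfl⟩
    | @PM g x l w hx h =>
      exact Or.inr ⟨g, hg g, Or.inl (Or.inl (Or.inl ⟨x, hx, l, l.mem_all, w, h, rfl⟩))⟩
    | @WM g u w hu h h' =>
      exact Or.inr ⟨g, hg g, Or.inl (Or.inl (Or.inr ⟨u, hu,
        Or.inl (Or.inl (Or.inl ⟨w, ⟨h, h'⟩, rfl⟩))⟩))⟩
    | @WP1 g u x hu hx =>
      exact Or.inr ⟨g, hg g, Or.inl (Or.inl (Or.inr ⟨u, hu,
        Or.inl (Or.inl (Or.inr ⟨x, hx, Or.inl rfl⟩))⟩))⟩
    | @WP3 g u x hu hx =>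
      exact Or.inr ⟨g, hg g, Or.inl (Or.inl (Or.inr ⟨u, hu,
        Or.inl (Or.inl (Or.inr ⟨x, hx, Or.inr rfl⟩))⟩))⟩
    | @WD g u hu =>
      exact Or.inr ⟨g, hg g, Or.inl (Or.inl (Or.inr ⟨u, hu, Or.inl (Or.inr (Or.inl rfl))⟩))⟩
    | @WU g u hu =>
      exact Or.inr ⟨g, hg g, Or.inl (Or.inl (Or.inr ⟨u, hu, Or.inl (Or.inr (Or.inr rfl))⟩))⟩
    | @DM g u w hu hw =>
      exact Or.inr ⟨g, hg g, Or.inl (Or.inr ⟨u, by omega, w, hw, rfl⟩)⟩
    | @DK g u k c hu hc =>
      refine Or.inr ⟨g, hg g, Or.inr ⟨k, ?_, Or.inr ⟨(u, c), hc, Or.inl ?_⟩⟩⟩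
      · exact (List.getElem?_eq_some_iff.1 hc).1
      · simp [hu, code]
    | @DW g u u' hu hu' =>
      exact Or.inr ⟨g, hg g, Or.inl (Or.inl (Or.inr ⟨u, hu, Or.inr ⟨u', hu', rfl⟩⟩))⟩
    | @KM g k w hk hw =>
      exact Or.inr ⟨g, hg g, Or.inr ⟨k, hk, Or.inl ⟨w, hw, rfl⟩⟩⟩
    | @KP g k u c l hc hl =>
      exact Or.inr ⟨g, hg g, Or.inr ⟨k, (List.getElem?_eq_some_iff.1 hc).1, Or.inr ⟨(u, c), hc,
        Or.inr ⟨l, hl, Or.inl rfl⟩⟩⟩⟩
    | @KH g k u c l hc hl =>
      exact Or.inr ⟨g, hg g, Or.inr ⟨k, (List.getElem?_eq_some_iff.1 hc).1, Or.inr ⟨(u, c), hc,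
        Or.inr ⟨l, hl, Or.inr rfl⟩⟩⟩⟩

lemma CEdge.valid {B : Base} (hB : B.WF) {u v : Vx} (h : CEdge B u v) :
    Valid B u ∧ Valid B v ∧ u ≠ v := by
  cases h with
  | MM h => exact ⟨trivial, trivial, fun e => by injection e with e; exact (ne_of_gt h) e⟩
  | PM hx h => exact ⟨hx, trivial, by simp⟩
  | WM hu h h' => exact ⟨hu, trivial, by simp⟩
  | WP1 hu hx => exact ⟨hu, hx, by simp⟩
  | WP3 hu hx => exact ⟨hu, hx, by simp⟩
  | WD hu => exact ⟨hu, hu.le, by simp⟩
  | WU hu => exact ⟨hu, le_rfl, by simp⟩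
  | DM hu hw => exact ⟨hu, trivial, by simp⟩
  | DK hu hc => exact ⟨hu, (List.getElem?_eq_some_iff.1 hc).1, by simp⟩
  | DW hu hu' => exact ⟨hu.le, hu', by simp⟩
  | KM hk hw => exact ⟨hk, trivial, by simp⟩
  | KP hc hl =>
    exact ⟨(List.getElem?_eq_some_iff.1 hc).1, hB _ (List.mem_of_getElem? hc) _ hl, by simp⟩
  | KH hc hl =>
    exact ⟨(List.getElem?_eq_some_iff.1 hc).1, hB _ (List.mem_of_getElem? hc) _ hl, by simp⟩

/-! ### Types -/

/-- The type of a token. -/
def ty (m : ℕ) (i : Bool × ℕ) : ℕ := (if i.1 then m else 0) + i.2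

lemma ty_lt {m : ℕ} {i : Bool × ℕ} (h : i.2 < m) : ty m i < 2 * m := by
  simp only [ty]; split_ifs <;> omega

lemma types_length (m U : ℕ) (cl : List LCl) : (types m U cl).length = 2 * m + 1 := by
  simp [types]; omega

lemma types_ty {m U : ℕ} {cl : List LCl} {i : Bool × ℕ} (h : i.2 < m) :
    (types m U cl)[ty m i]? = some (tokEdges m i.1 i.2) := by
  obtain ⟨g, x⟩ := i
  simp only at h
  cases g
  · simp only [types, ty, Bool.false_eq_true, if_false, Nat.zero_add]
    rw [List.append_assoc, List.getElem?_append_left (by simpa using h)]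
    simp [h]
  · simp only [types, ty, if_true]
    rw [List.append_assoc, List.getElem?_append_right (by simp),
      List.getElem?_append_left (by simpa using h)]
    simp [h]

lemma types_ctl {m U : ℕ} {cl : List LCl} :
    (types m U cl)[2 * m]? = some (ctlEdges m U cl) := by
  simp only [types]
  rw [List.getElem?_append_right (by simp; omega)]
  have : 2 * m - (List.map (tokEdges m false) (List.range m) ++
    List.map (tokEdges m true) (List.range m)).length = 0 := by simp; omega
  rw [this]
  rfl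

lemma mem_types {m U : ℕ} {cl : List LCl} {es : List (ℕ × ℕ)} :
    es ∈ types m U cl ↔ (∃ g x, x < m ∧ es = tokEdges m g x) ∨ es = ctlEdges m U cl := by
  simp only [types, List.mem_append, List.mem_map, List.mem_range, List.mem_cons,
    List.not_mem_nil, or_false]
  constructor
  · rintro ((⟨x, hx, rfl⟩ | ⟨x, hx, rfl⟩) | rfl)
    · exact Or.inl ⟨_, _, hx, rfl⟩
    · exact Or.inl ⟨_, _, hx, rfl⟩
    · exact Or.inr rfl
  · rintro (⟨g, x, hx, rfl⟩ | rfl)
    · cases g
      · exact Or.inl (Or.inl ⟨x, hx, rfl⟩)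
      · exact Or.inl (Or.inr ⟨x, hx, rfl⟩)
    · exact Or.inr rfl

lemma tokEdges_ne {m : ℕ} {g : Bool} {x : ℕ} (hx : x < m) {e : ℕ × ℕ}
    (h : e ∈ tokEdges m g x) : e.1 ≠ e.2 := by
  obtain ⟨l, l', h', rfl⟩ := mem_tokEdges.1 h
  intro e
  obtain ⟨-, -, rfl⟩ := cP_inj hx hx e
  rw [Loc.edge_irrefl] at h'
  exact absurd h' (by simp)

/-! ### The initial position -/

lemma mem_tokens {B : Base} {u₀ : ℕ} {tr : List ℕ} {n t : ℕ} :
    (n, t) ∈ (hit B.m B.U B.cl u₀ tr).tokens ↔
      (t = 2 * B.m ∧ n = cW B.m true u₀) ∨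
      (∃ (i : Bool × ℕ) (l : Loc), i.2 < B.m ∧ (B.start u₀ tr).τ i = some l ∧
        cP B.m i.1 i.2 l = n ∧ t = ty B.m i) := by
  simp only [hit, List.mem_append, List.mem_map, List.mem_range, List.mem_cons,
    List.not_mem_nil, or_false, Prod.mk.injEq, Base.start]
  constructor
  · rintro ((⟨x, hx, rfl, rfl⟩ | ⟨x, hx, rfl, rfl⟩) | ⟨rfl, rfl⟩)
    · refine Or.inr ⟨(false, x), Loc.at' (decide (x ∈ tr)), hx, ?_, rfl, by simp [ty]⟩
      simp only [hx, if_true, true_and, Loc.at']
      by_cases h : x ∈ tr <;> simp [h]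
    · refine Or.inr ⟨(true, x), .c0, hx, ?_, rfl, by simp [ty]⟩
      simp [hx]
    · exact Or.inl ⟨rfl, rfl⟩
  · rintro (⟨rfl, rfl⟩ | ⟨⟨g, x⟩, l, hx, hl, rfl, rfl⟩)
    · exact Or.inr ⟨rfl, rfl⟩
    · simp only at hx hl ⊢
      rw [if_pos hx] at hl
      cases g
      · refine Or.inl (Or.inl ⟨x, hx, ?_, by simp [ty]⟩)
        simp only [true_and, Option.some.injEq] at hl
        rw [← hl]
        by_cases h : x ∈ tr <;> simp [h, Loc.at']
      · refine Or.inl (Or.inr ⟨x, hx, ?_, by simp [ty]⟩)
        simp only [Bool.true_eq_false, false_and, if_false, Option.some.injEq] at hl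
        rw [← hl]

lemma tokens_nodup {B : Base} {u₀ : ℕ} (hu : u₀ < B.U) (tr : List ℕ) :
    ((hit B.m B.U B.cl u₀ tr).tokens.map Prod.fst).Nodup := by
  simp only [hit, List.map_append, List.map_map, List.map_cons, List.map_nil]
  rw [List.nodup_append, List.nodup_append]
  refine ⟨⟨?_, ?_, ?_⟩, by simp, ?_⟩
  · refine List.Nodup.map_on ?_ List.nodup_range
    intro x hx y hy e
    simp only [List.mem_range] at hx hy
    exact (cP_inj hx hy e).2.1
  · refine List.Nodup.map_on ?_ List.nodup_range
    intro x hx y hy e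
    simp only [List.mem_range] at hx hy
    exact (cP_inj hx hy e).2.1
  · intro a ha b hb
    simp only [List.mem_map, List.mem_range, Function.comp] at ha hb
    obtain ⟨x, hx, rfl⟩ := ha
    obtain ⟨y, hy, rfl⟩ := hb
    intro e
    exact absurd (cP_inj hx hy e).1 (by simp)
  · intro a ha b hb
    simp only [List.mem_append, List.mem_map, List.mem_range, Function.comp, List.mem_cons,
      List.not_mem_nil, or_false] at ha hb
    subst hb
    rcases ha with ⟨x, hx, rfl⟩ | ⟨x, hx, rfl⟩
    · have := cP_lt (g := false) (l := Loc.at' (decide (x ∈ tr))) hx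
      simp only [cW]; omega
    · have := cP_lt (g := true) (l := .c0) hx
      simp only [cW]; omega

theorem hit_wf {B : Base} (hB : B.WF) {u₀ : ℕ} (hu : u₀ < B.U) (tr : List ℕ) :
    (hit B.m B.U B.cl u₀ tr).WF := by
  refine ⟨?_, ?_, ?_, tokens_nodup hu tr⟩
  · intro e he
    simp only [hit, List.mem_flatten] at he
    obtain ⟨es, hes, he⟩ := he
    rcases mem_types.1 hes with ⟨g, x, hx, rfl⟩ | rfl
    · refine ⟨?_, ?_, tokEdges_ne hx he⟩ <;>
      · obtain ⟨l, l', h, rfl⟩ := mem_tokEdges.1 he
        have h1 := cP_lt (g := g) (l := l) hx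
        have h2 := cP_lt (g := g) (l := l') hx
        simp only [hit]; omega
    · obtain ⟨u, v, h, rfl⟩ := mem_ctlEdges.1 he
      obtain ⟨h1, h2, h3⟩ := h.valid hB
      exact ⟨code_lt h1, code_lt h2, fun e => h3 (code_inj h1 h2 e)⟩
  · intro es hes e he
    simp only [hit, List.mem_flatten] at hes ⊢
    exact ⟨es, hes, he⟩
  · rintro ⟨n, t⟩ h
    rcases mem_tokens.1 h with ⟨rfl, rfl⟩ | ⟨i, l, hi, -, rfl, rfl⟩
    · refine ⟨code_lt (B := B) (v := .W true u₀) hu, ?_⟩
      simp only [hit, types_length]; omega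
    · have h1 := cP_lt (g := i.1) (l := l) hi
      have h2 := ty_lt hi
      simp only [hit, types_length]
      constructor <;> omega

lemma lookup_eq_some {l : List (ℕ × ℕ)} (h : (l.map Prod.fst).Nodup) {n t : ℕ} :
    l.lookup n = some t ↔ (n, t) ∈ l := by
  induction l with
  | nil => simp
  | cons a l ih =>
    obtain ⟨a, b⟩ := a
    simp only [List.map_cons, List.nodup_cons, List.mem_map, not_exists, not_and] at h
    rw [List.lookup_cons]
    by_cases e : n = a
    · subst e
      simp only [beq_self_eq_true, Option.some.injEq, List.mem_cons, Prod.mk.injEq, true_and]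
      constructor
      · rintro rfl; exact Or.inl rfl
      · rintro (rfl | h')
        · rfl
        · exact absurd rfl (h.1 _ h')
    · have : (n == a) = false := by simpa using e
      simp only [this, List.mem_cons, Prod.mk.injEq, e, false_and, false_or]
      exact ih h.2

/-! ### Representation of states by positions -/

/-- The position `p` represents the state `s`. -/
structure Rep (B : Base) (s : St) (p : Pos) : Prop where
  valid : ∀ v, s.c = some v → Valid B v
  good : ∀ (i : Bool × ℕ) (l : Loc), i.2 < B.m → s.τ i = some l → s.c ≠ some (.P i.1 i.2 l)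
  iff : ∀ n t, p n = some t ↔ (t = 2 * B.m ∧ ∃ v, s.c = some v ∧ code B.m v = n) ∨
    (∃ (i : Bool × ℕ) (l : Loc), i.2 < B.m ∧ s.τ i = some l ∧ cP B.m i.1 i.2 l = n ∧
      t = ty B.m i)

lemma rep_start {B : Base} {u₀ : ℕ} (hu : u₀ < B.U) (tr : List ℕ) :
    Rep B (B.start u₀ tr) (hit B.m B.U B.cl u₀ tr).start := by
  refine ⟨?_, ?_, ?_⟩
  · intro v hv
    simp only [Base.start, Option.some.injEq] at hv
    subst hv
    exact hu
  · intro i l hi hl h
    simp [Base.start] at h
  · intro n t
    rw [show (hit B.m B.U B.cl u₀ tr).start n = (hit B.m B.U B.cl u₀ tr).tokens.lookup n from rfl,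
      lookup_eq_some (tokens_nodup hu tr), mem_tokens]
    simp only [Base.start, Option.some.injEq, exists_eq_left', code]
    constructor
    · rintro (⟨h, rfl⟩ | h)
      · exact Or.inl ⟨h, rfl⟩
      · exact Or.inr h
    · rintro (⟨h, rfl⟩ | h)
      · exact Or.inl ⟨h, rfl⟩
      · exact Or.inr h

lemma rep_tok {B : Base} {s : St} {p : Pos} (h : Rep B s p) {i : Bool × ℕ} {l l' : Loc}
    (hi : i.2 < B.m) (hl : s.τ i = some l) (he : l.edge i.1 l' = true) :
    Rep B ⟨if s.c = some (.P i.1 i.2 l') then none else s.c, Function.update s.τ i (some l')⟩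
      (Function.update (Function.update p (cP B.m i.1 i.2 l) none) (cP B.m i.1 i.2 l')
        (some (ty B.m i))) := by
  have hne : l ≠ l' := by
    rintro rfl
    rw [Loc.edge_irrefl] at he
    exact absurd he (by simp)
  have hc : ∀ v, (if s.c = some (Vx.P i.1 i.2 l') then none else s.c) = some v ↔
      s.c = some v ∧ v ≠ .P i.1 i.2 l' := by
    intro v
    split_ifs with h1
    · rw [h1]
      simp only [reduceCtorEq, Option.some.injEq, false_iff, not_and, not_not]
      exact fun e => e.symm
    · constructor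
      · intro h2
        refine ⟨h2, ?_⟩
        rintro rfl
        exact h1 h2
      · exact fun h2 => h2.1
  refine ⟨?_, ?_, ?_⟩
  · intro v hv
    exact h.valid v ((hc v).1 hv).1
  · intro j k hj hk hjc
    obtain ⟨h1, h2⟩ := (hc _).1 hjc
    by_cases hji : j = i
    · subst hji
      simp only [Function.update_self, Option.some.injEq] at hk
      subst hk
      exact h2 rfl
    · simp only [Function.update_of_ne hji] at hk
      exact h.good j k hj hk h1
  · intro n t
    simp only [hc]
    by_cases hn : n = cP B.m i.1 i.2 l'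
    · subst hn
      simp only [Function.update_self, Option.some.injEq]
      constructor
      · rintro rfl
        exact Or.inr ⟨i, l', hi, by simp, rfl, rfl⟩
      · rintro (⟨-, v, ⟨hv, hv'⟩, hv2⟩ | ⟨j, k, hj, hk, hjk, rfl⟩)
        · exact absurd (code_inj (h.valid v hv) (w := .P i.1 i.2 l') hi hv2) hv'
        · obtain ⟨h1, h2, -⟩ := cP_inj hj hi hjk
          rw [Prod.ext h1 h2]
    · rw [Function.update_of_ne hn]
      by_cases hn' : n = cP B.m i.1 i.2 l
      · subst hn'
        simp only [Function.update_self, reduceCtorEq, false_iff]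
        rintro (⟨-, v, ⟨hv, -⟩, hv2⟩ | ⟨j, k, hj, hk, hjk, rfl⟩)
        · have := code_inj (h.valid v hv) (w := .P i.1 i.2 l) hi hv2
          subst this
          exact h.good i l hi hl hv
        · obtain ⟨h1, h2, rfl⟩ := cP_inj hj hi hjk
          obtain rfl : j = i := Prod.ext h1 h2
          simp only [Function.update_self, Option.some.injEq] at hk
          exact hne hk.symm
      · rw [Function.update_of_ne hn', h.iff]
        constructor
        · rintro (⟨rfl, v, hv, rfl⟩ | ⟨j, k, hj, hk, rfl, rfl⟩)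
          · refine Or.inl ⟨rfl, v, ⟨hv, ?_⟩, rfl⟩
            rintro rfl
            exact hn rfl
          · refine Or.inr ⟨j, k, hj, ?_, rfl, rfl⟩
            by_cases hji : j = i
            · subst hji
              rw [hl, Option.some.injEq] at hk
              subst hk
              exact absurd rfl hn'
            · rw [Function.update_of_ne hji]; exact hk
        · rintro (⟨rfl, v, ⟨hv, -⟩, rfl⟩ | ⟨j, k, hj, hk, rfl, rfl⟩)
          · exact Or.inl ⟨rfl, v, hv, rfl⟩
          · refine Or.inr ⟨j, k, hj, ?_, rfl, rfl⟩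
            by_cases hji : j = i
            · subst hji
              simp only [Function.update_self, Option.some.injEq] at hk
              subst hk
              exact absurd rfl hn
            · rw [Function.update_of_ne hji] at hk; exact hk

lemma cap_some {b : Vx} {τ : Bool × ℕ → Option Loc} {j : Bool × ℕ} {k : Loc} :
    cap b τ j = some k ↔ τ j = some k ∧ b ≠ .P j.1 j.2 k := by
  cases b with
  | P g x l =>
    simp only [cap]
    split_ifs with h
    · by_cases hj : j = (g, x)
      · subst hj
        simp only [Function.update_self, reduceCtorEq, h, Option.some.injEq, ne_eq,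
          Vx.P.injEq, true_and, false_iff, not_and, not_not, imp_self]
      · rw [Function.update_of_ne hj]
        constructor
        · intro h'
          refine ⟨h', ?_⟩
          intro e
          injection e with e1 e2 e3
          exact hj (Prod.ext e1.symm e2.symm)
        · exact fun h' => h'.1
    · constructor
      · intro h'
        refine ⟨h', ?_⟩
        intro e
        injection e with e1 e2 e3
        subst e1 e2 e3
        exact h h'
      · exact fun h' => h'.1
  | M v => simp [cap]
  | W g u => simp [cap]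
  | D g u => simp [cap]
  | K g u => simp [cap]

lemma rep_ctl {B : Base} (hB : B.WF) {s : St} {p : Pos} (h : Rep B s p) {a b : Vx}
    (ha : s.c = some a) (he : CEdge B a b) :
    Rep B ⟨some b, cap b s.τ⟩
      (Function.update (Function.update p (code B.m a) none) (code B.m b) (some (2 * B.m))) := by
  obtain ⟨hva, hvb, hab⟩ := he.valid hB
  refine ⟨?_, ?_, ?_⟩
  · intro v hv
    simp only [Option.some.injEq] at hv
    subst hv
    exact hvb
  · intro j k hj hk hjc
    simp only [Option.some.injEq] at hjc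
    exact (cap_some.1 hk).2 hjc
  · intro n t
    simp only [Option.some.injEq, exists_eq_left', cap_some]
    by_cases hn : n = code B.m b
    · subst hn
      simp only [Function.update_self, Option.some.injEq, and_true]
      constructor
      · rintro rfl
        exact Or.inl rfl
      · rintro (rfl | ⟨j, k, hj, ⟨-, hk⟩, hjk, rfl⟩)
        · rfl
        · exact absurd (code_inj (v := .P j.1 j.2 k) hj hvb hjk).symm hk
    · rw [Function.update_of_ne hn]
      by_cases hn' : n = code B.m a
      · subst hn'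
        simp only [Function.update_self, reduceCtorEq, false_iff]
        rintro (⟨-, hv⟩ | ⟨j, k, hj, ⟨hk, -⟩, hjk, rfl⟩)
        · exact hn hv.symm
        · have := code_inj (v := .P j.1 j.2 k) hj hva hjk
          subst this
          exact h.good j k hj hk ha
      · rw [Function.update_of_ne hn', h.iff]
        constructor
        · rintro (⟨rfl, v, hv, rfl⟩ | ⟨j, k, hj, hk, rfl, rfl⟩)
          · rw [ha, Option.some.injEq] at hv
            subst hv
            exact absurd rfl hn'
          · refine Or.inr ⟨j, k, hj, ⟨hk, ?_⟩, rfl, rfl⟩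
            rintro rfl
            exact hn rfl
        · rintro (⟨rfl, hv⟩ | ⟨j, k, hj, ⟨hk, -⟩, rfl, rfl⟩)
          · exact absurd hv.symm hn
          · exact Or.inr ⟨j, k, hj, hk, rfl, rfl⟩

lemma rep_step {B : Base} (hB : B.WF) {u₀ : ℕ} {tr : List ℕ} {s s' : St} {p : Pos}
    (h : Rep B s p) (hs : Step B s s') :
    ∃ p', (hit B.m B.U B.cl u₀ tr).Move p p' ∧ Rep B s' p' := by
  cases hs with
  | @tok i l l' hi hl he =>
    refine ⟨_, ⟨cP B.m i.1 i.2 l, cP B.m i.1 i.2 l', ty B.m i, tokEdges B.m i.1 i.2, ?_,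
      types_ty hi, mem_tokEdges.2 ⟨l, l', he, rfl⟩, rfl⟩, rep_tok h hi hl he⟩
    rw [h.iff]
    exact Or.inr ⟨i, l, hi, hl, rfl, rfl⟩
  | @ctl a b ha he =>
    refine ⟨_, ⟨code B.m a, code B.m b, 2 * B.m, ctlEdges B.m B.U B.cl, ?_,
      types_ctl, mem_ctlEdges.2 ⟨a, b, he, rfl⟩, rfl⟩, rep_ctl hB h ha he⟩
    rw [h.iff]
    exact Or.inl ⟨rfl, a, ha, rfl⟩

lemma step_rep {B : Base} (hB : B.WF) {u₀ : ℕ} {tr : List ℕ} {s : St} {p p' : Pos}
    (h : Rep B s p) (hp : (hit B.m B.U B.cl u₀ tr).Move p p') :
    ∃ s', Step B s s' ∧ Rep B s' p' := by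
  obtain ⟨u, v, t, es, hu, hes, huv, rfl⟩ := hp
  change (types B.m B.U B.cl)[t]? = some es at hes
  rcases (h.iff u t).1 hu with ⟨rfl, a, ha, rfl⟩ | ⟨i, l, hi, hl, rfl, rfl⟩
  · rw [types_ctl, Option.some.injEq] at hes
    subst hes
    obtain ⟨a', b, hab, e⟩ := mem_ctlEdges.1 huv
    simp only [Prod.mk.injEq] at e
    obtain ⟨e1, rfl⟩ := e
    obtain rfl := code_inj (h.valid a ha) (hab.valid hB).1 e1
    exact ⟨_, .ctl ha hab, rep_ctl hB h ha hab⟩
  · rw [types_ty hi, Option.some.injEq] at hes
    subst hes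
    obtain ⟨k, k', hk, e⟩ := mem_tokEdges.1 huv
    simp only [Prod.mk.injEq] at e
    obtain ⟨e1, rfl⟩ := e
    obtain ⟨-, -, rfl⟩ := cP_inj hi hi e1
    exact ⟨_, .tok hi hl hk, rep_tok h hi hl hk⟩

theorem hit_wins {B : Base} (hB : B.WF) {u₀ : ℕ} (hu : u₀ < B.U) (tr : List ℕ) :
    (hit B.m B.U B.cl u₀ tr).Wins (hit B.m B.U B.cl u₀ tr).start ↔ SWins B (B.start u₀ tr) := by
  have h1 : ∀ p, (hit B.m B.U B.cl u₀ tr).Wins p → ∀ s, Rep B s p → SWins B s := by
    intro p hp
    induction hp with
    | intro hm _ ih =>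
      intro s hs
      obtain ⟨s', hs', hr'⟩ := step_rep hB hs hm
      refine SWins.intro hs' fun r hr => ?_
      obtain ⟨p', hp', hrp⟩ := rep_step hB hr' hr
      exact ih p' hp' r hrp
  have h2 : ∀ s, SWins B s → ∀ p, Rep B s p → (hit B.m B.U B.cl u₀ tr).Wins p := by
    intro s hs
    induction hs with
    | intro hm _ ih =>
      intro p hp
      obtain ⟨p', hp', hr'⟩ := rep_step hB hp hm
      refine Inst.Wins.intro hp' fun r hr => ?_
      obtain ⟨s', hs', hrs⟩ := step_rep hB hr' hr
      exact ih s' hs' r hrs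
  exact ⟨fun h => h1 _ h _ (rep_start hu tr), fun h => h2 _ h _ (rep_start hu tr)⟩

end Pool.Agent.W_MP_901ac1_lc
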