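import Pool.Agent.W_MP_901ac1_lc.Gadget
import Pool.Agent.W_MP_901ac1_lc.Transfer
import Pool.Agent.W_MP_901ac1_lc.TMCorrect
import Pool.Agent.W_MP_901ac1_lc.PFClauses
import Pool.Agent.W_MP_901ac1_lc.PFHit

/-!
# Hit on directed graphs with cycles is EXPTIME-hard
-/

set_option autoImplicit false

open Turing Computability StateTransition

namespace Pool.Agent.W_MP_901ac1_lc

open Pool.Agent.PolyTime Pool.Agent.PolyTime.CL

/-- The instance of Hit without edges. -/
def trivialInst : Inst := ⟨1, [], [], []⟩

theorem trivialInst_wf : trivialInst.WF := by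
  constructor <;> simp [trivialInst]

theorem trivialInst_not_wins {p : Pos} : ¬ trivialInst.Wins p := by
  intro h
  cases h with
  | intro h1 _ =>
    obtain ⟨u, v, t, es, _, h2, _⟩ := h1
    simp [trivialInst] at h2

section

variable (tm : FinTM2) (sym : Bool → tm.Γ tm.k₀) (out : Bool → tm.Γ tm.k₁) (p : Polynomial ℕ)

/-- The number of bits of the counters. -/
noncomputable def nb (x : List Bool) : ℕ := p.eval x.length + MC.D tm + x.length

/-- The instance of Hit for the input `x`. -/
noncomputable def redInst (x : List Bool) : Inst :=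
  hit (nvars tm (nb tm p x)) 2 (tmClauses tm sym (nb tm p x) x) 1 (tmTrue tm (out true) (nb tm p x))

theorem redInst_wf (x : List Bool) : (redInst tm sym out p x).WF := by
  have h := tmBase_wf tm sym (nb tm p x) x (by unfold nb; omega)
  exact hit_wf h (u₀ := 1) (by simp [tmBase]) (tmTrue tm (out true) (nb tm p x))

theorem redInst_wins (x : List Bool) (hg : (⟨tm.k₁, some (out true)⟩ : Pr tm) ∈ prs tm) :
    (redInst tm sym out p x).Wins (redInst tm sym out p x).start ↔
      ((cfg tm sym x (2 ^ (nb tm p x) - 1)).S tm.k₁)[0]? = some (out true) := by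
  have hm : x.length ≤ nb tm p x := by unfold nb; omega
  have h := tmBase_wf tm sym (nb tm p x) x hm
  have h1 := hit_wins h (u₀ := 1) (by simp [tmBase]) (tmTrue tm (out true) (nb tm p x))
  have h2 := swins_iff h (u₀ := 1) (by simp [tmBase]) (tmTrue tm (out true) (nb tm p x))
  rw [← tm_correct hm hg]
  exact h1.trans h2

theorem pf_redInst : PF (fun x => (redInst tm sym out p x).tup) := by
  have hm : PF (fun x : List Bool => nb tm p x) :=
    ((PF.polyEval p (PF.length PF.id)).add (PF.const _)).add (PF.length PF.id)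
  exact pf_hit (pf_nvars tm hm) (PF.const 2) (PF.const 1) (pf_tmClauses tm sym hm PF.id)
    (pf_tmTrue tm (out true) hm)

end

/-- **EXPTIME-hardness.** -/
theorem exp_hard {L : Set (List Bool)} (hL : InEXP L) :
    ∃ f : List Bool → Inst,
      Nonempty (TM2ComputableInPolyTime (fun x : List Bool => x) Inst.code f) ∧
      (∀ x, (f x).WF) ∧ ∀ x, x ∈ L ↔ (f x).Wins (f x).start := by
  classical
  obtain ⟨p, V, C, ht, hV⟩ := hL
  set sym : Bool → C.tm.Γ C.tm.k₀ := C.inputAlphabet.invFun with hsym
  set out : Bool → C.tm.Γ C.tm.k₁ := C.outputAlphabet.invFun with hout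
  -- the final configuration
  have hrun : ∀ x : List Bool, cfg C.tm sym x (2 ^ (nb C.tm p x) - 1) =
      MC.of (haltList C.tm [out (V x)]) := by
    intro x
    have h := C.outputsFun x
    have e : List.map C.outputAlphabet.invFun (encodingBoolBool.encode (V x)) = [out (V x)] := rfl
    rw [e] at h
    refine MC.next_outputs h _ ?_
    have h1 := ht x.length
    have h2 : C.time x.length * MC.D C.tm ≤ 2 ^ p.eval x.length * MC.D C.tm :=
      Nat.mul_le_mul_right _ h1
    have h3 : MC.D C.tm < 2 ^ MC.D C.tm := Nat.lt_two_pow_self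
    have h4 : 2 ^ p.eval x.length * (MC.D C.tm + 1) ≤ 2 ^ (nb C.tm p x) := by
      unfold nb
      rw [pow_add, pow_add]
      calc 2 ^ p.eval x.length * (MC.D C.tm + 1)
          ≤ 2 ^ p.eval x.length * 2 ^ MC.D C.tm := Nat.mul_le_mul_left _ h3
        _ ≤ 2 ^ p.eval x.length * 2 ^ MC.D C.tm * 2 ^ x.length :=
            Nat.le_mul_of_pos_right _ (by positivity)
    have h5 : 0 < 2 ^ p.eval x.length := by positivity
    have h6 : C.time x.length * MC.D C.tm + 1 ≤ 2 ^ (nb C.tm p x) := by
      have : 2 ^ p.eval x.length * (MC.D C.tm + 1) =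
        2 ^ p.eval x.length * MC.D C.tm + 2 ^ p.eval x.length := by ring
      omega
    have e2 : (id x).length = x.length := rfl
    exact Nat.le_sub_one_of_lt h6
  have hS : ∀ x : List Bool, ((cfg C.tm sym x (2 ^ (nb C.tm p x) - 1)).S C.tm.k₁)[0]? =
      some (out (V x)) := by
    intro x
    rw [hrun]
    simp [MC.of, haltList]
  by_cases hg : (⟨C.tm.k₁, some (out true)⟩ : Pr C.tm) ∈ prs C.tm
  · refine ⟨fun x => redInst C.tm sym out p x, toTM2_inst (pf_redInst _ _ _ _),
      fun x => redInst_wf _ _ _ _ x, fun x => ?_⟩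
    rw [redInst_wins _ _ _ _ x hg, hS, hV, Option.some.injEq]
    constructor
    · intro h; rw [h]
    · intro h; exact C.outputAlphabet.symm.injective h
  · refine ⟨fun _ => trivialInst, toTM2_inst (PF.const _), fun _ => trivialInst_wf, fun x => ?_⟩
    refine ⟨fun h => ?_, fun h => absurd h trivialInst_not_wins⟩
    rw [hV] at h
    exfalso
    apply hg
    -- the contents of cells are in the list
    have hms : ∀ t, ctl (cfg C.tm sym x t) ∈ ctls C.tm ∧ SymOK (cfg C.tm sym x t) := by
      intro t
      induction t with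
      | zero => exact ⟨init_mem C.tm _, init_symOK C.tm _⟩
      | succ t ih =>
        have : cfg C.tm sym x (t + 1) = (cfg C.tm sym x t).next :=
          Function.iterate_succ_apply' _ _ _
        rw [this]
        exact ⟨next_mem C.tm ih.1, next_symOK C.tm ih.1 ih.2⟩
    have h1 := mem_Gl C.tm (hms (2 ^ (nb C.tm p x) - 1)).2 C.tm.k₁ 0
    rw [hS, h] at h1
    unfold prs
    rw [List.mem_flatMap]
    exact ⟨C.tm.k₁, mem_Kl _ _, List.mem_map.2 ⟨_, h1, rfl⟩⟩

end Pool.Agent.W_MP_901ac1_lc
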