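import Pool.Agent.W_MP_901ac1_lc.TMDefs

/-!
# Binary numbers in the base game
-/

set_option autoImplicit false

namespace Pool.Agent.W_MP_901ac1_lc

/-- All clauses of a list are true. -/
def AllSat (cs : List (List Lit)) (X Y : ℕ → Bool) : Prop := ∀ c ∈ cs, ∃ l ∈ c, Lit.Holds X Y l

/-- Some literal of a list is true. -/
def AnyHolds (G : List Lit) (X Y : ℕ → Bool) : Prop := ∃ l ∈ G, Lit.Holds X Y l

/-- The new (`true`) or old (`false`) assignment. -/
def side (X Y : ℕ → Bool) (s : Bool) : ℕ → Bool := if s then Y else X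

theorem allSat_append {cs ds : List (List Lit)} {X Y : ℕ → Bool} :
    AllSat (cs ++ ds) X Y ↔ AllSat cs X Y ∧ AllSat ds X Y := by
  simp only [AllSat, List.mem_append]
  exact ⟨fun h => ⟨fun c hc => h c (Or.inl hc), fun c hc => h c (Or.inr hc)⟩,
    fun h c hc => hc.elim (h.1 c) (h.2 c)⟩

theorem allSat_cons {c : List Lit} {cs : List (List Lit)} {X Y : ℕ → Bool} :
    AllSat (c :: cs) X Y ↔ AnyHolds c X Y ∧ AllSat cs X Y := by
  simp [AllSat, AnyHolds]

theorem allSat_nil {X Y : ℕ → Bool} : AllSat [] X Y := by simp [AllSat]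

theorem allSat_flatMap {ι : Type*} {L : List ι} {f : ι → List (List Lit)} {X Y : ℕ → Bool} :
    AllSat (L.flatMap f) X Y ↔ ∀ i ∈ L, AllSat (f i) X Y := by
  simp only [AllSat, List.mem_flatMap]
  exact ⟨fun h i hi c hc => h c ⟨i, hi, hc⟩, fun h c ⟨i, hi, hc⟩ => h i hi c hc⟩

theorem num_lt (m : ℕ) (f : ℕ → ℕ) (X : ℕ → Bool) : num m f X < 2 ^ m := by
  unfold num
  exact Nat.ofBits_lt_two_pow _

theorem num_testBit {m : ℕ} (f : ℕ → ℕ) (X : ℕ → Bool) {j : ℕ} (hj : j < m) :
    (num m f X).testBit j = X (f j) := by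
  unfold num
  rw [Nat.testBit_ofBits_lt _ _ hj]

theorem num_eq_iff {m : ℕ} {f : ℕ → ℕ} {X : ℕ → Bool} {n : ℕ} (hn : n < 2 ^ m) :
    num m f X = n ↔ ∀ j < m, X (f j) = n.testBit j := by
  constructor
  · rintro rfl j hj
    exact (num_testBit f X hj).symm
  · intro h
    apply Nat.eq_of_testBit_eq
    intro j
    by_cases hj : j < m
    · rw [num_testBit f X hj, h j hj]
    · have h1 : num m f X < 2 ^ j :=
        lt_of_lt_of_le (num_lt m f X) (Nat.pow_le_pow_right (by norm_num) (by omega))
      have h2 : n < 2 ^ j := lt_of_lt_of_le hn (Nat.pow_le_pow_right (by norm_num) (by omega))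
      rw [Nat.testBit_lt_two_pow h1, Nat.testBit_lt_two_pow h2]

/-- The bits of the predecessor. -/
theorem testBit_pred (j : ℕ) : ∀ n : ℕ,
    ((∃ l < j, (n + 1).testBit l = true) → n.testBit j = (n + 1).testBit j) ∧
    ((∀ l < j, (n + 1).testBit l = false) → n.testBit j = !(n + 1).testBit j) := by
  induction j with
  | zero =>
    intro n
    refine ⟨fun ⟨l, hl, _⟩ => absurd hl (Nat.not_lt_zero l), fun _ => ?_⟩
    simp only [Nat.testBit_zero]
    rcases Nat.mod_two_eq_zero_or_one n with h | h <;> simp [Nat.add_mod, h]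
  | succ j ih =>
    intro n
    rw [Nat.testBit_succ, Nat.testBit_succ]
    rcases Nat.mod_two_eq_zero_or_one n with h | h
    · have e : (n + 1) / 2 = n / 2 := by omega
      rw [e]
      refine ⟨fun _ => rfl, fun hl => ?_⟩
      have := hl 0 (Nat.succ_pos j)
      simp [Nat.testBit_zero, Nat.add_mod, h] at this
    · have e : (n + 1) / 2 = n / 2 + 1 := by omega
      rw [e]
      have e0 : (n + 1).testBit 0 = false := by
        simp [Nat.testBit_zero, Nat.add_mod, h]
      refine ⟨?_, ?_⟩
      · rintro ⟨l, hl, hl'⟩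
        cases l with
        | zero => rw [e0] at hl'; exact absurd hl' (by simp)
        | succ l =>
          rw [Nat.testBit_succ, e] at hl'
          exact (ih (n / 2)).1 ⟨l, by omega, hl'⟩
      · intro hall
        apply (ih (n / 2)).2
        intro l hl
        have := hall (l + 1) (by omega)
        rwa [Nat.testBit_succ, e] at this

theorem anyHolds_append {G G' : List Lit} {X Y : ℕ → Bool} :
    AnyHolds (G ++ G') X Y ↔ AnyHolds G X Y ∨ AnyHolds G' X Y := by
  simp only [AnyHolds, List.mem_append]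
  constructor
  · rintro ⟨l, h | h, hl⟩
    · exact Or.inl ⟨l, h, hl⟩
    · exact Or.inr ⟨l, h, hl⟩
  · rintro (⟨l, h, hl⟩ | ⟨l, h, hl⟩)
    · exact ⟨l, Or.inl h, hl⟩
    · exact ⟨l, Or.inr h, hl⟩

theorem anyHolds_cons {l : Lit} {G : List Lit} {X Y : ℕ → Bool} :
    AnyHolds (l :: G) X Y ↔ Lit.Holds X Y l ∨ AnyHolds G X Y := by
  simp [AnyHolds]

theorem anyHolds_nil {X Y : ℕ → Bool} : ¬ AnyHolds [] X Y := by
  simp [AnyHolds]

theorem anyHolds_map {ι : Type*} {L : List ι} {f : ι → Lit} {X Y : ℕ → Bool} :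
    AnyHolds (L.map f) X Y ↔ ∃ i ∈ L, Lit.Holds X Y (f i) := by
  simp [AnyHolds]

theorem holds_side {X Y : ℕ → Bool} {s : Bool} {x : ℕ} {b : Bool} :
    Lit.Holds X Y (s, x, b) ↔ side X Y s x = b := by
  unfold Lit.Holds side
  cases s <;> simp

theorem allSat_decCl_iff {G : List Lit} {sa : Bool} {fa : ℕ → ℕ} {sb : Bool} {fb : ℕ → ℕ} {m : ℕ}
    {X Y : ℕ → Bool} : AllSat (decCl G sa fa sb fb m) X Y ↔ AnyHolds G X Y ∨
      ∀ j < m, ((∃ l < j, side X Y sa (fa l) = true) →
          side X Y sb (fb j) = side X Y sa (fa j)) ∧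
        ((∀ l < j, side X Y sa (fa l) = false) →
          side X Y sb (fb j) = !side X Y sa (fa j)) := by
  unfold decCl
  rw [allSat_flatMap]
  by_cases hG : AnyHolds G X Y
  · simp [hG, allSat_append, allSat_flatMap, allSat_cons, allSat_nil, anyHolds_append]
  · simp only [hG, false_or, List.mem_range, allSat_append, allSat_flatMap, allSat_cons, allSat_nil,
      anyHolds_append, anyHolds_cons, anyHolds_nil, anyHolds_map, holds_side, or_false, and_true]
    refine forall_congr' fun j => forall_congr' fun _ => ?_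
    constructor
    · rintro ⟨h1, h2, h3⟩
      refine ⟨?_, ?_⟩
      · rintro ⟨l, hl, hla⟩
        obtain ⟨h4, h5⟩ := h1 l hl
        rw [hla] at h4 h5
        cases ha : side X Y sa (fa j) <;> cases hb : side X Y sb (fb j) <;> simp_all
      · intro hall
        have hne : ¬ ∃ i < j, side X Y sa (fa i) = true := by
          rintro ⟨i, hi, h⟩
          rw [hall i hi] at h
          exact absurd h (by simp)
        cases ha : side X Y sa (fa j) <;> cases hb : side X Y sb (fb j) <;> simp_all
    · rintro ⟨h1, h2⟩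
      refine ⟨?_, ?_, ?_⟩
      · intro l hl
        by_cases hla : side X Y sa (fa l) = true
        · have := h1 ⟨l, hl, hla⟩
          rw [this]
          cases ha : side X Y sa (fa j) <;> simp
        · simp only [Bool.not_eq_true] at hla
          exact ⟨Or.inl hla, Or.inl hla⟩
      · by_cases hex : ∃ i < j, side X Y sa (fa i) = true
        · exact Or.inl hex
        · right
          have := h2 (by
            intro l hl
            by_contra hcon
            exact hex ⟨l, hl, by simpa using hcon⟩)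
          rw [this]
          cases ha : side X Y sa (fa j) <;> simp
      · by_cases hex : ∃ i < j, side X Y sa (fa i) = true
        · exact Or.inl hex
        · right
          have := h2 (by
            intro l hl
            by_contra hcon
            exact hex ⟨l, hl, by simpa using hcon⟩)
          rw [this]
          cases ha : side X Y sa (fa j) <;> simp

theorem allSat_decCl_sound {G : List Lit} {sa : Bool} {fa : ℕ → ℕ} {sb : Bool} {fb : ℕ → ℕ} {m : ℕ}
    {X Y : ℕ → Bool} (h : AllSat (decCl G sa fa sb fb m) X Y) (hG : ¬ AnyHolds G X Y)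
    (h0 : num m fa (side X Y sa) ≠ 0) :
    num m fb (side X Y sb) + 1 = num m fa (side X Y sa) := by
  rw [allSat_decCl_iff] at h
  replace h := h.resolve_left hG
  obtain ⟨n, hn⟩ : ∃ n, num m fa (side X Y sa) = n + 1 := ⟨_, (Nat.succ_pred h0).symm⟩
  have hlt := num_lt m fa (side X Y sa)
  rw [hn] at hlt
  have ha := (num_eq_iff hlt).mp hn
  rw [hn]
  congr 1
  rw [num_eq_iff (by omega)]
  intro j hj
  obtain ⟨h1, h2⟩ := h j hj
  obtain ⟨h3, h4⟩ := testBit_pred j n
  by_cases hex : ∃ l < j, (n + 1).testBit l = true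
  · rw [h3 hex, ← ha j hj]
    apply h1
    obtain ⟨l, hl, hl'⟩ := hex
    exact ⟨l, hl, by rw [ha l (by omega)]; exact hl'⟩
  · have hall : ∀ l < j, (n + 1).testBit l = false := by
      intro l hl
      by_contra hcon
      exact hex ⟨l, hl, by simpa using hcon⟩
    rw [h4 hall, ← ha j hj]
    apply h2
    intro l hl
    rw [ha l (by omega)]
    exact hall l hl

theorem allSat_decCl_complete (G : List Lit) {sa : Bool} {fa : ℕ → ℕ} {sb : Bool} {fb : ℕ → ℕ}
    {m : ℕ} {X Y : ℕ → Bool} (h : num m fb (side X Y sb) + 1 = num m fa (side X Y sa)) :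
    AllSat (decCl G sa fa sb fb m) X Y := by
  rw [allSat_decCl_iff]
  right
  intro j hj
  have ha : ∀ l < m, side X Y sa (fa l) = (num m fb (side X Y sb) + 1).testBit l := by
    intro l hl
    rw [h, num_testBit _ _ hl]
  have hb := num_testBit fb (side X Y sb) hj
  obtain ⟨h3, h4⟩ := testBit_pred j (num m fb (side X Y sb))
  rw [← hb, ha j hj]
  refine ⟨?_, ?_⟩
  · rintro ⟨l, hl, hl'⟩
    exact h3 ⟨l, hl, by rw [← ha l (by omega)]; exact hl'⟩
  · intro hall
    apply h4
    intro l hl
    rw [← ha l (by omega)]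
    exact hall l hl

theorem allSat_eqCl {G : List Lit} {sa : Bool} {fa : ℕ → ℕ} {sb : Bool} {fb : ℕ → ℕ} {m : ℕ}
    {X Y : ℕ → Bool} : AllSat (eqCl G sa fa sb fb m) X Y ↔
      AnyHolds G X Y ∨ num m fa (side X Y sa) = num m fb (side X Y sb) := by
  unfold eqCl
  rw [allSat_flatMap, num_eq_iff (num_lt m fb (side X Y sb))]
  by_cases hG : AnyHolds G X Y
  · simp [hG, allSat_cons, allSat_nil, anyHolds_append]
  · simp only [hG, false_or, List.mem_range, allSat_cons, allSat_nil,
      anyHolds_append, anyHolds_cons, anyHolds_nil, holds_side, or_false, and_true]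
    refine forall_congr' fun j => forall_congr' fun hj => ?_
    rw [num_testBit fb _ hj]
    cases ha : side X Y sa (fa j) <;> cases hb : side X Y sb (fb j) <;> simp

theorem allSat_neCl {G : List Lit} {sa : Bool} {fa : ℕ → ℕ} {m : ℕ} {X Y : ℕ → Bool} :
    AllSat (neCl G sa fa m) X Y ↔ AnyHolds G X Y ∨ num m fa (side X Y sa) ≠ 0 := by
  unfold neCl
  rw [allSat_cons, anyHolds_append, anyHolds_map]
  simp only [allSat_nil, and_true]
  apply or_congr Iff.rfl
  rw [ne_eq, num_eq_iff (Nat.two_pow_pos m)]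
  simp [holds_side]

theorem allSat_zeroCl {sa : Bool} {fa : ℕ → ℕ} {m : ℕ} {X Y : ℕ → Bool} :
    AllSat (zeroCl sa fa m) X Y ↔ num m fa (side X Y sa) = 0 := by
  rw [num_eq_iff (Nat.two_pow_pos m)]
  unfold zeroCl AllSat
  cases sa <;> simp [holds_side]

end Pool.Agent.W_MP_901ac1_lc
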