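import Pool.Agent.W_MP_901ac1_lc.Base
import Pool.Agent.PolyTimeCL.CookLevin

/-!
# The base game of an exponential-time computation

The variables of an assignment `X` are: `vT j`, `vI j` (the bits, `j < m`, of a time `T` and of a
cell index `I`), `vC c` (claim: the control state at time `T` is `c`), `vP k g` (claim: cell `I` of
stack `k` at time `T` contains `g`), and `vE i` (auxiliary).
-/

set_option autoImplicit false

open Turing Computability StateTransition

namespace Pool.Agent.W_MP_901ac1_lc

open Pool.Agent.PolyTime Pool.Agent.PolyTime.CL

/-- Variable codes. -/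
def vT (j : ℕ) : ℕ := 5 * j
/-- Variable codes. -/
def vI (j : ℕ) : ℕ := 5 * j + 1
/-- Variable codes. -/
def vE (i : ℕ) : ℕ := 5 * i + 4

/-- The number with bits `j < m` of the assignment `X`, the bits being at `f j`. -/
def num (m : ℕ) (f : ℕ → ℕ) (X : ℕ → Bool) : ℕ := Nat.ofBits (fun j : Fin m => X (f j))

/-- Clauses (with the additional literals `G`) saying that the number with bits at `fb` (in the new
assignment if `sb`) is the one with bits at `fa` (in the new assignment if `sa`) minus one,
modulo `2 ^ m`. -/
def decCl (G : List Lit) (sa : Bool) (fa : ℕ → ℕ) (sb : Bool) (fb : ℕ → ℕ) (m : ℕ) :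
    List (List Lit) :=
  (List.range m).flatMap fun j =>
    ((List.range j).flatMap fun l =>
      [G ++ [(sa, fa l, false), (sa, fa j, false), (sb, fb j, true)],
       G ++ [(sa, fa l, false), (sa, fa j, true), (sb, fb j, false)]]) ++
    [G ++ ((List.range j).map fun l => (sa, fa l, true)) ++ [(sa, fa j, true), (sb, fb j, true)],
     G ++ ((List.range j).map fun l => (sa, fa l, true)) ++ [(sa, fa j, false), (sb, fb j, false)]]

/-- Clauses (with the additional literals `G`) saying that two numbers are equal. -/
def eqCl (G : List Lit) (sa : Bool) (fa : ℕ → ℕ) (sb : Bool) (fb : ℕ → ℕ) (m : ℕ) :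
    List (List Lit) :=
  (List.range m).flatMap fun j =>
    [G ++ [(sa, fa j, false), (sb, fb j, true)], G ++ [(sa, fa j, true), (sb, fb j, false)]]

/-- The number with bits at `fa` is not zero. -/
def neCl (G : List Lit) (sa : Bool) (fa : ℕ → ℕ) (m : ℕ) : List (List Lit) :=
  [G ++ (List.range m).map fun j => (sa, fa j, true)]

/-- The number with bits at `fa` is zero. -/
def zeroCl (sa : Bool) (fa : ℕ → ℕ) (m : ℕ) : List (List Lit) :=
  (List.range m).map fun j => [(sa, fa j, false)]

section

variable (tm : FinTM2)

/-- Possible contents of a cell, with its stack. -/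
abbrev Pr := Σ k : tm.K, Option (tm.Γ k)

/-- The list of all possible contents of cells. -/
noncomputable def prs : List (Pr tm) := (Kl tm).flatMap fun k => (Gl tm k).map fun g => ⟨k, g⟩

open Classical in
/-- Variable codes. -/
noncomputable def vC (c : Ctl tm) : ℕ := 5 * (ctls tm).idxOf c + 2

open Classical in
/-- Variable codes. -/
noncomputable def vP (p : Pr tm) : ℕ := 5 * (prs tm).idxOf p + 3

/-- A bound for the variables. -/
noncomputable def nvars (m : ℕ) : ℕ := 5 * (m + (ctls tm).length + (prs tm).length)

/-! ### Verification of a control claim (label 0) -/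

open Classical in
/-- The new control claim `c'` (and the new claim about the top of the stack concerned)
imply the old control claim `c`. -/
noncomputable def ctlCl (c' c : Ctl tm) : List (List Lit) :=
  match c' with
  | (none, v) => if (none, v) = c then [] else [[(true, vC tm c', false), (false, vC tm c, false)]]
  | (some (.push _ _ q), v) =>
      if (some q, v) = c then [] else [[(true, vC tm c', false), (false, vC tm c, false)]]
  | (some (.peek k f q), v) => (Gl tm k).flatMap fun g => if (some q, f v g) = c then [] else
      [[(true, vC tm c', false), (false, vC tm c, false), (true, vP tm ⟨k, g⟩, false)]]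
  | (some (.pop k f q), v) => (Gl tm k).flatMap fun g => if (some q, f v g) = c then [] else
      [[(true, vC tm c', false), (false, vC tm c, false), (true, vP tm ⟨k, g⟩, false)]]
  | (some (.load f q), v) =>
      if (some q, f v) = c then [] else [[(true, vC tm c', false), (false, vC tm c, false)]]
  | (some (.branch p q₁ q₂), v) => if (some (bif p v then q₁ else q₂), v) = c then [] else
      [[(true, vC tm c', false), (false, vC tm c, false)]]
  | (some (.goto l), v) => if (some (tm.m (l v)), v) = c then [] else
      [[(true, vC tm c', false), (false, vC tm c, false)]]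
  | (some .halt, v) =>
      if (none, v) = c then [] else [[(true, vC tm c', false), (false, vC tm c, false)]]

/-- If the new control claim is `c'` and `c'` looks at the top of a stack, then there is a new claim
about that stack. -/
noncomputable def topCl (c' : Ctl tm) : List (List Lit) :=
  match c'.1 with
  | some (.peek k _ _) => [(true, vC tm c', false) :: (Gl tm k).map fun g => (true, vP tm ⟨k, g⟩, true)]
  | some (.pop k _ _) => [(true, vC tm c', false) :: (Gl tm k).map fun g => (true, vP tm ⟨k, g⟩, true)]
  | _ => []

/-- Common clauses: the old time is not zero, the new time is the old time minus one, and there is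
a new control claim. -/
noncomputable def comCl (m : ℕ) : List (List Lit) :=
  neCl [] false vT m ++ decCl [] false vT true vT m ++
    [(ctls tm).map fun c => (true, vC tm c, true)]

/-- Clauses with label 0. -/
noncomputable def lab0 (m : ℕ) : List (List Lit) :=
  comCl tm m ++ zeroCl true vI m ++
    ((ctls tm).flatMap fun c' => topCl tm c' ++ (ctls tm).flatMap fun c => ctlCl tm c' c)

/-! ### Verification of a cell claim (label 1) -/

open Classical in
/-- The old claim `p = (k, g)` about a cell follows from the new control claim `c'` and a new claim
about a cell. -/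
noncomputable def cellCl (m : ℕ) (c' : Ctl tm) (p : Pr tm) : List (List Lit) :=
  let G : List Lit := [(true, vC tm c', false), (false, vP tm p, false)]
  match c'.1 with
  | some (.push k' f _) =>
      if k' = p.1 then
        (if (⟨k', some (f c'.2)⟩ : Pr tm) = p then [] else neCl G false vI m) ++
        (List.range m).flatMap fun b =>
          decCl ((false, vI b, false) :: G) false vI true vI m ++
            [(false, vI b, false) :: (G ++ [(true, vP tm p, true)])]
      else eqCl G false vI true vI m ++ [G ++ [(true, vP tm p, true)]]
  | some (.pop k' _ _) =>
      if k' = p.1 then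
        neCl G true vI m ++ decCl G true vI false vI m ++ [G ++ [(true, vP tm p, true)]]
      else eqCl G false vI true vI m ++ [G ++ [(true, vP tm p, true)]]
  | _ => eqCl G false vI true vI m ++ [G ++ [(true, vP tm p, true)]]

/-- Clauses with label 1. -/
noncomputable def lab1 (m : ℕ) : List (List Lit) :=
  comCl tm m ++ ((ctls tm).flatMap fun c' => (prs tm).flatMap fun p => cellCl tm m c' p)

/-! ### Acceptance at time 0 (label 2) -/

open Classical in
/-- Clauses for cell `i` of the input stack, which contains `sym b` if `o = some b`. -/
noncomputable def inCl (sym : Bool → tm.Γ tm.k₀) (m i : ℕ) (o : Option Bool) : List (List Lit) :=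
  ((Gl tm tm.k₀).flatMap fun g => if g = o.map sym then [] else
    [(false, vP tm ⟨tm.k₀, g⟩, false) :: (List.range m).map fun j => (false, vI j, !(i.testBit j))]) ++
  (List.range m).map fun j => [(true, vE i, false), (false, vI j, i.testBit j)]

open Classical in
/-- Clauses with label 2: the time is 0, the control claim is the initial control state, and the
claim about a cell is true in the initial configuration. -/
noncomputable def lab2 (sym : Bool → tm.Γ tm.k₀) (m : ℕ) (x : List Bool) : List (List Lit) :=
  zeroCl false vT m ++
  ((ctls tm).flatMap fun c => if c = (some (tm.m tm.main), tm.initialState) then [] else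
    [[(false, vC tm c, false)]]) ++
  ((prs tm).flatMap fun p => if p.1 = tm.k₀ ∨ p.2 = none then [] else
    [[(false, vP tm p, false)]]) ++
  ((List.range x.length).flatMap fun i => inCl tm sym m i x[i]?) ++
  ((Gl tm tm.k₀).flatMap fun g => if g = none then [] else
    [(false, vP tm ⟨tm.k₀, g⟩, false) :: (List.range x.length).map fun i => (true, vE i, true)])

/-- All labelled clauses. -/
noncomputable def tmClauses (sym : Bool → tm.Γ tm.k₀) (m : ℕ) (x : List Bool) : List LCl :=
  (lab0 tm m).map (fun c => (0, c)) ++ (lab1 tm m).map (fun c => (1, c)) ++
    (lab2 tm sym m x).map (fun c => (2, c))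

/-- The variables that are true initially: the time is `2 ^ m - 1`, the index is 0 and the claim is
that the top of the output stack is `g`. -/
noncomputable def tmTrue (g : tm.Γ tm.k₁) (m : ℕ) : List ℕ :=
  vP tm ⟨tm.k₁, some g⟩ :: (List.range m).map vT

/-- The base game. -/
noncomputable def tmBase (sym : Bool → tm.Γ tm.k₀) (m : ℕ) (x : List Bool) : Base where
  m := nvars tm m
  U := 2
  cl := tmClauses tm sym m x

end

end Pool.Agent.W_MP_901ac1_lc
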